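import Pool.Agent.H978R3.PS

/-!
Binomial type coefficients and the re-expansion identity.
-/

open Metric Filter Topology Finset

namespace Pool.Agent.H978R3

/-- generalised binomial coefficients -/
noncomputable def bc (α : ℂ) (j : ℕ) : ℂ := Ring.choose α j

/-- coefficients of `(1-z)^(-b)` -/
noncomputable def gm (b : ℂ) (m : ℕ) : ℂ := Ring.choose (b + m - 1) m

theorem bc_zero (α : ℂ) : bc α 0 = 1 := by simp [bc]

theorem bc_succ (α : ℂ) (j : ℕ) : bc α (j + 1) * ((j : ℂ) + 1) = bc α j * (α - j) := by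
  have h1 := Ring.descPochhammer_eq_factorial_smul_choose α (j + 1)
  have h2 := Ring.descPochhammer_eq_factorial_smul_choose α j
  rw [descPochhammer_succ_right, Polynomial.smeval_mul] at h1
  rw [h2] at h1
  simp only [Polynomial.smeval_sub, Polynomial.smeval_X, pow_one, Polynomial.smeval_natCast,
    pow_zero, nsmul_eq_mul, mul_one] at h1
  have h3 : ((j + 1).factorial : ℂ) = (j + 1) * (j.factorial : ℂ) := by
    rw [Nat.factorial_succ]; push_cast; ring
  rw [h3] at h1
  have h4 : (j.factorial : ℂ) ≠ 0 := by exact_mod_cast j.factorial_ne_zero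
  unfold bc
  apply mul_left_cancel₀ h4
  linear_combination -h1

theorem gm_zero (b : ℂ) : gm b 0 = 1 := by simp [gm]

theorem bc_neg (b : ℂ) (m : ℕ) : bc (-b) m = (-1) ^ m * gm b m := by
  unfold bc gm
  rw [Ring.choose_neg]
  rw [Int.negOnePow_def]
  simp [Units.smul_def]

theorem gm_eq (b : ℂ) (m : ℕ) : gm b m = (-1) ^ m * bc (-b) m := by
  rw [bc_neg, ← mul_assoc, ← mul_pow]; simp

theorem gm_succ (b : ℂ) (m : ℕ) : gm b (m + 1) * ((m : ℂ) + 1) = gm b m * (b + m) := by
  rw [gm_eq, gm_eq, mul_assoc, bc_succ]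
  ring

theorem gm_succ' (b : ℂ) (m : ℕ) : gm b (m + 1) * ((m : ℂ) + 1) = b * gm (b + 1) m := by
  induction m with
  | zero =>
    have := gm_succ b 0
    simp only [gm_zero] at this ⊢
    simpa using this
  | succ m ih =>
    rw [gm_succ]
    have h := gm_succ (b + 1) m
    have h4 : (m : ℂ) + 1 ≠ 0 := by exact_mod_cast Nat.succ_ne_zero m
    apply mul_right_cancel₀ h4
    push_cast
    linear_combination (b + (m + 1)) * ih - b * h

theorem gm_vandermonde (r s : ℂ) (n : ℕ) :
    gm (r + s) n = ∑ k ∈ range (n + 1), gm r k * gm s (n - k) := by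
  have h := Ring.add_choose_eq (r := -r) (s := -s) n (Commute.all _ _)
  rw [Finset.Nat.sum_antidiagonal_eq_sum_range_succ
    (fun i j => Ring.choose (-r) i * Ring.choose (-s) j)] at h
  rw [gm_eq, neg_add, bc, h, Finset.mul_sum]
  apply Finset.sum_congr rfl
  intro k hk
  have hk' : k ≤ n := by simpa [Nat.lt_succ_iff] using hk
  rw [gm_eq, gm_eq, bc, bc]
  have : (-1 : ℂ) ^ n = (-1) ^ k * (-1) ^ (n - k) := by rw [← pow_add, Nat.add_sub_cancel' hk']
  rw [this]; ring

theorem bc_mul_choose (α : ℂ) {i k : ℕ} (h : i ≤ k) :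
    bc α k * (k.choose i : ℂ) = bc α i * bc (α - i) (k - i) := by
  have := Ring.choose_smul_choose α h
  rw [nsmul_eq_mul] at this
  unfold bc
  rw [mul_comm]; exact this

/-- the coefficient of `z^n` in `(1+xz)^α (1-z)^(-β)` -/
noncomputable def cf (α β x : ℂ) (n : ℕ) : ℂ :=
  ∑ k ∈ range (n + 1), bc α k * x ^ k * gm β (n - k)

theorem cf_reexpand (α β y : ℂ) (n : ℕ) :
    cf α β (y - 1) n = ∑ j ∈ range (n + 1), bc α j * y ^ j * gm (β - α + j) (n - j) := by
  unfold cf
  have h1 : ∀ k ∈ range (n + 1), bc α k * (y - 1) ^ k * gm β (n - k) =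
      ∑ i ∈ Ico 0 (k + 1), bc α k * (y ^ i * (-1) ^ (k - i) * (k.choose i : ℂ)) * gm β (n - k) := by
    intro k _
    rw [sub_eq_add_neg, add_pow, ← Finset.sum_mul, ← Finset.mul_sum, ← Finset.range_eq_Ico]
  rw [Finset.sum_congr rfl h1, Finset.range_eq_Ico, ← Finset.sum_Ico_Ico_comm 0 (n + 1)
    (fun i k => bc α k * (y ^ i * (-1) ^ (k - i) * (k.choose i : ℂ)) * gm β (n - k))]
  apply Finset.sum_congr rfl
  intro i hi
  have hi' : i ≤ n := by simpa [Nat.lt_succ_iff] using hi
  rw [Finset.sum_Ico_eq_sum_range]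
  have e1 : n + 1 - i = (n - i) + 1 := by omega
  rw [e1, show β - α + (i : ℂ) = (i - α) + β by ring, gm_vandermonde, Finset.mul_sum]
  apply Finset.sum_congr rfl
  intro k hk
  have hk' : k ≤ n - i := by simpa [Nat.lt_succ_iff] using hk
  have h2 := bc_mul_choose α (i := i) (k := i + k) (Nat.le_add_right _ _)
  rw [Nat.add_sub_cancel_left] at h2 ⊢
  have h3 : gm ((i : ℂ) - α) k = (-1) ^ k * bc (α - i) k := by
    rw [gm_eq]; congr 2; ring
  have h4 : n - (i + k) = n - i - k := by omega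
  rw [h3, h4]
  linear_combination (y ^ i * (-1) ^ k * gm β (n - i - k)) * h2

theorem tendsto_ratio (u v : ℂ) :
    Tendsto (fun n : ℕ => ‖((n : ℂ) + u) / ((n : ℂ) + v)‖) atTop (𝓝 1) := by
  have h1 : Tendsto (fun n : ℕ => ((n : ℂ) + u) / ((n : ℂ) + v)) atTop (𝓝 1) := by
    have hv : ∀ᶠ n : ℕ in atTop, ((n : ℂ) + v) ≠ 0 := by
      filter_upwards [eventually_gt_atTop (Nat.ceil ‖v‖)] with n hn h
      have : ‖v‖ < n := (Nat.le_ceil _).trans_lt (by exact_mod_cast hn)
      have h2 : v = -(n : ℂ) := by linear_combination h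
      rw [h2, norm_neg, Complex.norm_natCast] at this
      exact lt_irrefl _ this
    have h2 : Tendsto (fun n : ℕ => (u - v) / ((n : ℂ) + v)) atTop (𝓝 0) := by
      apply squeeze_zero_norm' (a := fun n : ℕ => ‖u - v‖ / ((n : ℝ) - ‖v‖))
      · filter_upwards [eventually_gt_atTop (Nat.ceil ‖v‖)] with n hn
        have h3 : ‖v‖ < n := (Nat.le_ceil _).trans_lt (by exact_mod_cast hn)
        rw [norm_div]
        apply div_le_div_of_nonneg_left (norm_nonneg _) (by linarith)
        have := norm_sub_le_norm_add (n : ℂ) v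
        rw [Complex.norm_natCast] at this
        exact this
      · apply Tendsto.div_atTop tendsto_const_nhds
        exact tendsto_atTop_add_const_right _ _ tendsto_natCast_atTop_atTop
    have h3 : Tendsto (fun n : ℕ => 1 + (u - v) / ((n : ℂ) + v)) atTop (𝓝 (1 + 0)) :=
      tendsto_const_nhds.add h2
    rw [add_zero] at h3
    refine h3.congr' ?_
    filter_upwards [hv] with n hn
    field_simp; ring
  simpa using h1.norm

theorem GC_bc (α : ℂ) : GC (bc α) := by
  apply GC_of_ratio (s := fun n => -(((n : ℂ) + (-α)) / ((n : ℂ) + 1)))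
  · intro n
    have h4 : (n : ℂ) + 1 ≠ 0 := by exact_mod_cast Nat.succ_ne_zero n
    have := bc_succ α n
    field_simp
    linear_combination this
  · simp only [norm_neg]
    exact tendsto_ratio (-α) 1

theorem GC_gm (b : ℂ) : GC (gm b) := by
  apply GC_of_ratio (s := fun n => (((n : ℂ) + b) / ((n : ℂ) + 1)))
  · intro n
    have h4 : (n : ℂ) + 1 ≠ 0 := by exact_mod_cast Nat.succ_ne_zero n
    have := gm_succ b n
    field_simp
    linear_combination this
  · exact tendsto_ratio b 1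

/-- crude bound -/
theorem norm_bc_le (α : ℂ) (j : ℕ) : ‖bc α j‖ ≤ (‖α‖ + 1) ^ j := by
  induction j with
  | zero => simp [bc_zero]
  | succ j ih =>
    have h := congrArg norm (bc_succ α j)
    rw [norm_mul, norm_mul] at h
    have e : ‖(j : ℂ) + 1‖ = (j : ℝ) + 1 := by
      have : (j : ℂ) + 1 = ((j + 1 : ℕ) : ℂ) := by push_cast; ring
      rw [this, Complex.norm_natCast]; push_cast; ring
    rw [e] at h
    have h2 : ‖α - j‖ ≤ (‖α‖ + 1) * ((j : ℝ) + 1) := by
      have := norm_sub_le α (j : ℂ)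
      rw [Complex.norm_natCast] at this
      have h0 := norm_nonneg α
      have hj : (0 : ℝ) ≤ j := Nat.cast_nonneg j
      nlinarith
    have hj : (0 : ℝ) < (j : ℝ) + 1 := by positivity
    have h3 : ‖bc α (j + 1)‖ * ((j : ℝ) + 1) ≤ ((‖α‖ + 1) ^ (j + 1)) * ((j : ℝ) + 1) := by
      rw [h, pow_succ]
      calc ‖bc α j‖ * ‖α - j‖ ≤ (‖α‖ + 1) ^ j * ((‖α‖ + 1) * ((j : ℝ) + 1)) := by
            gcongr
        _ = _ := by ring
    exact le_of_mul_le_mul_right h3 hj

/-- bound of `gm` by natural binomial coefficients -/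
theorem norm_gm_le_choose {b : ℂ} {B : ℕ} (hB : ‖b‖ ≤ B + 1) (m : ℕ) :
    ‖gm b m‖ ≤ ((m + B).choose B : ℝ) := by
  induction m with
  | zero => simp [gm_zero]
  | succ m ih =>
    have h := congrArg norm (gm_succ b m)
    rw [norm_mul, norm_mul] at h
    have e : ‖(m : ℂ) + 1‖ = (m : ℝ) + 1 := by
      have : (m : ℂ) + 1 = ((m + 1 : ℕ) : ℂ) := by push_cast; ring
      rw [this, Complex.norm_natCast]; push_cast; ring
    rw [e] at h
    have h2 : ‖b + m‖ ≤ (B : ℝ) + 1 + m := by
      have := norm_add_le b (m : ℂ)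
      rw [Complex.norm_natCast] at this
      linarith
    have h3 : ((m + 1 + B).choose B : ℝ) * ((m : ℝ) + 1) = ((m + B).choose B : ℝ) * ((B : ℝ) + 1 + m) := by
      have h4 := Nat.choose_mul_succ_eq (m + B) B
      have h5 : m + B + 1 - B = m + 1 := by omega
      rw [h5] at h4
      have h6 : m + 1 + B = m + B + 1 := by ring
      rw [h6]
      have h7 : (((m + B).choose B * (m + B + 1) : ℕ) : ℝ) = (((m + B + 1).choose B * (m + 1) : ℕ) : ℝ) := by
        exact_mod_cast h4
      push_cast at h7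
      linarith
    have hj : (0 : ℝ) < (m : ℝ) + 1 := by positivity
    refine le_of_mul_le_mul_right ?_ hj
    rw [h, h3]
    gcongr

theorem choose_mul_pow_le (m B : ℕ) {ρ : ℝ} (h0 : 0 ≤ ρ) (h1 : ρ < 1) :
    ((m + B).choose B : ℝ) * ρ ^ m ≤ 1 / (1 - ρ) ^ (B + 1) := by
  have hs := hasSum_choose_mul_geometric_of_norm_lt_one (𝕜 := ℝ) B (r := ρ)
    (by rwa [Real.norm_of_nonneg h0])
  exact le_hasSum hs m (fun j _ => by positivity)

end Pool.Agent.H978R3
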