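import Pool.Agent.H978R3.NonExcD

/-!
Exceptional case `β - α = -N`: preliminary bounds.
-/

open Metric Filter Topology Finset ComplexConjugate Polynomial

namespace Pool.Agent.H978R3

theorem multiset_bound {z : ℂ} (hz : ‖z‖ < 1) (s : Multiset ℂ) :
    (∀ r ∈ s, 1 ≤ ‖r‖) →
      (1 - ‖z‖) ^ (Multiset.card s) * (s.map (fun r => ‖r‖)).prod ≤ (s.map (fun r => ‖z - r‖)).prod ∧
      (s.map (fun r => ‖z - r‖)).prod ≤ 2 ^ (Multiset.card s) * (s.map (fun r => ‖r‖)).prod ∧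
      0 < (s.map (fun r => ‖r‖)).prod := by
  induction s using Multiset.induction with
  | empty => intro _; simp
  | cons r s ih =>
    intro h
    obtain ⟨h1, h2, h3⟩ := ih (fun r hr => h r (Multiset.mem_cons_of_mem hr))
    have hr := h r (Multiset.mem_cons_self r s)
    simp only [Multiset.map_cons, Multiset.prod_cons, Multiset.card_cons]
    have hz0 := norm_nonneg z
    have e1 : (1 - ‖z‖) * ‖r‖ ≤ ‖z - r‖ := by
      have := norm_sub_norm_le r z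
      rw [norm_sub_rev] at this
      nlinarith
    have e2 : ‖z - r‖ ≤ 2 * ‖r‖ := by
      have := norm_sub_le z r
      nlinarith
    have h4 : 0 ≤ (1 - ‖z‖) ^ (Multiset.card s) := pow_nonneg (by linarith) _
    have h5 : 0 ≤ (s.map (fun r => ‖z - r‖)).prod :=
      (mul_nonneg h4 h3.le).trans h1
    refine ⟨?_, ?_, by positivity⟩
    · calc (1 - ‖z‖) ^ (Multiset.card s + 1) * (‖r‖ * (s.map (fun r => ‖r‖)).prod)
          = ((1 - ‖z‖) * ‖r‖) * ((1 - ‖z‖) ^ (Multiset.card s) * (s.map (fun r => ‖r‖)).prod) := by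
            rw [pow_succ]; ring
        _ ≤ ‖z - r‖ * (s.map (fun r => ‖z - r‖)).prod := by
            apply mul_le_mul e1 h1 (mul_nonneg h4 h3.le) (norm_nonneg _)
    · calc ‖z - r‖ * (s.map (fun r => ‖z - r‖)).prod
          ≤ (2 * ‖r‖) * (2 ^ (Multiset.card s) * (s.map (fun r => ‖r‖)).prod) := by
            apply mul_le_mul e2 h2 h5 (by positivity)
        _ = _ := by rw [pow_succ]; ring

theorem norm_multiset_prod (s : Multiset ℂ) (f : ℂ → ℂ) :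
    ‖(s.map f).prod‖ = (s.map (fun r => ‖f r‖)).prod := by
  induction s using Multiset.induction with
  | empty => simp
  | cons r s ih => simp [ih]

theorem poly_bound {P : ℂ[X]} {N : ℕ} (hdeg : P.natDegree ≤ N) (h0 : P.eval 0 = 1)
    (hne : ∀ z : ℂ, ‖z‖ < 1 → P.eval z ≠ 0) {z : ℂ} (hz : ‖z‖ < 1) :
    (1 - ‖z‖) ^ N ≤ ‖P.eval z‖ ∧ ‖P.eval z‖ ≤ 2 ^ N := by
  have hs : P.Splits := IsAlgClosed.splits P
  have hP0 : P ≠ 0 := by rintro rfl; simp at h0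
  have hroots : ∀ r ∈ P.roots, 1 ≤ ‖r‖ := by
    intro r hr
    by_contra hc
    push Not at hc
    exact hne r hc ((Polynomial.mem_roots hP0).1 hr)
  obtain ⟨h1, h2, h3⟩ := multiset_bound hz P.roots hroots
  have hn : ∀ w : ℂ, ‖P.eval w‖ = ‖P.leadingCoeff‖ * (P.roots.map (fun r => ‖w - r‖)).prod := by
    intro w
    conv_lhs => rw [hs.eval_eq_prod_roots w, norm_mul]
    congr 1
    exact norm_multiset_prod _ _
  have h4 : ‖P.leadingCoeff‖ * (P.roots.map (fun r => ‖r‖)).prod = 1 := by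
    have := hn 0
    rw [h0, norm_one] at this
    simp only [zero_sub, norm_neg] at this
    exact this.symm
  have hcard : Multiset.card P.roots ≤ N := (Polynomial.card_roots' P).trans hdeg
  have hz0 := norm_nonneg z
  have h5 : (1 - ‖z‖) ^ N ≤ (1 - ‖z‖) ^ (Multiset.card P.roots) :=
    pow_le_pow_of_le_one (by linarith) (by linarith) hcard
  have h6 : (2 : ℝ) ^ (Multiset.card P.roots) ≤ 2 ^ N := pow_le_pow_right₀ (by norm_num) hcard
  have hl : 0 ≤ ‖P.leadingCoeff‖ := norm_nonneg _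
  rw [hn z]
  constructor
  · refine h5.trans ?_
    calc (1 - ‖z‖) ^ (Multiset.card P.roots)
        = ‖P.leadingCoeff‖ * ((1 - ‖z‖) ^ (Multiset.card P.roots) * (P.roots.map (fun r => ‖r‖)).prod) := by
          linear_combination (-(1 - ‖z‖) ^ (Multiset.card P.roots)) * h4
      _ ≤ _ := mul_le_mul_of_nonneg_left h1 hl
  · refine le_trans ?_ h6
    calc ‖P.leadingCoeff‖ * (P.roots.map (fun r => ‖z - r‖)).prod
        ≤ ‖P.leadingCoeff‖ * (2 ^ (Multiset.card P.roots) * (P.roots.map (fun r => ‖r‖)).prod) :=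
          mul_le_mul_of_nonneg_left h2 hl
      _ = _ := by linear_combination (2 ^ (Multiset.card P.roots)) * h4

theorem gm_neg_eq_zero {N m : ℕ} (h : N < m) : gm (-(N : ℂ)) m = 0 := by
  induction m with
  | zero => omega
  | succ m ih =>
    have h1 := gm_succ (-(N : ℂ)) m
    have h4 : (m : ℂ) + 1 ≠ 0 := by exact_mod_cast Nat.succ_ne_zero m
    rcases Nat.lt_succ_iff_lt_or_eq.1 h with h2 | h2
    · rw [ih h2, zero_mul] at h1
      exact (mul_eq_zero.1 h1).resolve_right h4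
    · rw [← h2] at h1 ⊢
      rw [neg_add_cancel, mul_zero] at h1
      rw [← h2] at h4
      exact (mul_eq_zero.1 h1).resolve_right h4

theorem gm_neg_ne_zero {N m : ℕ} (h : m ≤ N) : gm (-(N : ℂ)) m ≠ 0 := by
  induction m with
  | zero => simp [gm_zero]
  | succ m ih =>
    intro h0
    have h1 := gm_succ (-(N : ℂ)) m
    rw [h0, zero_mul] at h1
    have h2 : (-(N : ℂ)) + m ≠ 0 := by
      intro h3
      have : (m : ℂ) = N := by linear_combination h3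
      have : m = N := by exact_mod_cast this
      omega
    exact (mul_ne_zero (ih (by omega)) h2) h1.symm

theorem gm_one (m : ℕ) : gm 1 m = 1 := by
  induction m with
  | zero => simp [gm_zero]
  | succ m ih =>
    have h1 := gm_succ 1 m
    have h4 : (m : ℂ) + 1 ≠ 0 := by exact_mod_cast Nat.succ_ne_zero m
    rw [ih] at h1
    apply mul_right_cancel₀ h4
    rw [h1]; ring

theorem poch_one (i : ℕ) : poch 1 i = i.factorial := by
  induction i with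
  | zero => simp [poch_zero]
  | succ i ih => rw [poch_succ, ih, Nat.factorial_succ]; push_cast; ring

/-- Polynomial form of `h` in the exceptional case. -/
theorem h_poly {a : ℕ → ℂ} {N : ℕ} (z : ℂ) :
    S (K a (-(N : ℂ)) 0) z = (∑ n ∈ range (N + 1), C (K a (-(N : ℂ)) 0 n) * X ^ n : ℂ[X]).eval z := by
  rw [Polynomial.eval_finset_sum]
  simp only [Polynomial.eval_mul, Polynomial.eval_C, Polynomial.eval_pow, Polynomial.eval_X]
  unfold S
  apply tsum_eq_sum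
  intro n hn
  have hn' : N < n := by simpa [Nat.lt_succ_iff] using hn
  simp only [K, Nat.cast_zero, add_zero]
  rw [gm_neg_eq_zero hn']; ring

/-- bounds for `h` and the low coefficients -/
theorem low_bounds (N : ℕ) : ∃ Ca : ℝ, 0 < Ca ∧ ∀ a : ℕ → ℂ, GC a → a 0 = 1 →
    (∀ z, ‖z‖ < 1 → S (K a (-(N : ℂ)) 0) z ≠ 0) →
    (∀ n ≤ N, ‖a n‖ ≤ Ca) ∧
    ∀ z, ‖z‖ < 1 → (1 - ‖z‖) ^ N ≤ ‖S (K a (-(N : ℂ)) 0) z‖ ∧
      ‖S (K a (-(N : ℂ)) 0) z‖ ≤ 2 ^ N := by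
  refine ⟨1 + ∑ n ∈ range (N + 1), 2 ^ N * 2 ^ n / ‖gm (-(N : ℂ)) n‖, ?_, ?_⟩
  · have : 0 ≤ ∑ n ∈ range (N + 1), (2 : ℝ) ^ N * 2 ^ n / ‖gm (-(N : ℂ)) n‖ :=
      Finset.sum_nonneg (fun _ _ => by positivity)
    linarith
  intro a ha ha0 hne
  have hP := h_poly (a := a) (N := N)
  have hb : ∀ z, ‖z‖ < 1 → (1 - ‖z‖) ^ N ≤ ‖S (K a (-(N : ℂ)) 0) z‖ ∧
      ‖S (K a (-(N : ℂ)) 0) z‖ ≤ 2 ^ N := by
    intro z hz
    rw [hP z]
    apply poly_bound _ _ _ hz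
    · apply Polynomial.natDegree_sum_le_of_forall_le
      intro i hi
      have hi' : i ≤ N := by simpa [Nat.lt_succ_iff] using hi
      exact (Polynomial.natDegree_C_mul_X_pow_le _ _).trans hi'
    · rw [← hP 0, S_K_zero, ha0]
    · intro w hw
      rw [← hP w]; exact hne w hw
  refine ⟨?_, hb⟩
  intro n hn
  have h1 := coeff_bound (ha.K (-(N : ℂ)) 0) (ρ := 1 / 2) (M := 2 ^ N) (by norm_num) (by norm_num)
    (fun z hz => (hb z (by linarith)).2) n
  have e : K a (-(N : ℂ)) 0 n = a n * gm (-(N : ℂ)) n := by simp [K]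
  rw [e, norm_mul] at h1
  have hg : 0 < ‖gm (-(N : ℂ)) n‖ := norm_pos_iff.2 (gm_neg_ne_zero hn)
  have h2 : ‖a n‖ ≤ 2 ^ N * 2 ^ n / ‖gm (-(N : ℂ)) n‖ := by
    rw [le_div_iff₀ hg]
    have h3 : (0 : ℝ) < 2 ^ n := by positivity
    have h4 : (1 / 2 : ℝ) ^ n * 2 ^ n = 1 := by rw [← mul_pow]; norm_num
    calc ‖a n‖ * ‖gm (-(N : ℂ)) n‖ = (‖a n‖ * ‖gm (-(N : ℂ)) n‖ * (1 / 2) ^ n) * 2 ^ n := by
          rw [mul_assoc _ ((1 / 2 : ℝ) ^ n), h4, mul_one]
      _ ≤ 2 ^ N * 2 ^ n := by gcongr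
  have h5 : (2 : ℝ) ^ N * 2 ^ n / ‖gm (-(N : ℂ)) n‖ ≤
      ∑ n ∈ range (N + 1), 2 ^ N * 2 ^ n / ‖gm (-(N : ℂ)) n‖ :=
    Finset.single_le_sum (f := fun n => (2 : ℝ) ^ N * 2 ^ n / ‖gm (-(N : ℂ)) n‖)
      (fun _ _ => by positivity) (by simpa [Nat.lt_succ_iff] using hn)
  linarith

/-- bounds for `k_j`, `j ≤ N` -/
theorem kj_bound (N : ℕ) {Ca : ℝ} (hCa : 0 < Ca) : ∃ C₅ : ℝ, 0 < C₅ ∧ ∀ a : ℕ → ℂ,
    (∀ n ≤ N, ‖a n‖ ≤ Ca) → ∀ j ≤ N, ∀ z : ℂ, ‖z‖ < 1 → ‖S (K a (-(N : ℂ)) j) z‖ ≤ C₅ := by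
  refine ⟨1 + ∑ j ∈ range (N + 1), ∑ m ∈ range (N + 1), Ca * ‖gm (-(N : ℂ) + j) m‖, ?_, ?_⟩
  · have : 0 ≤ ∑ j ∈ range (N + 1), ∑ m ∈ range (N + 1), Ca * ‖gm (-(N : ℂ) + j) m‖ :=
      Finset.sum_nonneg (fun _ _ => Finset.sum_nonneg (fun _ _ => by positivity))
    linarith
  intro a ha j hj z hz
  have e : S (K a (-(N : ℂ)) j) z = ∑ m ∈ range (N + 1), K a (-(N : ℂ)) j m * z ^ m := by
    unfold S
    apply tsum_eq_sum
    intro m hm
    have hm' : N < m := by simpa [Nat.lt_succ_iff] using hm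
    simp only [K]
    have : gm (-(N : ℂ) + j) m = 0 := by
      have e1 : -(N : ℂ) + j = -((N - j : ℕ) : ℂ) := by push_cast [hj]; ring
      rw [e1]; exact gm_neg_eq_zero (by omega)
    rw [this]; ring
  have h1 : ‖S (K a (-(N : ℂ)) j) z‖ ≤ ∑ m ∈ range (N + 1), Ca * ‖gm (-(N : ℂ) + j) m‖ := by
    rw [e]
    refine (norm_sum_le _ _).trans (Finset.sum_le_sum (fun m hm => ?_))
    rw [norm_mul, norm_pow]
    have hz1 : ‖z‖ ^ m ≤ 1 := pow_le_one₀ (norm_nonneg _) hz.le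
    simp only [K, norm_mul]
    by_cases hmj : m + j ≤ N
    · have := ha _ hmj
      calc ‖a (m + j)‖ * ‖gm (-(N : ℂ) + j) m‖ * ‖z‖ ^ m ≤ Ca * ‖gm (-(N : ℂ) + j) m‖ * 1 := by gcongr
        _ = _ := mul_one _
    · have : gm (-(N : ℂ) + j) m = 0 := by
        have e1 : -(N : ℂ) + j = -((N - j : ℕ) : ℂ) := by push_cast [hj]; ring
        rw [e1]; exact gm_neg_eq_zero (by omega)
      rw [this]; simp
  have h2 : ∑ m ∈ range (N + 1), Ca * ‖gm (-(N : ℂ) + j) m‖ ≤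
      ∑ j ∈ range (N + 1), ∑ m ∈ range (N + 1), Ca * ‖gm (-(N : ℂ) + j) m‖ :=
    Finset.single_le_sum (f := fun j : ℕ => ∑ m ∈ range (N + 1), Ca * ‖gm (-(N : ℂ) + j) m‖)
      (fun _ _ => Finset.sum_nonneg (fun _ _ => by positivity)) (by simpa [Nat.lt_succ_iff] using hj)
  linarith

end Pool.Agent.H978R3
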