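import Pool.Agent.H978R3.ExcA

/-!
Exceptional case `β - α = -N`: term bounds and roots.
-/

open Metric Filter Topology Finset ComplexConjugate

namespace Pool.Agent.H978R3

theorem root_exists (N : ℕ) {Q : ℂ} (hre : 0 < Q.re) :
    ∃ y : ℂ, y ^ (N + 1) * Q = 1 ∧ ‖y‖ * (Q.re / ‖Q‖) ≤ y.re ∧
      ‖y‖ = ‖Q‖ ^ (-(1 / ((N : ℝ) + 1))) := by
  have hQ0 : Q ≠ 0 := by rintro rfl; simp at hre
  have hQn : 0 < ‖Q‖ := norm_pos_iff.2 hQ0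
  set θ : ℝ := Complex.arg Q with hθ
  have hN : (0 : ℝ) < (N : ℝ) + 1 := by positivity
  set ρ : ℝ := ‖Q‖ ^ (-(1 / ((N : ℝ) + 1))) with hρ
  have hρ0 : 0 < ρ := by positivity
  have hρN : ρ ^ (N + 1) * ‖Q‖ = 1 := by
    rw [hρ, ← Real.rpow_natCast, ← Real.rpow_mul hQn.le]
    push_cast
    rw [show -(1 / ((N : ℝ) + 1)) * ((N : ℝ) + 1) = -1 by field_simp, Real.rpow_neg_one]
    field_simp
  set y : ℂ := (ρ : ℂ) * Complex.exp (((-(θ / ((N : ℝ) + 1)) : ℝ) : ℂ) * Complex.I) with hy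
  have hyn : ‖y‖ = ρ := by
    rw [hy, norm_mul, Complex.norm_exp_ofReal_mul_I, mul_one, Complex.norm_real,
      Real.norm_of_nonneg hρ0.le]
  have hyre : y.re = ρ * Real.cos (θ / ((N : ℝ) + 1)) := by
    rw [hy, Complex.re_ofReal_mul, Complex.exp_ofReal_mul_I_re, Real.cos_neg]
  refine ⟨y, ?_, ?_, hyn⟩
  · have hQe : Q = (‖Q‖ : ℂ) * Complex.exp ((θ : ℂ) * Complex.I) :=
      (Complex.norm_mul_exp_arg_mul_I Q).symm
    have e1 : y ^ (N + 1) = ((ρ ^ (N + 1) : ℝ) : ℂ) * Complex.exp (-((θ : ℂ) * Complex.I)) := by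
      rw [hy, mul_pow, ← Complex.exp_nat_mul]
      push_cast
      congr 2
      have : ((N : ℂ) + 1) ≠ 0 := by exact_mod_cast Nat.succ_ne_zero N
      field_simp
    rw [e1]
    conv_lhs => rw [hQe]
    have e2 : Complex.exp (-((θ : ℂ) * Complex.I)) * Complex.exp ((θ : ℂ) * Complex.I) = 1 := by
      rw [← Complex.exp_add]; simp
    have e3 : ((ρ ^ (N + 1) : ℝ) : ℂ) * (‖Q‖ : ℂ) = 1 := by
      rw [← Complex.ofReal_mul, hρN]; simp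
    linear_combination (Complex.exp (-((θ : ℂ) * Complex.I)) * Complex.exp ((θ : ℂ) * Complex.I)) * e3 + e2
  · rw [hyn, hyre]
    have hcos : Q.re / ‖Q‖ = Real.cos θ := by rw [hθ, Complex.cos_arg hQ0]
    rw [hcos]
    apply mul_le_mul_of_nonneg_left _ hρ0.le
    rw [← Real.cos_abs θ, ← Real.cos_abs (θ / ((N : ℝ) + 1))]
    apply Real.cos_le_cos_of_nonneg_of_le_pi (abs_nonneg _)
    · rw [hθ]; exact Complex.abs_arg_le_pi Q
    · rw [abs_div, abs_of_pos hN]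
      apply div_le_self (abs_nonneg _)
      have : (0 : ℝ) ≤ N := Nat.cast_nonneg N
      linarith

/-- term bounds -/
theorem exc_term_bound {α : ℂ} {N : ℕ} {a : ℕ → ℂ} (ha : GC a) {z : ℂ} (hz1 : ‖z‖ < 1)
    {hmin C₅ C₆ δ Y : ℝ} {y₀ v Q : ℂ} (hhmin : 0 < hmin) (hC₅ : 0 < C₅) (hC₆ : 0 < C₆)
    (hδ0 : 0 < δ) (hδ1 : δ ≤ 1)
    (hh : hmin ≤ ‖S (K a (-(N : ℂ)) 0) z‖)
    (hkj : ∀ j ≤ N, ‖S (K a (-(N : ℂ)) j) z‖ ≤ C₅)
    (hball : ∀ w ∈ closedBall z (δ / 2), ‖w‖ < 1)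
    (hk : ∀ w ∈ sphere z (δ / 2), ‖S (K a (-(N : ℂ)) (N + 1)) w‖ ≤ C₆ * ‖Q‖)
    (hy₀ : y₀ ^ (N + 1) * Q = 1) (hY : ‖y₀‖ ≤ Y)
    (hQ : Q = -(bc α (N + 1) * z ^ (N + 1) * S (K a (-(N : ℂ)) (N + 1)) z /
      S (K a (-(N : ℂ)) 0) z))
    (hv : ‖v‖ ≤ 2) (hY1 : 2 * Y ≤ 1) (hY2 : 8 * (‖α‖ + 1) * Y ≤ δ) (j : ℕ) :
    ‖bc α j * (y₀ * v * z) ^ j * S (K a (-(N : ℂ)) j) z / S (K a (-(N : ℂ)) 0) z
      - ((if j = 0 then 1 else 0) + (if j = N + 1 then -v ^ (N + 1) else 0))‖ ≤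
      ((‖α‖ + 1) ^ N * 2 * C₅ / hmin * 2 ^ N +
        (‖α‖ + 1) ^ (N + 1) * 2 ^ (N + 1) * C₆ / hmin * (4 * (‖α‖ + 1)) * 2 ^ (N + 2)) *
        (Y / δ) * (1 / 2 : ℝ) ^ j := by
  set h := S (K a (-(N : ℂ)) 0) z with hhdef
  set A := ‖α‖ + 1 with hA
  have hA1 : 1 ≤ A := by rw [hA]; linarith [norm_nonneg α]
  have hA0 : 0 < A := by linarith
  have hY0 : 0 ≤ Y := (norm_nonneg _).trans hY
  have hhn : 0 < ‖h‖ := hhmin.trans_le hh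
  have hh0 : h ≠ 0 := norm_pos_iff.1 hhn
  have hQ0 : Q ≠ 0 := by rintro rfl; simp at hy₀
  set CI := A ^ N * 2 * C₅ / hmin * 2 ^ N with hCI
  set CII := A ^ (N + 1) * 2 ^ (N + 1) * C₆ / hmin * (4 * A) * 2 ^ (N + 2) with hCII
  have hCI0 : 0 ≤ CI := by positivity
  have hCII0 : 0 ≤ CII := by positivity
  have hYδ : 0 ≤ Y / δ := by positivity
  have hyv : ‖y₀ * v‖ ≤ 2 * Y := by
    rw [norm_mul]; nlinarith [norm_nonneg y₀, norm_nonneg v]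
  have hzz : ‖z‖ ≤ 1 := hz1.le
  rcases Nat.eq_zero_or_pos j with hj0 | hjpos
  · subst hj0
    have : bc α 0 * (y₀ * v * z) ^ 0 * S (K a (-(N : ℂ)) 0) z / h
      - ((if (0 : ℕ) = 0 then 1 else 0) + (if (0 : ℕ) = N + 1 then -v ^ (N + 1) else 0)) = 0 := by
      rw [bc_zero]
      simp [← hhdef, hh0]
    rw [this, norm_zero]
    positivity
  rcases Nat.lt_or_ge N j with hjN | hjN
  swap
  · -- 1 ≤ j ≤ N
    have e1 : j ≠ 0 := by omega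
    have e2 : j ≠ N + 1 := by omega
    rw [if_neg e1, if_neg e2, add_zero, sub_zero, norm_div, norm_mul, norm_mul, norm_pow, norm_mul]
    have h1 : (‖y₀ * v‖ * ‖z‖) ^ j ≤ 2 * Y := by
      have h2 : ‖y₀ * v‖ * ‖z‖ ≤ 2 * Y := by nlinarith [norm_nonneg z, norm_nonneg (y₀ * v)]
      calc (‖y₀ * v‖ * ‖z‖) ^ j ≤ (2 * Y) ^ j := by gcongr
        _ ≤ (2 * Y) ^ 1 := pow_le_pow_of_le_one (by positivity) hY1 hjpos
        _ = 2 * Y := pow_one _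
    have h3 : ‖bc α j‖ ≤ A ^ N := (norm_bc_le α j).trans (pow_le_pow_right₀ hA1 hjN)
    have h4 : Y ≤ Y / δ := by rw [le_div_iff₀ hδ0]; nlinarith
    have h5 : (1 : ℝ) ≤ 2 ^ N * (1 / 2) ^ j := by
      have : (2 : ℝ) ^ N * (1 / 2) ^ j = 2 ^ (N - j) := by
        have e : (2 : ℝ) ^ N = 2 ^ (N - j) * 2 ^ j := by rw [← pow_add, Nat.sub_add_cancel hjN]
        rw [e, mul_assoc, ← mul_pow]; norm_num
      rw [this]; exact one_le_pow₀ (by norm_num)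
    calc ‖bc α j‖ * (‖y₀ * v‖ * ‖z‖) ^ j * ‖S (K a (-(N : ℂ)) j) z‖ / ‖h‖
        ≤ A ^ N * (2 * Y) * C₅ / hmin := by
          have := hkj j hjN
          gcongr
      _ = (A ^ N * 2 * C₅ / hmin) * Y * 1 := by ring
      _ ≤ (A ^ N * 2 * C₅ / hmin) * (Y / δ) * (2 ^ N * (1 / 2) ^ j) := by gcongr
      _ = CI * (Y / δ) * (1 / 2) ^ j := by rw [hCI]; ring
      _ ≤ (CI + CII) * (Y / δ) * (1 / 2) ^ j := by gcongr; linarith
  rcases Nat.lt_or_ge (N + 1) j with hjN2 | hjN2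
  swap
  · -- j = N + 1
    have e : j = N + 1 := by omega
    subst e
    have : bc α (N + 1) * (y₀ * v * z) ^ (N + 1) * S (K a (-(N : ℂ)) (N + 1)) z / h
      - ((if N + 1 = 0 then 1 else 0) + (if N + 1 = N + 1 then -v ^ (N + 1) else 0)) = 0 := by
      rw [if_neg (by omega), if_pos rfl, mul_pow, mul_pow, zero_add]
      have h2 : bc α (N + 1) * z ^ (N + 1) * S (K a (-(N : ℂ)) (N + 1)) z / h = -Q := by
        rw [hQ, neg_neg]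
      linear_combination (y₀ ^ (N + 1) * v ^ (N + 1)) * h2 - v ^ (N + 1) * hy₀
    rw [this, norm_zero]
    positivity
  · -- j ≥ N + 2
    obtain ⟨i, hi, rfl⟩ : ∃ i, 1 ≤ i ∧ j = N + 1 + i := ⟨j - (N + 1), by omega, by omega⟩
    have e1 : N + 1 + i ≠ 0 := by omega
    have e2 : N + 1 + i ≠ N + 1 := by omega
    rw [if_neg e1, if_neg e2, add_zero, sub_zero, norm_div, norm_mul, norm_mul, norm_pow, norm_mul]
    have hit := iteratedDeriv_K ha (-(N : ℂ)) (N + 1) i hz1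
    have e3 : -(N : ℂ) + ((N + 1 : ℕ) : ℂ) = 1 := by push_cast; ring
    rw [e3, poch_one] at hit
    have hcd : ‖iteratedDeriv i (S (K a (-(N : ℂ)) (N + 1))) z‖ ≤
        i.factorial * (C₆ * ‖Q‖) / (δ / 2) ^ i := by
      apply Complex.norm_iteratedDeriv_le_of_forall_mem_sphere_norm_le i (by positivity) _ hk
      apply DifferentiableOn.diffContOnCl
      rw [closure_ball _ (by positivity)]
      refine (ha.K _ _).differentiableOn.mono (fun w hw => ?_)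
      simpa using hball w hw
    rw [hit, norm_mul, Complex.norm_natCast] at hcd
    have hf : (0 : ℝ) < i.factorial := by exact_mod_cast i.factorial_pos
    have hk2 : ‖S (K a (-(N : ℂ)) (N + 1 + i)) z‖ ≤ C₆ * ‖Q‖ / (δ / 2) ^ i := by
      rw [mul_div_assoc] at hcd
      exact le_of_mul_le_mul_left hcd hf
    have h3 : ‖bc α (N + 1 + i)‖ ≤ A ^ (N + 1 + i) := norm_bc_le α _
    have h6 : ‖y₀ * v‖ ≤ 2 * ‖y₀‖ := by rw [norm_mul]; nlinarith [norm_nonneg y₀, norm_nonneg v]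
    have h7 : (‖y₀ * v‖ * ‖z‖) ^ (N + 1 + i) ≤ 2 ^ (N + 1) * ‖y₀‖ ^ (N + 1) * (2 * Y) ^ i := by
      have h8 : ‖y₀ * v‖ * ‖z‖ ≤ 2 * ‖y₀‖ := by nlinarith [norm_nonneg z, norm_nonneg (y₀ * v)]
      have h9 : ‖y₀ * v‖ * ‖z‖ ≤ 2 * Y := by nlinarith [norm_nonneg z, norm_nonneg (y₀ * v)]
      rw [pow_add]
      calc (‖y₀ * v‖ * ‖z‖) ^ (N + 1) * (‖y₀ * v‖ * ‖z‖) ^ i ≤ (2 * ‖y₀‖) ^ (N + 1) * (2 * Y) ^ i := by
            gcongr
        _ = _ := by rw [mul_pow]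
    have h10 : ‖y₀‖ ^ (N + 1) * ‖Q‖ = 1 := by rw [← norm_pow, ← norm_mul, hy₀, norm_one]
    have h11 : (4 * A * Y / δ) ^ i ≤ (4 * A * Y / δ) * (2 ^ (N + 2) * (1 / 2) ^ (N + 1 + i)) := by
      obtain ⟨i', rfl⟩ : ∃ i', i = i' + 1 := ⟨i - 1, by omega⟩
      have h12 : 4 * A * Y / δ ≤ 1 / 2 := by rw [div_le_iff₀ hδ0]; linarith
      have h13 : (2 : ℝ) ^ (N + 2) * (1 / 2) ^ (N + 1 + (i' + 1)) = (1 / 2) ^ i' := by
        have : N + 1 + (i' + 1) = (N + 2) + i' := by ring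
        rw [this, pow_add (1 / 2 : ℝ), ← mul_assoc, ← mul_pow]; norm_num
      rw [h13, pow_succ']
      gcongr
    calc ‖bc α (N + 1 + i)‖ * (‖y₀ * v‖ * ‖z‖) ^ (N + 1 + i) * ‖S (K a (-(N : ℂ)) (N + 1 + i)) z‖ / ‖h‖
        ≤ A ^ (N + 1 + i) * (2 ^ (N + 1) * ‖y₀‖ ^ (N + 1) * (2 * Y) ^ i) *
            (C₆ * ‖Q‖ / (δ / 2) ^ i) / hmin := by gcongr
      _ = A ^ (N + 1) * 2 ^ (N + 1) * C₆ / hmin * (‖y₀‖ ^ (N + 1) * ‖Q‖) * (4 * A * Y / δ) ^ i := by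
          rw [pow_add, div_pow, div_pow, mul_pow, mul_pow, mul_pow,
            show (4 : ℝ) ^ i = 2 ^ i * 2 ^ i by rw [← mul_pow]; norm_num]
          field_simp
      _ = A ^ (N + 1) * 2 ^ (N + 1) * C₆ / hmin * (4 * A * Y / δ) ^ i := by rw [h10, mul_one]
      _ ≤ A ^ (N + 1) * 2 ^ (N + 1) * C₆ / hmin *
            ((4 * A * Y / δ) * (2 ^ (N + 2) * (1 / 2) ^ (N + 1 + i))) := by gcongr
      _ = CII * (Y / δ) * (1 / 2) ^ (N + 1 + i) := by rw [hCII]; ring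
      _ ≤ (CI + CII) * (Y / δ) * (1 / 2) ^ (N + 1 + i) := by gcongr; linarith

end Pool.Agent.H978R3
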