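import Pool.Agent.H978R3.ExcB

/-!
Exceptional case `β - α = -N`: no good points of large size.
-/

open Metric Filter Topology Finset ComplexConjugate

namespace Pool.Agent.H978R3

theorem eventually_cond_exc (N : ℕ) {μ : ℕ} {c₀ η₀ y₁ r' A C : ℝ} (hc₀ : 0 < c₀) (hη₀ : 0 < η₀)
    (hy₁ : 0 < y₁) (hr' : 0 < r') :
    ∃ M₀ : ℝ, 1 ≤ M₀ ∧ ∀ m : ℝ, M₀ ≤ m →
      16 * m ^ (-(1 / ((N : ℝ) + 1))) ≤ m ^ (-(1 / (((N : ℝ) + 1) * ((μ : ℝ) + 2)))) ∧
      2 * m ^ (-(1 / ((N : ℝ) + 1))) < y₁ ∧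
      8 * A * m ^ (-(1 / ((N : ℝ) + 1))) ≤ m ^ (-(1 / (((N : ℝ) + 1) * ((μ : ℝ) + 2)))) ∧
      2 * C * (m ^ (-(1 / ((N : ℝ) + 1))) / m ^ (-(1 / (((N : ℝ) + 1) * ((μ : ℝ) + 2))))) <
        c₀ * (m ^ (-(1 / (((N : ℝ) + 1) * ((μ : ℝ) + 2)))) / 8) ^ μ / 2 ∧
      m ^ (-(1 / (((N : ℝ) + 1) * ((μ : ℝ) + 2)))) / 8 ≤ η₀ ∧
      m ^ (-(1 / (((N : ℝ) + 1) * ((μ : ℝ) + 2)))) ≤ r' ∧
      2 * m ^ (-(1 / ((N : ℝ) + 1))) ≤ 1 := by
  set σ : ℝ := 1 / ((N : ℝ) + 1) with hσ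
  set τ : ℝ := 1 / (((N : ℝ) + 1) * ((μ : ℝ) + 2)) with hτ
  have hμ : (0 : ℝ) ≤ μ := Nat.cast_nonneg μ
  have hσ0 : 0 < σ := by positivity
  have hτ0 : 0 < τ := by positivity
  have hτσ : τ * ((μ : ℝ) + 2) = σ := by rw [hτ, hσ]; field_simp
  have hlt : τ < σ := by nlinarith
  have hneg : -σ + τ + τ * μ < 0 := by nlinarith
  have t2 : Tendsto (fun m : ℝ => m ^ (-τ)) atTop (𝓝 0) := tendsto_rpow_neg_atTop hτ0
  have t1 : Tendsto (fun m : ℝ => m ^ (-σ)) atTop (𝓝 0) := tendsto_rpow_neg_atTop hσ0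
  have t3 : Tendsto (fun m : ℝ => m ^ (-σ + τ)) atTop (𝓝 0) := by
    have := tendsto_rpow_neg_atTop (y := -(-σ + τ)) (by linarith)
    simpa using this
  have t4 : Tendsto (fun m : ℝ => m ^ (-σ + τ + τ * μ)) atTop (𝓝 0) := by
    have := tendsto_rpow_neg_atTop (y := -(-σ + τ + τ * μ)) (by linarith)
    simpa using this
  have gen : ∀ B : ℝ, ∀ᶠ m : ℝ in atTop, B * m ^ (-σ) ≤ m ^ (-τ) := by
    intro B
    have h1 := t3.const_mul B
    rw [mul_zero] at h1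
    filter_upwards [h1.eventually_le_const (u := 1) one_pos, eventually_gt_atTop (0 : ℝ)] with m hm hm0
    have h2 : m ^ (-σ) = m ^ (-σ + τ) * m ^ (-τ) := by
      rw [← Real.rpow_add hm0]; congr 1; ring
    have h3 : 0 < m ^ (-τ) := by positivity
    rw [h2, ← mul_assoc]
    nlinarith
  have e2 : ∀ᶠ m : ℝ in atTop, 2 * m ^ (-σ) < y₁ := by
    have := t1.const_mul 2
    rw [mul_zero] at this
    exact this.eventually_lt_const hy₁
  have e5 : ∀ᶠ m : ℝ in atTop, m ^ (-τ) / 8 ≤ η₀ := by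
    have := t2.div_const 8
    rw [zero_div] at this
    exact this.eventually_le_const hη₀
  have e6 : ∀ᶠ m : ℝ in atTop, m ^ (-τ) ≤ r' := t2.eventually_le_const hr'
  have e7 : ∀ᶠ m : ℝ in atTop, 2 * m ^ (-σ) ≤ 1 := by
    have := t1.const_mul 2
    rw [mul_zero] at this
    exact this.eventually_le_const (by norm_num)
  have e4 : ∀ᶠ m : ℝ in atTop, 2 * C * (m ^ (-σ) / m ^ (-τ)) < c₀ * (m ^ (-τ) / 8) ^ μ / 2 := by
    have h1 := t4.const_mul (2 * C)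
    rw [mul_zero] at h1
    have h2 := h1.eventually_lt_const (u := c₀ * (1 / 8) ^ μ / 2) (by positivity)
    filter_upwards [h2, eventually_gt_atTop (0 : ℝ)] with m hm hm0
    have h3 : m ^ (-σ) / m ^ (-τ) = m ^ (-σ + τ) := by
      rw [← Real.rpow_sub hm0]; congr 1; ring
    have h3' : m ^ (-σ + τ + τ * μ) = m ^ (-σ + τ) * m ^ (τ * μ) := Real.rpow_add hm0 _ _
    have h4 : (m ^ (-τ)) ^ μ * m ^ (τ * μ) = 1 := by
      rw [← Real.rpow_natCast, ← Real.rpow_mul hm0.le, ← Real.rpow_add hm0]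
      rw [show -τ * μ + τ * μ = 0 by ring, Real.rpow_zero]
    have h5 : 0 < m ^ (τ * μ) := by positivity
    have h6 : (m ^ (-τ) / 8) ^ μ * m ^ (τ * μ) = (1 / 8) ^ μ := by
      rw [show m ^ (-τ) / 8 = (1 / 8) * m ^ (-τ) by ring, mul_pow, mul_assoc, h4, mul_one]
    rw [h3]
    rw [h3'] at hm
    refine lt_of_mul_lt_mul_right ?_ h5.le
    calc _ = 2 * C * (m ^ (-σ + τ) * m ^ (τ * μ)) := by ring
      _ < c₀ * (1 / 8) ^ μ / 2 := hm
      _ = c₀ * (m ^ (-τ) / 8) ^ μ / 2 * m ^ (τ * μ) := by rw [← h6]; ring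
  obtain ⟨M₀, hM₀⟩ := (eventually_atTop.1 ((gen 16).and (e2.and ((gen (8 * A)).and
    (e4.and (e5.and (e6.and e7)))))))
  refine ⟨max M₀ 1, le_max_right _ _, fun m hm => hM₀ m ((le_max_left _ _).trans hm)⟩

/-- the function whose good points are considered in the exceptional case -/
noncomputable def qe (α : ℂ) (N : ℕ) (a : ℕ → ℂ) (z : ℂ) : ℂ :=
  -(bc α (N + 1) * z ^ (N + 1) * S (K a (-(N : ℂ)) (N + 1)) z / S (K a (-(N : ℂ)) 0) z)

theorem geo_one {y : ℂ} (h : ‖y‖ ^ 2 ≤ 2 * y.re) : ‖y - 1‖ ≤ 1 := by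
  have := geo (s := y) (Q := 1) one_ne_zero (by simpa using h)
  simpa using this

/-- No good points of large size in the exceptional case. -/
theorem no_good_point_exc {α β : ℂ} {N : ℕ} (hN : β - α = -(N : ℂ)) (hbc : bc α (N + 1) ≠ 0)
    {r' r'' : ℝ} (hr' : 0 < r') (hr'' : r'' < 1) (hr0 : 0 ≤ r'') :
    ∃ (τ M₀ : ℝ), 0 < τ ∧ ∀ a : ℕ → ℂ, GC a → a 0 = 1 →
      (∀ x : ℂ, ‖x‖ ≤ 1 → ∀ z : ℂ, ‖z‖ < 1 → F α β a x z ≠ 0) →
      ¬ ∃ (z : ℂ) (m : ℝ), M₀ ≤ m ∧ 0 < m ∧ r' ≤ ‖z‖ ∧ ‖z‖ + m ^ (-τ) < r'' ∧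
        (qe α N a z).re = m ∧
        (∀ w ∈ ball z (m ^ (-τ)),
          ‖qe α N a w - qe α N a z‖ ≤ 2 * m * ‖w - z‖ / (m ^ (-τ) - ‖w - z‖)) ∧
        ‖qe α N a z‖ ≤ 4 * m / m ^ (-τ) := by
  obtain ⟨Ca, hCa, hlow⟩ := low_bounds N
  obtain ⟨C₅, hC₅, hkjb⟩ := kj_bound N hCa
  obtain ⟨y₁, hy₁, hex⟩ := expand α β hr0 hr''
  rw [hN] at hex
  -- order bound for v ↦ 1 - v^(N+1) at 1
  have hfan : AnalyticAt ℂ (fun v : ℂ => 1 - v ^ (N + 1)) 1 := by fun_prop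
  have hfne : ¬ ∀ᶠ v in 𝓝 (1 : ℂ), 1 - v ^ (N + 1) = 0 := by
    intro hev
    have han : AnalyticOnNhd ℂ (fun v : ℂ => 1 - v ^ (N + 1)) Set.univ := fun v _ => by fun_prop
    have := han.eqOn_zero_of_preconnected_of_eventuallyEq_zero isPreconnected_univ
      (Set.mem_univ 1) hev
    have h0 := this (Set.mem_univ 0)
    simp at h0
  obtain ⟨μ, c₀, η₀, hc₀, hη₀, hη₀1, horder⟩ := order_bound hfan hfne
  set A := ‖α‖ + 1 with hA
  set hmin : ℝ := (1 - r'') ^ N with hhmin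
  have hhmin0 : 0 < hmin := pow_pos (by linarith) _
  have hbc0 : 0 < ‖bc α (N + 1)‖ := norm_pos_iff.2 hbc
  set C₆ : ℝ := 3 * 2 ^ N / (‖bc α (N + 1)‖ * (r' / 2) ^ (N + 1)) with hC₆
  have hC₆0 : 0 < C₆ := by positivity
  set C : ℝ := A ^ N * 2 * C₅ / hmin * 2 ^ N +
        A ^ (N + 1) * 2 ^ (N + 1) * C₆ / hmin * (4 * A) * 2 ^ (N + 2) with hC
  obtain ⟨M₀, hM₀1, hM₀⟩ := eventually_cond_exc N (μ := μ) (A := A) (C := C) hc₀ hη₀ hy₁ hr'
  set τ : ℝ := 1 / (((N : ℝ) + 1) * ((μ : ℝ) + 2)) with hτ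
  have hτ0 : 0 < τ := by positivity
  refine ⟨τ, M₀, hτ0, ?_⟩
  rintro a ha ha0 hNV ⟨z, m, hm, hm0, hzr', hzr'', hre, hloc, hglob⟩
  obtain ⟨d1, d2, d3, d4, d5, d6, d7⟩ := hM₀ m hm
  have hm1 : 1 ≤ m := hM₀1.trans hm
  set δ : ℝ := m ^ (-τ) with hδ
  set Y : ℝ := m ^ (-(1 / ((N : ℝ) + 1))) with hY
  have hδ0 : 0 < δ := by positivity
  have hY0 : 0 < Y := by positivity
  have hδ1 : δ ≤ 1 := Real.rpow_le_one_of_one_le_of_nonpos hm1 (by linarith)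
  have hz1 : ‖z‖ < 1 := by linarith
  have hz0 : z ≠ 0 := norm_pos_iff.1 (hr'.trans_le hzr')
  set h := S (K a (-(N : ℂ)) 0) with hh
  have hhne : ∀ w, ‖w‖ < 1 → h w ≠ 0 := by
    intro w hw
    have := hNV (-1) (by simp) w hw
    rwa [F_neg_one ha α β hw, hN] at this
  obtain ⟨hac, hhb⟩ := hlow a ha ha0 hhne
  have hkj := hkjb a hac
  set Q : ℂ := qe α N a z with hQ
  have hmQ : m ≤ ‖Q‖ := by rw [← hre]; exact Complex.re_le_norm _
  have hQn0 : 0 < ‖Q‖ := hm0.trans_le hmQ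
  have hball : ∀ w ∈ closedBall z (δ / 2), ‖w‖ < 1 := by
    intro w hw
    have h1 : ‖w - z‖ ≤ δ / 2 := by simpa [dist_eq_norm] using hw
    have h2 := norm_add_le (w - z) z
    rw [sub_add_cancel] at h2
    linarith
  -- bound of k on the circle
  have hk : ∀ w ∈ sphere z (δ / 2), ‖S (K a (-(N : ℂ)) (N + 1)) w‖ ≤ C₆ * ‖Q‖ := by
    intro w hw
    have h1 : ‖w - z‖ = δ / 2 := by simpa [dist_eq_norm] using hw
    have hw1 := hball w (sphere_subset_closedBall hw)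
    have hwn : r' / 2 ≤ ‖w‖ := by
      have h2 := norm_sub_norm_le z w
      rw [norm_sub_rev, h1] at h2
      linarith
    have hw0 : w ≠ 0 := norm_pos_iff.1 (by linarith)
    have h3 := hloc w (by simp only [mem_ball, dist_eq_norm]; rw [h1]; linarith)
    rw [h1] at h3
    have h4 : 2 * m * (δ / 2) / (δ - δ / 2) = 2 * m := by field_simp; ring
    rw [h4] at h3
    have h5 : ‖qe α N a w‖ ≤ 3 * ‖Q‖ := by
      have := norm_sub_norm_le (qe α N a w) (qe α N a z)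
      linarith
    have h6 : qe α N a w * h w = -(bc α (N + 1) * w ^ (N + 1) * S (K a (-(N : ℂ)) (N + 1)) w) := by
      have := hhne w hw1
      rw [qe, ← hh]; field_simp
    have h7 := congrArg norm h6
    rw [norm_neg, norm_mul, norm_mul, norm_mul, norm_pow] at h7
    have h8 : ‖qe α N a w‖ * ‖h w‖ ≤ 3 * ‖Q‖ * 2 ^ N := by
      have := (hhb w hw1).2
      gcongr
    have h9 : (r' / 2) ^ (N + 1) ≤ ‖w‖ ^ (N + 1) := by gcongr
    have h10 : ‖bc α (N + 1)‖ * (r' / 2) ^ (N + 1) * ‖S (K a (-(N : ℂ)) (N + 1)) w‖ ≤ 3 * ‖Q‖ * 2 ^ N := by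
      refine le_trans ?_ h8
      rw [h7]
      gcongr
    rw [hC₆, div_mul_eq_mul_div, le_div_iff₀ (by positivity)]
    linarith
  obtain ⟨y₀, hy₀, hy₀re, hy₀n⟩ := root_exists N (Q := Q) (by rw [hre]; exact hm0)
  have hy₀Y : ‖y₀‖ ≤ Y := by
    rw [hy₀n, hY]
    exact Real.rpow_le_rpow_of_nonpos hm0 hmQ (by
      have : (0 : ℝ) < 1 / ((N : ℝ) + 1) := by positivity
      linarith)
  have hy₀0 : 0 < ‖y₀‖ := by rw [hy₀n]; positivity
  have hhz : hmin ≤ ‖h z‖ := by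
    refine le_trans ?_ (hhb z hz1).1
    rw [hhmin]
    have : 1 - r'' ≤ 1 - ‖z‖ := by linarith
    have h0 : 0 ≤ 1 - r'' := by linarith
    gcongr
  set η : ℝ := δ / 8 with hη
  have hη0 : 0 < η := by positivity
  have hv2 : ∀ v ∈ closedBall (1 : ℂ) η, ‖v‖ ≤ 2 := by
    intro v hv
    have h1 : ‖v - 1‖ ≤ η := by simpa [dist_eq_norm] using hv
    have h2 := norm_add_le (v - 1) 1
    rw [sub_add_cancel, norm_one] at h2
    linarith
  have hyv : ∀ v ∈ closedBall (1 : ℂ) η, ‖y₀ * v‖ ≤ 2 * Y := by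
    intro v hv
    rw [norm_mul]
    have := hv2 v hv
    nlinarith [norm_nonneg v]
  have hmain : ∀ v ∈ closedBall (1 : ℂ) η,
      ‖F α β a (y₀ * v - 1) z / h z - (1 - v ^ (N + 1))‖ ≤ 2 * C * (Y / δ) := by
    intro v hv
    have hsum := (hex a ha z (by linarith) (y₀ * v) ((hyv v hv).trans_lt d2)).div_const (h z)
    have hg : HasSum (fun j : ℕ => (if j = 0 then (1 : ℂ) else 0) +
        (if j = N + 1 then -v ^ (N + 1) else 0)) (1 + -v ^ (N + 1)) :=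
      (hasSum_ite_eq 0 1).add (hasSum_ite_eq (N + 1) (-v ^ (N + 1)))
    have hdiff := hsum.sub hg
    have hgeo : HasSum (fun j : ℕ => C * (Y / δ) * (1 / 2 : ℝ) ^ j) (C * (Y / δ) * 2) :=
      hasSum_geometric_two.mul_left _
    have h1 := hdiff.norm_le_of_bounded hgeo (fun j => by
      exact exc_term_bound ha hz1 hhmin0 hC₅ hC₆0 hδ0 hδ1 hhz (fun j hj => hkj j hj z hz1) hball hk
        hy₀ hy₀Y rfl (hv2 v hv) d7 d3 j)
    rw [← sub_eq_add_neg] at h1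
    refine h1.trans (le_of_eq (by ring))
  have hgeo : ∀ v ∈ closedBall (1 : ℂ) η, ‖y₀ * v - 1‖ ≤ 1 := by
    intro v hv
    have h1 : ‖v - 1‖ ≤ η := by simpa [dist_eq_norm] using hv
    apply geo_one
    have e1 : (y₀ * v).re = y₀.re + (y₀ * (v - 1)).re := by
      rw [← Complex.add_re]; congr 1; ring
    have e2 : -(‖y₀‖ * η) ≤ (y₀ * (v - 1)).re := by
      have h5 := Complex.abs_re_le_norm (y₀ * (v - 1))
      rw [norm_mul] at h5
      have h6 : ‖y₀‖ * ‖v - 1‖ ≤ ‖y₀‖ * η := by gcongr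
      have h7 := neg_abs_le (y₀ * (v - 1)).re
      linarith
    have e3 : δ / 4 ≤ Q.re / ‖Q‖ := by
      rw [hre, div_le_div_iff₀ (by norm_num) hQn0]
      rw [le_div_iff₀ hδ0] at hglob
      linarith
    have e4 : ‖y₀‖ * (δ / 4) ≤ y₀.re := by
      refine le_trans ?_ hy₀re
      gcongr
    have e5 : ‖y₀ * v‖ ≤ 2 * ‖y₀‖ := by
      rw [norm_mul]; have := hv2 v hv; nlinarith
    have e6 : ‖y₀ * v‖ ^ 2 ≤ (2 * ‖y₀‖) ^ 2 := by gcongr
    have e7 : 16 * ‖y₀‖ ≤ δ := by linarith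
    rw [e1]
    have e8 : ‖y₀‖ * η = ‖y₀‖ * δ / 8 := by rw [hη]; ring
    nlinarith
  have hs0 : 0 < c₀ * η ^ μ / 2 := by positivity
  obtain ⟨v, hv, hvz⟩ : ∃ v ∈ closedBall (1 : ℂ) η, F α β a (y₀ * v - 1) z / h z = 0 := by
    apply exists_zero_of_lt (E := fun v => F α β a (y₀ * v - 1) z / h z) hη0 _ hs0
    · intro v hv
      have h1 := hmain v (sphere_subset_closedBall hv)
      have h2 : ‖v - 1‖ = η := by simpa [dist_eq_norm] using hv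
      have h3 := horder v (by rw [h2]; exact d5)
      rw [h2] at h3
      have h4 := norm_sub_norm_le (1 - v ^ (N + 1)) (F α β a (y₀ * v - 1) z / h z)
      rw [norm_sub_rev (1 - v ^ (N + 1)) (F α β a (y₀ * v - 1) z / h z)] at h4
      show c₀ * η ^ μ / 2 ≤ ‖F α β a (y₀ * v - 1) z / h z‖
      linarith
    · have h1 := hmain 1 (mem_closedBall_self hη0.le)
      rw [one_pow, sub_self, sub_zero] at h1
      exact h1.trans_lt d4
    · obtain ⟨R₁, hR₁, hR₂⟩ : ∃ R₁ : ℝ, 1 < R₁ ∧ ‖z‖ * R₁ < 1 := by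
        have hzpos : 0 < ‖z‖ := norm_pos_iff.2 hz0
        refine ⟨(1 + 1 / ‖z‖) / 2, ?_, ?_⟩
        · have : 1 < 1 / ‖z‖ := by rw [lt_div_iff₀ hzpos]; linarith
          linarith
        · have : ‖z‖ * ((1 + 1 / ‖z‖) / 2) = (‖z‖ + 1) / 2 := by field_simp
          rw [this]; linarith
      have hd1 : DifferentiableOn ℂ (fun x => F α β a x z) (ball 0 R₁) :=
        F_diff_x ha α β hR₁.le hR₂
      have hd2 : DifferentiableOn ℂ (fun v => F α β a (y₀ * v - 1) z) (closedBall 1 η) := by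
        apply hd1.comp (t := ball 0 R₁) (f := fun v => y₀ * v - 1) (by fun_prop)
        intro v hv
        simpa using (hgeo v hv).trans_lt hR₁
      exact hd2.div_const _
  have h1 := hNV _ (hgeo v hv) z hz1
  rw [div_eq_zero_iff] at hvz
  rcases hvz with h2 | h2
  · exact h1 h2
  · exact hhne z hz1 h2

end Pool.Agent.H978R3
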