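import Pool.Agent.H978R3.ExcC

/-!
Exceptional case: uniform coefficient bounds; and the combination of both cases.
-/

open Metric Filter Topology Finset ComplexConjugate

namespace Pool.Agent.H978R3

/-- Cauchy bound for coefficients, circle version -/
theorem coeff_bound' {a : ℕ → ℂ} (ha : GC a) {ρ M : ℝ} (hρ0 : 0 < ρ) (hρ1 : ρ < 1)
    (hM : ∀ z, ‖z‖ = ρ → ‖S a z‖ ≤ M) (n : ℕ) : ‖a n‖ * ρ ^ n ≤ M := by
  have h1 : ‖iteratedDeriv n (S a) 0‖ ≤ n.factorial * M / ρ ^ n := by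
    apply Complex.norm_iteratedDeriv_le_of_forall_mem_sphere_norm_le n hρ0
    · apply DifferentiableOn.diffContOnCl
      rw [closure_ball _ hρ0.ne']
      exact ha.differentiableOn.mono (closedBall_subset_ball hρ1)
    · intro w hw
      have : ‖w‖ = ρ := by simpa using hw
      exact hM w this
  have h2 := coeff_eq_of_eqOn ha (f := S a) (fun z _ => rfl) n
  have hf : (0 : ℝ) < n.factorial := by exact_mod_cast n.factorial_pos
  rw [← h2, norm_div, Complex.norm_natCast]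
  rw [le_div_iff₀ (by positivity)] at h1
  rw [div_mul_eq_mul_div, div_le_iff₀ hf]
  linarith

theorem exc_bound {α β : ℂ} {N : ℕ} (hN : β - α = -(N : ℂ)) (hbc : bc α (N + 1) ≠ 0)
    {r : ℝ} (hr0 : 0 < r) (hr1 : r < 1) :
    ∃ C : ℝ, ∀ a : ℕ → ℂ, GC a → a 0 = 1 →
      (∀ x : ℂ, ‖x‖ ≤ 1 → ∀ z : ℂ, ‖z‖ < 1 → F α β a x z ≠ 0) →
      ∀ n, ‖a n‖ * r ^ n ≤ C := by
  obtain ⟨ρ, hρ, hρ1⟩ := exists_between hr1
  obtain ⟨r', hr', hr'1⟩ := exists_between hρ1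
  obtain ⟨r'', hr'', hr''1⟩ := exists_between hr'1
  have hρ0 : 0 < ρ := hr0.trans hρ
  have hr'0 : 0 < r' := hρ0.trans hr'
  obtain ⟨τ, M₀, hτ, hno⟩ := no_good_point_exc hN hbc hr'0 hr''1 (by linarith)
  obtain ⟨A₀, hA₀, hgood⟩ := exists_good_point (M₀ := M₀) hτ hr'0 hr'' hr''1.le
  obtain ⟨Ca, hCa, hlow⟩ := low_bounds N
  have hbc0 : 0 < ‖bc α (N + 1)‖ := norm_pos_iff.2 hbc
  have hrr : 0 < r' - ρ := by linarith
  refine ⟨Ca + (2 * A₀ / (r' - ρ)) * 2 ^ N / (‖bc α (N + 1)‖ * ρ ^ (N + 1)), ?_⟩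
  intro a ha ha0 hNV n
  set h := S (K a (-(N : ℂ)) 0) with hh
  have hhd : DifferentiableOn ℂ h (ball 0 1) := (ha.K _ 0).differentiableOn
  have hhne : ∀ w, ‖w‖ < 1 → h w ≠ 0 := by
    intro w hw
    have := hNV (-1) (by simp) w hw
    rwa [F_neg_one ha α β hw, hN] at this
  obtain ⟨hac, hhb⟩ := hlow a ha ha0 hhne
  have hQd : DifferentiableOn ℂ (qe α N a) (ball 0 1) := by
    unfold qe
    apply DifferentiableOn.neg
    apply DifferentiableOn.div _ hhd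
    · intro z hz; exact hhne z (by simpa using hz)
    · exact (DifferentiableOn.const_mul (by fun_prop) _).mul (ha.K _ _).differentiableOn
  have hQ0 : qe α N a 0 = 0 := by simp [qe]
  have hre : ∀ z, ‖z‖ ≤ r' → (qe α N a z).re ≤ A₀ := by
    intro z hz
    by_contra hcon
    push Not at hcon
    exact hno a ha ha0 hNV (hgood _ hQd hQ0 ⟨z, hz, hcon.le⟩)
  have hBC : ∀ z, ‖z‖ < r' → ‖qe α N a z‖ ≤ 2 * A₀ * ‖z‖ / (r' - ‖z‖) := by
    intro z hz
    apply Complex.borelCaratheodory_zero (f := qe α N a) hA₀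
      (hQd.mono (ball_subset_ball (by linarith))) _ hr'0 (by simpa using hz) hQ0
    intro w hw
    exact hre w (by have : ‖w‖ < r' := by simpa using hw
                    exact this.le)
  have hC1 : 0 ≤ 2 * A₀ / (r' - ρ) := by positivity
  have hk : ∀ z, ‖z‖ = ρ → ‖S (K a (-(N : ℂ)) (N + 1)) z‖ ≤
      (2 * A₀ / (r' - ρ)) * 2 ^ N / (‖bc α (N + 1)‖ * ρ ^ (N + 1)) := by
    intro z hz
    have hz1 : ‖z‖ < 1 := by rw [hz]; exact hρ1
    have h1 := hBC z (by rw [hz]; exact hr')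
    rw [hz] at h1
    have h2 : ‖qe α N a z‖ ≤ 2 * A₀ / (r' - ρ) := by
      calc ‖qe α N a z‖ ≤ 2 * A₀ * ρ / (r' - ρ) := h1
        _ ≤ 2 * A₀ * 1 / (r' - ρ) := by gcongr
        _ = _ := by rw [mul_one]
    have h6 : qe α N a z * h z = -(bc α (N + 1) * z ^ (N + 1) * S (K a (-(N : ℂ)) (N + 1)) z) := by
      have := hhne z hz1
      rw [qe, ← hh]; field_simp
    have h7 := congrArg norm h6
    rw [norm_neg, norm_mul, norm_mul, norm_mul, norm_pow, hz] at h7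
    rw [le_div_iff₀ (by positivity)]
    have h8 := (hhb z hz1).2
    calc ‖S (K a (-(N : ℂ)) (N + 1)) z‖ * (‖bc α (N + 1)‖ * ρ ^ (N + 1))
        = ‖qe α N a z‖ * ‖h z‖ := by rw [h7]; ring
      _ ≤ _ := by gcongr
  have hcb := coeff_bound' (ha.K (-(N : ℂ)) (N + 1)) hρ0 hρ1 hk
  set C₂ := (2 * A₀ / (r' - ρ)) * 2 ^ N / (‖bc α (N + 1)‖ * ρ ^ (N + 1)) with hC₂
  have hC₂0 : 0 ≤ C₂ := by positivity
  rcases Nat.lt_or_ge N n with hn | hn
  · obtain ⟨n', rfl⟩ : ∃ n', n = n' + (N + 1) := ⟨n - (N + 1), by omega⟩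
    have h1 := hcb n'
    have e : K a (-(N : ℂ)) (N + 1) n' = a (n' + (N + 1)) := by
      simp only [K]
      have e3 : -(N : ℂ) + ((N + 1 : ℕ) : ℂ) = 1 := by push_cast; ring
      rw [e3, gm_one, mul_one]
    rw [e] at h1
    have h2 : r ^ (n' + (N + 1)) ≤ ρ ^ n' * 1 := by
      rw [pow_add]
      have : r ^ (N + 1) ≤ 1 := pow_le_one₀ hr0.le hr1.le
      gcongr
    calc ‖a (n' + (N + 1))‖ * r ^ (n' + (N + 1)) ≤ ‖a (n' + (N + 1))‖ * (ρ ^ n' * 1) := by gcongr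
      _ = ‖a (n' + (N + 1))‖ * ρ ^ n' := by ring
      _ ≤ C₂ := h1
      _ ≤ Ca + C₂ := by linarith
  · have h1 := hac n hn
    have h2 : r ^ n ≤ 1 := pow_le_one₀ hr0.le hr1.le
    calc ‖a n‖ * r ^ n ≤ Ca * 1 := by gcongr
      _ ≤ Ca + C₂ := by linarith

theorem bc_ne_zero {α : ℂ} (n : ℕ) (h : ∀ i < n, α ≠ i) : bc α n ≠ 0 := by
  induction n with
  | zero => simp [bc_zero]
  | succ n ih =>
    intro h0
    have h1 := bc_succ α n
    rw [h0, zero_mul] at h1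
    exact (mul_ne_zero (ih (fun i hi => h i (by omega)))
      (sub_ne_zero.2 (h n (by omega)))) h1.symm

/-- Combination: uniform coefficient bounds for all `α, β > 0` with `β ∉ {0,-1,...}` -/
theorem coefficient_bound {α β : ℝ} (hα : 0 < α) (hβ : 0 < β) {r : ℝ} (hr0 : 0 < r) (hr1 : r < 1) :
    ∃ C : ℝ, ∀ a : ℕ → ℂ, GC a → a 0 = 1 →
      (∀ x : ℂ, ‖x‖ ≤ 1 → ∀ z : ℂ, ‖z‖ < 1 → F α β a x z ≠ 0) →
      ∀ n, ‖a n‖ * r ^ n ≤ C := by
  by_cases hb : ∀ n : ℕ, ((β : ℂ) - α) + n ≠ 0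
  · exact nonexc_bound (by exact_mod_cast hα.ne') (by exact_mod_cast hβ.ne') hb hr0 hr1
  · push Not at hb
    obtain ⟨N, hN⟩ := hb
    have hN' : (β : ℂ) - α = -(N : ℂ) := by linear_combination hN
    refine exc_bound hN' (bc_ne_zero _ ?_) hr0 hr1
    intro i hi h
    have h1 : α = i := by exact_mod_cast h
    have h2 : β - α + N = 0 := by exact_mod_cast hN
    have h3 : (i : ℝ) ≤ N := by exact_mod_cast Nat.lt_succ_iff.1 hi
    linarith

end Pool.Agent.H978R3
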