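import Pool.Agent.H978R3.Coef

/-!
The convolution function and its re-expansion at `x = -1`.
-/

open Metric Filter Topology Finset

namespace Pool.Agent.H978R3

theorem GC_cf (α β : ℂ) {x : ℂ} (hx : ‖x‖ ≤ 1) : GC (cf α β x) := by
  intro ρ h0 h1
  have hf : Summable (fun k => ‖bc α k * x ^ k * (ρ : ℂ) ^ k‖) := by
    refine Summable.of_nonneg_of_le (fun _ => norm_nonneg _) (fun k => ?_) (GC_bc α ρ h0 h1)
    rw [norm_mul, norm_mul, norm_pow, norm_pow, Complex.norm_real, Real.norm_of_nonneg h0]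
    have : ‖x‖ ^ k ≤ 1 := pow_le_one₀ (norm_nonneg _) hx
    have h3 : (0 : ℝ) ≤ ρ ^ k := by positivity
    calc ‖bc α k‖ * ‖x‖ ^ k * ρ ^ k ≤ ‖bc α k‖ * 1 * ρ ^ k := by gcongr
      _ = _ := by ring
  have hg : Summable (fun k => ‖gm β k * (ρ : ℂ) ^ k‖) := by
    refine (GC_gm β ρ h0 h1).congr (fun k => ?_)
    rw [norm_mul, norm_pow, Complex.norm_real, Real.norm_of_nonneg h0]
  refine (summable_norm_sum_mul_range_of_summable_norm hf hg).congr (fun n => ?_)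
  have e : ∑ k ∈ range (n + 1), bc α k * x ^ k * (ρ : ℂ) ^ k * (gm β (n - k) * (ρ : ℂ) ^ (n - k))
      = cf α β x n * (ρ : ℂ) ^ n := by
    rw [cf, Finset.sum_mul]
    apply Finset.sum_congr rfl
    intro k hk
    have hk' : k ≤ n := by simpa [Nat.lt_succ_iff] using hk
    have : (ρ : ℂ) ^ n = (ρ : ℂ) ^ k * (ρ : ℂ) ^ (n - k) := by
      rw [← pow_add, Nat.add_sub_cancel' hk']
    rw [this]; ring
  rw [e, norm_mul, norm_pow, Complex.norm_real, Real.norm_of_nonneg h0]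

/-- the convolution function -/
noncomputable def F (α β : ℂ) (a : ℕ → ℂ) (x z : ℂ) : ℂ := S (fun n => a n * cf α β x n) z

/-- the coefficient sequence of `k_j` -/
noncomputable def K (a : ℕ → ℂ) (b : ℂ) (j : ℕ) : ℕ → ℂ := fun m => a (m + j) * gm (b + j) m

theorem GC.K {a : ℕ → ℂ} (ha : GC a) (b : ℂ) (j : ℕ) : GC (Pool.Agent.H978R3.K a b j) :=
  (ha.shift j).mul (GC_gm _)

theorem D_K (a : ℕ → ℂ) (b : ℂ) (j : ℕ) :
    D (K a b j) = fun m => (b + j) * K a b (j + 1) m := by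
  funext m
  simp only [D, K]
  have h := gm_succ' (b + j) m
  rw [show m + 1 + j = m + (j + 1) by ring]
  push_cast
  rw [show b + ((j : ℂ) + 1) = b + j + 1 by ring]
  linear_combination (a (m + (j + 1))) * h

/-- rising factorial -/
noncomputable def poch (c : ℂ) (i : ℕ) : ℂ := ∏ l ∈ range i, (c + l)

theorem poch_zero (c : ℂ) : poch c 0 = 1 := by simp [poch]

theorem poch_succ (c : ℂ) (i : ℕ) : poch c (i + 1) = poch c i * (c + i) := by
  rw [poch, poch, Finset.prod_range_succ]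

theorem S_const_mul (c : ℂ) (a : ℕ → ℂ) (z : ℂ) : S (fun m => c * a m) z = c * S a z := by
  unfold S
  rw [← tsum_mul_left]
  congr 1; funext n; ring

theorem iterD_K (a : ℕ → ℂ) (b : ℂ) (j i : ℕ) :
    D^[i] (K a b j) = fun m => poch (b + j) i * K a b (j + i) m := by
  induction i with
  | zero => funext m; simp [poch_zero]
  | succ i ih =>
    rw [Function.iterate_succ_apply', ih]
    funext m
    have h := congrFun (D_K a b (j + i)) m
    simp only [D] at h ⊢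
    rw [poch_succ]
    push_cast at h
    rw [show j + (i + 1) = j + i + 1 by ring]
    linear_combination (poch (b + j) i) * h

theorem iteratedDeriv_K {a : ℕ → ℂ} (ha : GC a) (b : ℂ) (j i : ℕ) {z : ℂ} (hz : ‖z‖ < 1) :
    iteratedDeriv i (S (K a b j)) z = poch (b + j) i * S (K a b (j + i)) z := by
  rw [(ha.K b j).iteratedDeriv i z hz, iterD_K, S_const_mul]

theorem S_K_zero {a : ℕ → ℂ} (b : ℂ) (j : ℕ) : S (K a b j) 0 = a j := by
  rw [S_zero]; simp [K, gm_zero]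

theorem hasSum_antidiag {G : ℕ × ℕ → ℂ} {s : ℂ} (hs : HasSum G s) :
    HasSum (fun n => ∑ p ∈ antidiagonal n, G p) s := by
  have h3 : HasSum (G ∘ (Finset.HasAntidiagonal.sigmaAntidiagonalEquivProd (A := ℕ))) s :=
    (Finset.HasAntidiagonal.sigmaAntidiagonalEquivProd (A := ℕ)).hasSum_iff.2 hs
  refine h3.sigma (fun n => ?_)
  have h5 : HasSum (fun c : ↥(antidiagonal n) => G c.1) (∑ c : ↥(antidiagonal n), G c.1) :=
    hasSum_fintype _
  rw [Finset.sum_coe_sort (antidiagonal n) G] at h5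
  exact h5

theorem alg_aux (A Y r C ρ σ : ℝ) (hρ : ρ ≠ 0) (hσ : σ ≠ 0) (j m B : ℕ) :
    A ^ j * (Y * r) ^ j * ((C / ρ ^ (m + j)) * (1 / σ ^ (B + j + 1) / ρ ^ m) * r ^ m) =
      (C * (1 / σ ^ (B + 1))) * ((A * Y * r / (ρ * σ)) ^ j * (r / ρ ^ 2) ^ m) := by
  rw [div_pow, div_pow, mul_pow, mul_pow, mul_pow, mul_pow,
    show ρ ^ (m + j) = ρ ^ m * ρ ^ j from pow_add _ _ _,
    show σ ^ (B + j + 1) = σ ^ (B + 1) * σ ^ j by rw [← pow_add]; congr 1; ring, ← pow_mul,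
    show ρ ^ (2 * m) = ρ ^ m * ρ ^ m by rw [← pow_add]; congr 1; ring]
  field_simp

theorem summable_prod_geom {u v : ℝ} (hu0 : 0 ≤ u) (hu1 : u < 1) (hv0 : 0 ≤ v) (hv1 : v < 1) :
    Summable (fun p : ℕ × ℕ => u ^ p.1 * v ^ p.2) :=
  Summable.mul_of_nonneg (summable_geometric_of_lt_one hu0 hu1)
    (summable_geometric_of_lt_one hv0 hv1) (fun n => pow_nonneg hu0 n) (fun n => pow_nonneg hv0 n)

theorem exists_rho {r : ℝ} (hr0 : 0 ≤ r) (hr1 : r < 1) : ∃ ρ : ℝ, 0 < ρ ∧ ρ < 1 ∧ r < ρ ^ 2 := by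
  have hs0 : 0 ≤ Real.sqrt r := Real.sqrt_nonneg r
  have hs1 : Real.sqrt r < 1 := by rw [Real.sqrt_lt' one_pos]; simpa using hr1
  refine ⟨(Real.sqrt r + 1) / 2, by linarith, by linarith, ?_⟩
  calc r = Real.sqrt r ^ 2 := (Real.sq_sqrt hr0).symm
      _ < ((Real.sqrt r + 1) / 2) ^ 2 := by
        have : Real.sqrt r < (Real.sqrt r + 1) / 2 := by linarith
        gcongr

/-- main double sum -/
theorem expand (α β : ℂ) {r : ℝ} (hr0 : 0 ≤ r) (hr1 : r < 1) :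
    ∃ y₁ : ℝ, 0 < y₁ ∧ ∀ a : ℕ → ℂ, GC a → ∀ z : ℂ, ‖z‖ ≤ r → ∀ y : ℂ, ‖y‖ < y₁ →
      HasSum (fun j => bc α j * (y * z) ^ j * S (K a (β - α) j) z) (F α β a (y - 1) z) := by
  obtain ⟨B, hB⟩ := exists_nat_ge ‖β - α‖
  obtain ⟨ρ, hρ0, hρ1, hrρ⟩ := exists_rho hr0 hr1
  have h1ρ : 0 < 1 - ρ := by linarith
  have hA0 : 0 < ‖α‖ + 1 := by positivity
  refine ⟨ρ * (1 - ρ) / (‖α‖ + 1), by positivity, ?_⟩
  intro a ha z hz y hy
  have hz1 : ‖z‖ < 1 := hz.trans_lt hr1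
  obtain ⟨C, hC0, hC⟩ := ha.bound hρ0.le hρ1
  generalize hb : β - α = b at *
  have hy' : (‖α‖ + 1) * ‖y‖ * r / (ρ * (1 - ρ)) < 1 := by
    rw [div_lt_one (by positivity)]
    have h2 : ‖y‖ * (‖α‖ + 1) < ρ * (1 - ρ) := by rwa [lt_div_iff₀ hA0] at hy
    have h3 : (‖α‖ + 1) * ‖y‖ * r ≤ (‖α‖ + 1) * ‖y‖ * 1 := by gcongr
    linarith
  have hbound : ∀ p : ℕ × ℕ, ‖bc α p.1 * (y * z) ^ p.1 * (K a b p.1 p.2 * z ^ p.2)‖ ≤
      (C * (1 / (1 - ρ) ^ (B + 1))) *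
      (((‖α‖ + 1) * ‖y‖ * r / (ρ * (1 - ρ))) ^ p.1 * (r / ρ ^ 2) ^ p.2) := by
    rintro ⟨j, m⟩
    simp only [K, norm_mul, norm_pow]
    have e1 : ‖a (m + j)‖ ≤ C / ρ ^ (m + j) := by
      rw [le_div_iff₀ (by positivity)]; exact hC _
    have e2 : ‖gm (b + j) m‖ ≤ 1 / (1 - ρ) ^ (B + j + 1) / ρ ^ m := by
      have h5 : ‖b + (j : ℂ)‖ ≤ ((B + j : ℕ) : ℝ) + 1 := by
        have := norm_add_le b (j : ℂ)
        rw [Complex.norm_natCast] at this
        push_cast; linarith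
      have h6 := norm_gm_le_choose h5 m
      have h7 := choose_mul_pow_le m (B + j) hρ0.le hρ1
      rw [le_div_iff₀ (by positivity)]
      calc ‖gm (b + j) m‖ * ρ ^ m ≤ ((m + (B + j)).choose (B + j) : ℝ) * ρ ^ m := by gcongr
        _ ≤ _ := h7
    have e3 : ‖bc α j‖ ≤ (‖α‖ + 1) ^ j := norm_bc_le α j
    rw [← alg_aux _ _ _ _ _ _ hρ0.ne' h1ρ.ne']
    gcongr
  have hsum : Summable (fun p : ℕ × ℕ => bc α p.1 * (y * z) ^ p.1 * (K a b p.1 p.2 * z ^ p.2)) :=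
    Summable.of_norm_bounded ((summable_prod_geom (by positivity) hy' (by positivity)
      (by rw [div_lt_one (by positivity)]; exact hrρ)).mul_left _) hbound
  obtain ⟨s, hs⟩ := hsum
  -- fiberwise
  have h0 : ∀ j, HasSum (fun m => bc α j * (y * z) ^ j * (K a b j m * z ^ m))
      (bc α j * (y * z) ^ j * S (K a b j) z) := fun j => ((ha.K b j).hasSum hz1).mul_left _
  have h1 : HasSum (fun j => bc α j * (y * z) ^ j * S (K a b j) z) s :=
    HasSum.prod_fiberwise hs h0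
  -- antidiagonal
  have h2 := hasSum_antidiag hs
  have h6 : ∀ n, ∑ p ∈ antidiagonal n, bc α p.1 * (y * z) ^ p.1 * (K a b p.1 p.2 * z ^ p.2)
      = a n * cf α β (y - 1) n * z ^ n := by
    intro n
    rw [Finset.Nat.sum_antidiagonal_eq_sum_range_succ_mk, cf_reexpand, Finset.mul_sum,
      Finset.sum_mul, hb]
    apply Finset.sum_congr rfl
    intro j hj
    have hj' : j ≤ n := by simpa [Nat.lt_succ_iff] using hj
    simp only [K]
    have e4 : n - j + j = n := Nat.sub_add_cancel hj'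
    have e5 : z ^ n = z ^ j * z ^ (n - j) := by rw [← pow_add, Nat.add_sub_cancel' hj']
    rw [e4, e5, mul_pow]
    ring
  simp only [h6] at h2
  have h7 : F α β a (y - 1) z = s := h2.tsum_eq
  rw [h7]; exact h1

end Pool.Agent.H978R3
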