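import Mathlib

/-!
Borel growth lemma and the selection of good points.
-/

open Metric Filter Topology Finset

namespace Pool.Agent.H978R3

theorem borel_growth {τ r' r'' A : ℝ} (hτ : 0 < τ) (hA : 0 < A)
    (hA2 : r' + A ^ (-τ) / (1 - (2 : ℝ) ^ (-τ)) < r'') (m : ℝ → ℝ)
    (hm : ∀ s t, r' ≤ s → s ≤ t → t < r'' → m s ≤ m t) (h0 : A ≤ m r') :
    ∃ ρ, r' ≤ ρ ∧ ρ + m ρ ^ (-τ) < r'' ∧ m (ρ + m ρ ^ (-τ)) ≤ 2 * m ρ ∧ A ≤ m ρ := by
  have hq0 : 0 < (2 : ℝ) ^ (-τ) := by positivity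
  have hq1 : (2 : ℝ) ^ (-τ) < 1 := Real.rpow_lt_one_of_one_lt_of_neg (by norm_num) (by linarith)
  set q := (2 : ℝ) ^ (-τ) with hq
  by_contra hcon
  push Not at hcon
  set R := r' + A ^ (-τ) / (1 - q) with hR
  let ρ : ℕ → ℝ := fun n => Nat.rec r' (fun _ s => s + m s ^ (-τ)) n
  have hρ0 : ρ 0 = r' := rfl
  have hρs : ∀ n, ρ (n + 1) = ρ n + m (ρ n) ^ (-τ) := fun n => rfl
  have hgeo : ∀ n, ∑ i ∈ range n, q ^ i ≤ 1 / (1 - q) := by
    intro n
    have := geom_sum_eq hq1.ne n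
    rw [this]
    have h1q : 0 < 1 - q := by linarith
    rw [show (q ^ n - 1) / (q - 1) = (1 - q ^ n) / (1 - q) by
      rw [← neg_div_neg_eq]; congr 1 <;> ring]
    have : 0 ≤ q ^ n := by positivity
    gcongr
    linarith
  have hAτ : 0 < A ^ (-τ) := by positivity
  have key : ∀ n, r' ≤ ρ n ∧ ρ n ≤ r' + A ^ (-τ) * ∑ i ∈ range n, q ^ i ∧ 2 ^ n * A ≤ m (ρ n) := by
    intro n
    induction n with
    | zero => simp [hρ0, h0]
    | succ n ih =>
      obtain ⟨h1, h2, h3⟩ := ih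
      have hmpos : 0 < m (ρ n) := lt_of_lt_of_le (by positivity) h3
      have hstep : m (ρ n) ^ (-τ) ≤ A ^ (-τ) * q ^ n := by
        have h4 : m (ρ n) ^ (-τ) ≤ (2 ^ n * A) ^ (-τ) :=
          Real.rpow_le_rpow_of_nonpos (by positivity) h3 (by linarith)
        refine h4.trans (le_of_eq ?_)
        rw [Real.mul_rpow (by positivity) hA.le, mul_comm, ← Real.rpow_natCast, ← Real.rpow_mul (by norm_num),
          hq, ← Real.rpow_natCast, ← Real.rpow_mul (by norm_num)]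
        congr 2; ring
      have h5 : ρ (n + 1) ≤ r' + A ^ (-τ) * ∑ i ∈ range (n + 1), q ^ i := by
        rw [hρs, Finset.sum_range_succ, mul_add]; linarith
      have h6 : ρ (n + 1) < r'' := by
        refine lt_of_le_of_lt h5 (lt_of_le_of_lt ?_ hA2)
        have := hgeo (n + 1)
        have h7 := mul_le_mul_of_nonneg_left this hAτ.le
        rw [mul_one_div] at h7
        linarith
      have h8 : 0 < m (ρ n) ^ (-τ) := by positivity
      refine ⟨by rw [hρs]; linarith, h5, ?_⟩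
      by_contra h9
      have hA_le : A ≤ m (ρ n) := by
        refine le_trans ?_ h3
        have : (1 : ℝ) ≤ 2 ^ n := one_le_pow₀ (by norm_num)
        nlinarith
      have h10 : m (ρ (n + 1)) ≤ 2 * m (ρ n) := by
        push Not at h9
        have : (2 : ℝ) ^ (n + 1) * A = 2 * (2 ^ n * A) := by ring
        rw [this] at h9
        linarith
      have := hcon (ρ n) h1 (by rw [← hρs]; exact h6) (by rw [← hρs]; exact h10)
      linarith
  have hRle : ∀ n, ρ n ≤ R := by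
    intro n
    refine (key n).2.1.trans ?_
    have h7 := mul_le_mul_of_nonneg_left (hgeo n) hAτ.le
    rw [mul_one_div] at h7
    rw [hR]; linarith
  have hmR : ∀ n : ℕ, 2 ^ n * A ≤ m R := fun n =>
    (key n).2.2.trans (hm _ _ (key n).1 (hRle n) hA2)
  obtain ⟨n, hn⟩ := pow_unbounded_of_one_lt (m R / A) (by norm_num : (1 : ℝ) < 2)
  have := hmR n
  rw [div_lt_iff₀ hA] at hn
  linarith

/-- Good points: `Re Q` is maximal at `z` on its circle and at most doubles in a disc about `z`. -/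
theorem exists_good_point {τ r' r'' M₀ : ℝ} (hτ : 0 < τ) (hr' : 0 < r') (hr : r' < r'')
    (hr'' : r'' ≤ 1) :
    ∃ A₀ : ℝ, 0 < A₀ ∧ ∀ Q : ℂ → ℂ, DifferentiableOn ℂ Q (ball 0 1) → Q 0 = 0 →
      (∃ z, ‖z‖ ≤ r' ∧ A₀ ≤ (Q z).re) →
      ∃ (z : ℂ) (m : ℝ), M₀ ≤ m ∧ 0 < m ∧ r' ≤ ‖z‖ ∧ ‖z‖ + m ^ (-τ) < r'' ∧ (Q z).re = m ∧
        (∀ w ∈ ball z (m ^ (-τ)), ‖Q w - Q z‖ ≤ 2 * m * ‖w - z‖ / (m ^ (-τ) - ‖w - z‖)) ∧
        ‖Q z‖ ≤ 4 * m / m ^ (-τ) := by
  have hq1 : (2 : ℝ) ^ (-τ) < 1 := Real.rpow_lt_one_of_one_lt_of_neg (by norm_num) (by linarith)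
  have hlim : Tendsto (fun A : ℝ => r' + A ^ (-τ) / (1 - (2 : ℝ) ^ (-τ))) atTop
      (𝓝 (r' + 0 / (1 - (2 : ℝ) ^ (-τ)))) :=
    tendsto_const_nhds.add ((tendsto_rpow_neg_atTop hτ).div_const _)
  rw [zero_div, add_zero] at hlim
  obtain ⟨A₀, hA1, hA2, hA3⟩ := ((hlim.eventually_lt_const hr).and
    ((eventually_gt_atTop (0 : ℝ)).and (eventually_ge_atTop M₀))).exists
  refine ⟨A₀, hA2, ?_⟩
  intro Q hQ hQ0 ⟨z₀, hz₀, hz₀A⟩
  set m : ℝ → ℝ := fun ρ => sSup ((fun z => (Q z).re) '' closedBall (0 : ℂ) ρ) with hmdef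
  have hcont : ∀ ρ < 1, ContinuousOn (fun z => (Q z).re) (closedBall (0 : ℂ) ρ) := by
    intro ρ hρ
    exact Complex.continuous_re.comp_continuousOn
      (hQ.continuousOn.mono (closedBall_subset_ball hρ))
  have hbdd : ∀ ρ < 1, BddAbove ((fun z => (Q z).re) '' closedBall (0 : ℂ) ρ) := fun ρ hρ =>
    (isCompact_closedBall (0 : ℂ) ρ).bddAbove_image (hcont ρ hρ)
  have hle : ∀ ρ < 1, ∀ z, ‖z‖ ≤ ρ → (Q z).re ≤ m ρ := by
    intro ρ hρ z hz
    exact le_csSup (hbdd ρ hρ) ⟨z, by simpa using hz, rfl⟩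
  have hmono : ∀ s t, r' ≤ s → s ≤ t → t < r'' → m s ≤ m t := by
    intro s t h1 h2 h3
    apply csSup_le_csSup (hbdd t (by linarith))
    · exact ⟨_, 0, by simp; linarith, rfl⟩
    · exact Set.image_mono (closedBall_subset_closedBall h2)
  have h0 : A₀ ≤ m r' := hz₀A.trans (hle r' (by linarith) z₀ hz₀)
  obtain ⟨ρ, hρ1, hρ2, hρ3, hρ4⟩ := borel_growth hτ hA2 hA1 m hmono h0
  have hmpos : 0 < m ρ := hA2.trans_le hρ4
  set δ := m ρ ^ (-τ) with hδ
  have hδ0 : 0 < δ := by positivity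
  have hρ0 : 0 < ρ := hr'.trans_le hρ1
  have hρlt : ρ < 1 := by linarith
  -- maximum on the circle
  have hfr : ∃ z ∈ frontier (ball (0 : ℂ) ρ), IsMaxOn (norm ∘ fun z => Complex.exp (Q z))
      (closure (ball (0 : ℂ) ρ)) z := by
    apply Complex.exists_mem_frontier_isMaxOn_norm isBounded_ball ⟨0, by simpa using hρ0⟩
    have hd : DifferentiableOn ℂ (fun z => Complex.exp (Q z)) (ball 0 1) := hQ.cexp
    exact (hd.mono (closedBall_subset_ball hρlt)).diffContOnCl_ball Set.Subset.rfl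
  obtain ⟨z, hzf, hzmax⟩ := hfr
  have hzn : ‖z‖ = ρ := by
    rw [frontier_ball _ hρ0.ne'] at hzf
    simpa using hzf
  have hzre : ∀ w, ‖w‖ ≤ ρ → (Q w).re ≤ (Q z).re := by
    intro w hw
    have h1 : w ∈ closure (ball (0 : ℂ) ρ) := by
      rw [closure_ball _ hρ0.ne']; simpa using hw
    have h2 := hzmax h1
    simp only [Function.comp, Set.mem_ofPred_eq, Complex.norm_exp] at h2
    exact Real.exp_le_exp.1 h2
  have hzm : (Q z).re = m ρ := by
    apply le_antisymm (hle ρ hρlt z hzn.le)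
    have hne : ((fun z => (Q z).re) '' closedBall (0 : ℂ) ρ).Nonempty :=
      ⟨_, 0, by simp; linarith, rfl⟩
    apply csSup_le hne
    rintro _ ⟨w, hw, rfl⟩
    exact hzre w (by simpa using hw)
  have hbig : ∀ w, ‖w‖ < ρ + δ → (Q w).re ≤ 2 * m ρ := by
    intro w hw
    exact (hle (ρ + δ) (by linarith) w hw.le).trans hρ3
  refine ⟨z, m ρ, hA3.trans hρ4, hmpos, by rw [hzn]; exact hρ1, by rw [hzn]; exact hρ2, hzm, ?_, ?_⟩
  · intro w hw
    have hw' : ‖w - z‖ < δ := by simpa [dist_eq_norm] using hw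
    have hsub : ∀ u ∈ ball (0 : ℂ) δ, z + u ∈ ball (0 : ℂ) 1 := by
      intro u hu
      have hu' : ‖u‖ < δ := by simpa using hu
      have : ‖z + u‖ ≤ ‖z‖ + ‖u‖ := norm_add_le _ _
      simp only [mem_ball_zero_iff]
      linarith
    have hf : DifferentiableOn ℂ (fun u => Q (z + u) - Q z) (ball 0 δ) := by
      apply DifferentiableOn.sub_const
      exact hQ.comp (by fun_prop) hsub
    have := Complex.borelCaratheodory_zero (f := fun u => Q (z + u) - Q z) (M := m ρ) (R := δ)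
      (z := w - z) hmpos hf ?_ hδ0 (by simpa using hw') (by simp)
    · simpa using this
    · intro u hu
      have hu' : ‖u‖ < δ := by simpa using hu
      have h1 : ‖z + u‖ < ρ + δ := by
        have : ‖z + u‖ ≤ ‖z‖ + ‖u‖ := norm_add_le _ _
        linarith
      have h2 := hbig _ h1
      simp only [Set.mem_ofPred_eq, Complex.sub_re]
      linarith
  · have := Complex.borelCaratheodory_zero (f := Q) (M := 2 * m ρ) (R := ρ + δ) (z := z)
      (by linarith) (hQ.mono (ball_subset_ball (by linarith))) ?_ (by linarith)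
      (by simp [hzn, hδ0]) hQ0
    · rw [hzn] at this
      have e : ρ + δ - ρ = δ := by ring
      rw [e] at this
      refine this.trans ?_
      have : 2 * (2 * m ρ) * ρ ≤ 4 * m ρ := by nlinarith
      gcongr
    · intro u hu
      exact hbig u (by simpa using hu)

end Pool.Agent.H978R3
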