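import Pool.Agent.H978R3.Expand

/-!
Hurwitz type lemma; non-vanishing for `|x| = 1` propagates to `|x| ≤ 1`.
-/

open Metric Filter Topology Finset

namespace Pool.Agent.H978R3

/-- quantitative Hurwitz: a small value at the centre against the circle forces a zero. -/
theorem exists_zero_of_lt {E : ℂ → ℂ} {t₀ : ℂ} {η s : ℝ} (hη : 0 < η)
    (hd : DifferentiableOn ℂ E (closedBall t₀ η)) (hs : 0 < s)
    (hcirc : ∀ t ∈ sphere t₀ η, s ≤ ‖E t‖) (hc : ‖E t₀‖ < s) :
    ∃ t ∈ closedBall t₀ η, E t = 0 := by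
  by_contra hcon
  push Not at hcon
  have hinv : DiffContOnCl ℂ (fun t => (E t)⁻¹) (ball t₀ η) := by
    apply DifferentiableOn.diffContOnCl
    rw [closure_ball _ hη.ne']
    exact hd.inv hcon
  have h1 := Complex.norm_le_of_forall_mem_frontier_norm_le (f := fun t => (E t)⁻¹)
    (isBounded_ball (x := t₀) (r := η)) hinv (C := s⁻¹) ?_ (z := t₀)
    (subset_closure (mem_ball_self hη))
  · rw [norm_inv] at h1
    have h2 : 0 < ‖E t₀‖ := norm_pos_iff.2 (hcon t₀ (mem_closedBall_self hη.le))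
    have := (inv_le_inv₀ h2 hs).1 h1
    linarith
  · intro z hz
    rw [frontier_ball _ hη.ne'] at hz
    rw [norm_inv]
    have := hcirc z hz
    gcongr

/-- bound for `cf` uniform in `|x| ≤ R` -/
theorem continuous_cf (α β : ℂ) (n : ℕ) : Continuous (fun x => cf α β x n) := by
  unfold cf; fun_prop

theorem differentiable_cf (α β : ℂ) (n : ℕ) : Differentiable ℂ (fun x => cf α β x n) := by
  unfold cf; fun_prop

/-- majorant sequence -/
noncomputable def mj (α β : ℂ) (n : ℕ) : ℝ := ∑ k ∈ range (n + 1), ‖bc α k‖ * ‖gm β (n - k)‖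

theorem mj_nonneg (α β : ℂ) (n : ℕ) : 0 ≤ mj α β n :=
  Finset.sum_nonneg (fun _ _ => by positivity)

theorem norm_cf_le (α β : ℂ) {x : ℂ} {R : ℝ} (hR : 1 ≤ R) (hx : ‖x‖ ≤ R) (n : ℕ) :
    ‖cf α β x n‖ ≤ mj α β n * R ^ n := by
  unfold cf mj
  rw [Finset.sum_mul]
  refine (norm_sum_le _ _).trans (Finset.sum_le_sum (fun k hk => ?_))
  have hk' : k ≤ n := by simpa [Nat.lt_succ_iff] using hk
  rw [norm_mul, norm_mul, norm_pow]
  have h1 : ‖x‖ ^ k ≤ R ^ n := (pow_le_pow_left₀ (norm_nonneg _) hx k).trans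
    (pow_le_pow_right₀ hR hk')
  calc ‖bc α k‖ * ‖x‖ ^ k * ‖gm β (n - k)‖ = ‖bc α k‖ * ‖gm β (n - k)‖ * ‖x‖ ^ k := by ring
    _ ≤ _ := by gcongr

theorem GC_mj (α β : ℂ) : GC (fun n => (mj α β n : ℂ)) := by
  intro ρ h0 h1
  have hf : Summable (fun k => ‖(‖bc α k‖ * ρ ^ k : ℝ)‖) := by
    refine (GC_bc α ρ h0 h1).congr (fun k => ?_)
    rw [Real.norm_of_nonneg (by positivity)]
  have hg : Summable (fun k => ‖(‖gm β k‖ * ρ ^ k : ℝ)‖) := by
    refine (GC_gm β ρ h0 h1).congr (fun k => ?_)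
    rw [Real.norm_of_nonneg (by positivity)]
  refine (summable_norm_sum_mul_range_of_summable_norm hf hg).congr (fun n => ?_)
  have e : ∑ k ∈ range (n + 1), ‖bc α k‖ * ρ ^ k * (‖gm β (n - k)‖ * ρ ^ (n - k))
      = mj α β n * ρ ^ n := by
    rw [mj, Finset.sum_mul]
    apply Finset.sum_congr rfl
    intro k hk
    have hk' : k ≤ n := by simpa [Nat.lt_succ_iff] using hk
    have : ρ ^ n = ρ ^ k * ρ ^ (n - k) := by
      rw [← pow_add, Nat.add_sub_cancel' hk']
    rw [this]; ring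
  have h3 := mj_nonneg α β n
  rw [e, Real.norm_of_nonneg (by positivity), Complex.norm_real, Real.norm_of_nonneg h3]

/-- summability of majorants of `F` for `|x| ≤ R`, `|z| ≤ r`, `r R < 1` -/
theorem summable_majorant {a : ℕ → ℂ} (ha : GC a) (α β : ℂ) {R r : ℝ} (hR : 1 ≤ R) (hr : 0 ≤ r)
    (hRr : r * R < 1) : Summable (fun n => ‖a n‖ * mj α β n * (r * R) ^ n) := by
  have h := (ha.mul (GC_mj α β)) (r * R) (by positivity) hRr
  refine h.congr (fun n => ?_)
  rw [norm_mul, Complex.norm_real, Real.norm_of_nonneg (mj_nonneg α β n)]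

theorem norm_term_le (a : ℕ → ℂ) (α β : ℂ) {R r : ℝ} (hR : 1 ≤ R) {x z : ℂ}
    (hx : ‖x‖ ≤ R) (hz : ‖z‖ ≤ r) (n : ℕ) :
    ‖a n * cf α β x n * z ^ n‖ ≤ ‖a n‖ * mj α β n * (r * R) ^ n := by
  rw [norm_mul, norm_mul, norm_pow, mul_pow]
  have h1 := norm_cf_le α β hR hx n
  have h2 := mj_nonneg α β n
  calc ‖a n‖ * ‖cf α β x n‖ * ‖z‖ ^ n ≤ ‖a n‖ * (mj α β n * R ^ n) * r ^ n := by gcongr
    _ = _ := by ring

/-- `F` is continuous on `|x| ≤ R, |z| ≤ r` -/
theorem F_continuousOn {a : ℕ → ℂ} (ha : GC a) (α β : ℂ) {R r : ℝ} (hR : 1 ≤ R) (hr : 0 ≤ r)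
    (hRr : r * R < 1) :
    ContinuousOn (fun p : ℂ × ℂ => F α β a p.1 p.2) (closedBall 0 R ×ˢ closedBall 0 r) := by
  have : ContinuousOn (fun p : ℂ × ℂ => ∑' n, a n * cf α β p.1 n * p.2 ^ n)
      (closedBall 0 R ×ˢ closedBall 0 r) := by
    apply continuousOn_tsum (u := fun n => ‖a n‖ * mj α β n * (r * R) ^ n)
    · intro n
      apply Continuous.continuousOn
      have := continuous_cf α β n
      fun_prop
    · exact summable_majorant ha α β hR hr hRr
    · rintro n ⟨x, z⟩ ⟨hx, hz⟩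
      exact norm_term_le a α β hR (by simpa using hx) (by simpa using hz) n
  exact this

/-- `F` is holomorphic in `x` for fixed `z` -/
theorem F_diff_x {a : ℕ → ℂ} (ha : GC a) (α β : ℂ) {R : ℝ} (hR : 1 ≤ R) {z : ℂ}
    (hRr : ‖z‖ * R < 1) : DifferentiableOn ℂ (fun x => F α β a x z) (ball 0 R) := by
  have : DifferentiableOn ℂ (fun x => ∑' n, a n * cf α β x n * z ^ n) (ball 0 R) := by
    apply Complex.differentiableOn_tsum_of_summable_norm
      (summable_majorant ha α β hR (norm_nonneg z) hRr)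
    · intro n
      have := (differentiable_cf α β n).differentiableOn (s := ball 0 R)
      fun_prop
    · exact isOpen_ball
    · intro n x hx
      exact norm_term_le a α β hR (mem_ball_zero_iff.1 hx).le le_rfl n
  exact this

theorem F_zero (α β : ℂ) (a : ℕ → ℂ) (x : ℂ) : F α β a x 0 = a 0 := by
  rw [F, S_zero]; simp [cf, bc_zero, gm_zero]

/-- propagation of non-vanishing from `|x| = 1` to `|x| ≤ 1` -/
theorem F_ne_zero {a : ℕ → ℂ} (ha : GC a) (ha0 : a 0 = 1) (α β : ℂ)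
    (h : ∀ x : ℂ, ‖x‖ = 1 → ∀ z : ℂ, ‖z‖ < 1 → F α β a x z ≠ 0) :
    ∀ x : ℂ, ‖x‖ ≤ 1 → ∀ z : ℂ, ‖z‖ < 1 → F α β a x z ≠ 0 := by
  intro x₀ hx₀ z₀ hz₀ hzero
  set r := ‖z₀‖ with hr
  have hr0 : 0 ≤ r := norm_nonneg _
  have hcont : ContinuousOn (fun p : ℂ × ℂ => F α β a p.1 p.2)
      (closedBall 0 1 ×ˢ closedBall 0 r) := F_continuousOn ha α β le_rfl hr0 (by simpa using hz₀)
  have hcomp : IsCompact (closedBall (0 : ℂ) 1 ×ˢ closedBall (0 : ℂ) r) :=
    (isCompact_closedBall _ _).prod (isCompact_closedBall _ _)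
  set Z := (closedBall (0 : ℂ) 1 ×ˢ closedBall (0 : ℂ) r) ∩ (fun p : ℂ × ℂ => F α β a p.1 p.2) ⁻¹' {0}
    with hZ
  have hZc : IsCompact Z := by
    have : IsClosed Z := hcont.preimage_isClosed_of_isClosed hcomp.isClosed isClosed_singleton
    exact hcomp.of_isClosed_subset this Set.inter_subset_left
  have hZne : Z.Nonempty := ⟨(x₀, z₀), ⟨by simpa using hx₀, by simp [hr]⟩, hzero⟩
  obtain ⟨⟨x₁, z₁⟩, ⟨⟨hx₁, hz₁⟩, hF₁⟩, hmin⟩ := hZc.exists_isMinOn hZne
    (f := fun p : ℂ × ℂ => ‖p.2‖) (by fun_prop)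
  simp only [mem_closedBall_zero_iff] at hx₁ hz₁
  simp only [Set.mem_preimage, Set.mem_singleton_iff] at hF₁
  have hz₁lt : ‖z₁‖ < 1 := hz₁.trans_lt hz₀
  have hx₁lt : ‖x₁‖ < 1 := lt_of_le_of_ne hx₁ (fun h' => h x₁ h' z₁ hz₁lt hF₁)
  have hz₁pos : 0 < ‖z₁‖ := by
    rw [norm_pos_iff]
    rintro rfl
    rw [F_zero, ha0] at hF₁
    exact one_ne_zero hF₁
  -- the function x ↦ F x z₁ is not identically zero near x₁
  obtain ⟨R, hR1, hR2⟩ : ∃ R : ℝ, 1 < R ∧ ‖z₁‖ * R < 1 := by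
    refine ⟨(1 + 1 / ‖z₁‖) / 2, ?_, ?_⟩
    · have : 1 < 1 / ‖z₁‖ := by rw [lt_div_iff₀ hz₁pos]; linarith
      linarith
    · have : ‖z₁‖ * ((1 + 1 / ‖z₁‖) / 2) = (‖z₁‖ + 1) / 2 := by field_simp
      rw [this]; linarith
  have hdx : DifferentiableOn ℂ (fun x => F α β a x z₁) (ball 0 R) := F_diff_x ha α β hR1.le hR2
  have han : AnalyticOnNhd ℂ (fun x => F α β a x z₁) (ball 0 R) := hdx.analyticOnNhd isOpen_ball
  have hnotev : ¬ (∀ᶠ x in 𝓝 x₁, F α β a x z₁ = 0) := by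
    intro hev
    have := han.eqOn_zero_of_preconnected_of_eventuallyEq_zero
      (convex_ball (0 : ℂ) R).isPreconnected (by simpa using hx₁lt.trans hR1) hev
    have h1 : F α β a 1 z₁ = 0 := this (by simpa using hR1)
    exact h 1 (by simp) z₁ hz₁lt h1
  have hiso : ∀ᶠ x in 𝓝[≠] x₁, F α β a x z₁ ≠ 0 := by
    rcases (han x₁ (by simpa using hx₁lt.trans hR1)).eventually_eq_zero_or_eventually_ne_zero
      with h1 | h1
    · exact absurd h1 hnotev
    · exact h1
  -- a small circle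
  rw [eventually_nhdsWithin_iff, Metric.eventually_nhds_iff] at hiso
  obtain ⟨ε, hε, hεne⟩ := hiso
  obtain ⟨η, hη0, hηε, hη1⟩ : ∃ η : ℝ, 0 < η ∧ η < ε ∧ ‖x₁‖ + η < 1 := by
    have h1 : 0 < (1 - ‖x₁‖) / 2 := by linarith
    refine ⟨min (ε / 2) ((1 - ‖x₁‖) / 2), lt_min (by linarith) h1, ?_, ?_⟩
    · have := min_le_left (ε / 2) ((1 - ‖x₁‖) / 2)
      linarith
    · have := min_le_right (ε / 2) ((1 - ‖x₁‖) / 2)
      linarith
  have hsub : closedBall x₁ η ⊆ closedBall 0 1 := by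
    intro x hx
    have h2 : ‖x - x₁‖ ≤ η := by simpa [dist_eq_norm] using hx
    have h3 := norm_add_le (x - x₁) x₁
    rw [sub_add_cancel] at h3
    simp only [mem_closedBall_zero_iff]
    linarith
  have hcx : ContinuousOn (fun x => ‖F α β a x z₁‖) (sphere x₁ η) := by
    apply ContinuousOn.norm
    refine hdx.continuousOn.mono (fun x hx => ?_)
    have := hsub (sphere_subset_closedBall hx)
    simp only [mem_closedBall_zero_iff] at this
    simpa using this.trans_lt hR1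
  have hsne : (sphere x₁ η).Nonempty := by
    refine ⟨x₁ + η, ?_⟩
    simp [abs_of_pos hη0]
  obtain ⟨x₂, hx₂, hx₂min⟩ := (isCompact_sphere x₁ η).exists_isMinOn hsne hcx
  have hx₂ne : F α β a x₂ z₁ ≠ 0 := by
    have hd : dist x₂ x₁ = η := hx₂
    apply hεne (by rw [hd]; exact hηε)
    intro h4
    rw [Set.mem_singleton_iff] at h4
    rw [h4, dist_self] at hd
    linarith
  set s := ‖F α β a x₂ z₁‖ / 2 with hs
  have hs0 : 0 < s := by rw [hs]; have := norm_pos_iff.2 hx₂ne; linarith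
  have huc := hcomp.uniformContinuousOn_of_continuous hcont
  rw [Metric.uniformContinuousOn_iff] at huc
  obtain ⟨δ, hδ0, hδ⟩ := huc s hs0
  -- choose λ
  set lam : ℝ := max (1 / 2) (1 - δ / 2) with hlam
  have hlam0 : 0 < lam := lt_max_of_lt_left (by norm_num)
  have hlam1 : lam < 1 := max_lt (by norm_num) (by linarith)
  have hlam2 : 1 - lam ≤ δ / 2 := by have := le_max_right (1 / 2) (1 - δ / 2); linarith
  set z₂ : ℂ := lam * z₁ with hz₂
  have hz₂n : ‖z₂‖ = lam * ‖z₁‖ := by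
    rw [hz₂, norm_mul, Complex.norm_real, Real.norm_of_nonneg hlam0.le]
  have hz₂lt : ‖z₂‖ < ‖z₁‖ := by rw [hz₂n]; nlinarith
  have hclose : ∀ x, ‖x‖ ≤ 1 → ‖F α β a x z₂ - F α β a x z₁‖ < s := by
    intro x hx
    have h5 := hδ (x, z₂) ⟨by simpa using hx, by simp only [mem_closedBall_zero_iff]; linarith⟩
      (x, z₁) ⟨by simpa using hx, by simpa using hz₁⟩ ?_
    · rw [dist_eq_norm] at h5; exact h5
    · rw [Prod.dist_eq]
      simp only [dist_self]
      have : dist z₂ z₁ < δ := by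
        rw [dist_eq_norm, hz₂, show (lam : ℂ) * z₁ - z₁ = ((lam - 1 : ℝ) : ℂ) * z₁ by
          push_cast; ring, norm_mul, Complex.norm_real, Real.norm_of_nonpos (by linarith)]
        nlinarith
      exact max_lt hδ0 this
  have hz : ∃ x ∈ closedBall x₁ η, F α β a x z₂ = 0 := by
    apply exists_zero_of_lt (E := fun x => F α β a x z₂) hη0 _ hs0
    · intro x hx
      have h6 := hx₂min hx
      simp only [Set.mem_ofPred_eq] at h6
      have h7 := hclose x (by simpa using hsub (sphere_subset_closedBall hx))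
      have h8 := norm_sub_norm_le (F α β a x z₁) (F α β a x z₂)
      rw [norm_sub_rev] at h8
      have h9 : ‖F α β a x₂ z₁‖ = 2 * s := by rw [hs]; ring
      show s ≤ ‖F α β a x z₂‖
      linarith
    · have h7 := hclose x₁ hx₁
      rw [hF₁, sub_zero] at h7
      exact h7
    · have hRz : ‖z₂‖ * R < 1 := by nlinarith
      refine (F_diff_x ha α β hR1.le hRz).mono (fun x hx => ?_)
      have := hsub hx
      simp only [mem_closedBall_zero_iff] at this
      simpa using this.trans_lt hR1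
  obtain ⟨x₃, hx₃, hx₃0⟩ := hz
  have hmem : (x₃, z₂) ∈ Z := ⟨⟨hsub hx₃, by simp only [mem_closedBall_zero_iff]; linarith⟩, hx₃0⟩
  have := hmin hmem
  simp only [Set.mem_ofPred_eq] at this
  linarith

end Pool.Agent.H978R3
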