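import Pool.Agent.H978R3.ExcD

/-!
Extraction of a locally uniformly convergent subsequence from coefficient bounds,
and the kernel expansion.
-/

open Metric Filter Topology Finset ComplexConjugate

namespace Pool.Agent.H978R3

theorem GC_of_bound {b : ℕ → ℂ} (h : ∀ r : ℝ, 0 < r → r < 1 → ∃ C : ℝ, ∀ n, ‖b n‖ * r ^ n ≤ C) :
    GC b := by
  intro ρ h0 h1
  obtain ⟨r, hr, hr1⟩ := exists_between h1
  have hr0 : 0 < r := h0.trans_lt hr
  obtain ⟨C, hC⟩ := h r hr0 hr1
  have hq : ρ / r < 1 := by rw [div_lt_one hr0]; exact hr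
  refine Summable.of_nonneg_of_le (fun n => by positivity) (fun n => ?_)
    ((summable_geometric_of_lt_one (by positivity : (0 : ℝ) ≤ ρ / r) hq).mul_left C)
  have : ‖b n‖ * ρ ^ n = (‖b n‖ * r ^ n) * (ρ / r) ^ n := by rw [div_pow]; field_simp
  rw [this]
  have := hC n
  gcongr

theorem montel (a : ℕ → ℕ → ℂ)
    (h : ∀ r : ℝ, 0 < r → r < 1 → ∃ C : ℝ, ∀ k n, ‖a k n‖ * r ^ n ≤ C) :
    ∃ (b : ℕ → ℂ) (s : ℕ → ℕ), StrictMono s ∧ GC b ∧
      TendstoLocallyUniformlyOn (fun k => S (a (s k))) (S b) atTop (ball 0 1) := by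
  obtain ⟨C₀, hC₀⟩ := h (1 / 2) (by norm_num) (by norm_num)
  have hbd : ∀ k n, ‖a k n‖ ≤ C₀ * 2 ^ n := by
    intro k n
    have h1 := hC₀ k n
    have h3 : (0 : ℝ) < 2 ^ n := by positivity
    have h4 : (1 / 2 : ℝ) ^ n * 2 ^ n = 1 := by rw [← mul_pow]; norm_num
    calc ‖a k n‖ = (‖a k n‖ * (1 / 2) ^ n) * 2 ^ n := by rw [mul_assoc, h4, mul_one]
      _ ≤ _ := by gcongr
  have hcomp : IsCompact (Set.univ.pi (fun n : ℕ => closedBall (0 : ℂ) (C₀ * 2 ^ n))) :=
    isCompact_univ_pi (fun n => isCompact_closedBall _ _)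
  obtain ⟨b, hb, s, hs, hlim⟩ := hcomp.tendsto_subseq (x := a) (fun k => by
    intro n _; simpa using hbd k n)
  have hlim' : ∀ n, Tendsto (fun k => a (s k) n) atTop (𝓝 (b n)) := by
    intro n; exact (tendsto_pi_nhds.1 hlim) n
  have hbb : ∀ r : ℝ, 0 < r → r < 1 → ∃ C : ℝ, (∀ k n, ‖a k n‖ * r ^ n ≤ C) ∧ ∀ n, ‖b n‖ * r ^ n ≤ C := by
    intro r hr0 hr1
    obtain ⟨C, hC⟩ := h r hr0 hr1
    refine ⟨C, hC, fun n => ?_⟩
    exact le_of_tendsto ((hlim' n).norm.mul_const _) (Eventually.of_forall (fun k => hC (s k) n))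
  have hGb : GC b := GC_of_bound (fun r h0 h1 => by
    obtain ⟨C, _, hC⟩ := hbb r h0 h1; exact ⟨C, hC⟩)
  have hGa : ∀ k, GC (a k) := fun k => GC_of_bound (fun r h0 h1 => by
    obtain ⟨C, hC⟩ := h r h0 h1; exact ⟨C, hC k⟩)
  refine ⟨b, s, hs, hGb, ?_⟩
  rw [Metric.tendstoLocallyUniformlyOn_iff]
  intro ε hε x hx
  have hx1 : ‖x‖ < 1 := by simpa using hx
  obtain ⟨ρ, hρ, hρ1⟩ := exists_between hx1
  obtain ⟨r, hr, hr1⟩ := exists_between hρ1
  have hρ0 : 0 ≤ ρ := (norm_nonneg x).trans hρ.le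
  have hr0 : 0 < r := hρ0.trans_lt hr
  obtain ⟨C, hCa, hCb⟩ := hbb r hr0 hr1
  have hq : ρ / r < 1 := by rw [div_lt_one hr0]; exact hr
  have hdom : Tendsto (fun k => ∑' n, ‖a (s k) n - b n‖ * ρ ^ n) atTop (𝓝 (∑' _ : ℕ, (0 : ℝ))) := by
    apply tendsto_tsum_of_dominated_convergence (bound := fun n => 2 * C * (ρ / r) ^ n)
    · exact (summable_geometric_of_lt_one (by positivity : (0 : ℝ) ≤ ρ / r) hq).mul_left _
    · intro n
      have h1 : Tendsto (fun k => a (s k) n - b n) atTop (𝓝 0) := by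
        have := (hlim' n).sub_const (b n)
        simpa using this
      have h2 := h1.norm.mul_const (ρ ^ n)
      simpa using h2
    · refine Eventually.of_forall (fun k n => ?_)
      rw [Real.norm_of_nonneg (by positivity)]
      have e : ‖a (s k) n - b n‖ * ρ ^ n = (‖a (s k) n - b n‖ * r ^ n) * (ρ / r) ^ n := by
        rw [div_pow]; field_simp
      rw [e]
      have h3 : ‖a (s k) n - b n‖ * r ^ n ≤ 2 * C := by
        have h4 := norm_sub_le (a (s k) n) (b n)
        have h5 := hCa (s k) n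
        have h6 := hCb n
        have h7 : (0 : ℝ) ≤ r ^ n := by positivity
        nlinarith
      gcongr
  rw [tsum_zero] at hdom
  have hev := hdom.eventually_lt_const hε
  refine ⟨ball 0 ρ, mem_nhdsWithin_of_mem_nhds (isOpen_ball.mem_nhds (by simpa using hρ)), ?_⟩
  filter_upwards [hev] with k hk y hy
  have hyρ : ‖y‖ ≤ ρ := (mem_ball_zero_iff.1 hy).le
  have hy1 : ‖y‖ < 1 := hyρ.trans_lt hρ1
  rw [dist_comm, dist_eq_norm]
  have hsub := ((hGa (s k)).hasSum hy1).sub (hGb.hasSum hy1)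
  have hsum : Summable (fun n => ‖a (s k) n - b n‖ * ρ ^ n) := by
    have h1 := (hGa (s k)) ρ hρ0 hρ1
    have h2 := hGb ρ hρ0 hρ1
    refine Summable.of_nonneg_of_le (fun n => by positivity) (fun n => ?_) (h1.add h2)
    rw [← add_mul]
    have := norm_sub_le (a (s k) n) (b n)
    gcongr
  refine lt_of_le_of_lt (hsub.norm_le_of_bounded hsum.hasSum (fun n => ?_)) hk
  rw [← sub_mul, norm_mul, norm_pow]
  gcongr

/-- binomial series -/
theorem binom_hasSum (a : ℂ) {w : ℂ} (hw : ‖w‖ < 1) :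
    HasSum (fun n => bc a n * w ^ n) ((1 + w) ^ a) := by
  have h := (Complex.one_add_cpow_hasFPowerSeriesOnBall_zero (a := a)).hasSum (y := w) ?_
  · rw [zero_add] at h
    have e : (fun n => (binomialSeries ℂ a n) fun _ => w) = fun n => bc a n * w ^ n := by
      funext n
      rw [binomialSeries_apply]
      simp [bc]
    rw [e] at h
    exact h
  · rw [Metric.mem_eball, edist_zero_right]
    rw [← ofReal_norm, ← ENNReal.ofReal_one]
    exact (ENNReal.ofReal_lt_ofReal_iff one_pos).2 hw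

theorem kernel_hasSum (α β : ℂ) {x z : ℂ} (hx : ‖x‖ ≤ 1) (hz : ‖z‖ < 1) :
    HasSum (fun n => cf α β x n * z ^ n) ((1 + x * z) ^ α * (1 - z) ^ (-β)) := by
  have hxz : ‖x * z‖ < 1 := by
    rw [norm_mul]
    calc ‖x‖ * ‖z‖ ≤ 1 * ‖z‖ := by gcongr
      _ < 1 := by rw [one_mul]; exact hz
  have h1 := binom_hasSum α hxz
  have h2 : HasSum (fun n => gm β n * z ^ n) ((1 - z) ^ (-β)) := by
    have := binom_hasSum (-β) (w := -z) (by rwa [norm_neg])
    have e : (fun n => bc (-β) n * (-z) ^ n) = fun n => gm β n * z ^ n := by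
      funext n
      rw [gm_eq, neg_pow]; ring
    rw [e, ← sub_eq_add_neg] at this
    exact this
  have s1 : Summable (fun n => ‖bc α n * (x * z) ^ n‖) := (GC_bc α).summable hxz
  have s2 : Summable (fun n => ‖gm β n * z ^ n‖) := (GC_gm β).summable hz
  have h3 := hasSum_sum_range_mul_of_summable_norm s1 s2
  rw [h1.tsum_eq, h2.tsum_eq] at h3
  have e : (fun n => ∑ k ∈ range (n + 1), bc α k * (x * z) ^ k * (gm β (n - k) * z ^ (n - k)))
      = fun n => cf α β x n * z ^ n := by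
    funext n
    rw [cf, Finset.sum_mul]
    apply Finset.sum_congr rfl
    intro k hk
    have hk' : k ≤ n := by simpa [Nat.lt_succ_iff] using hk
    have : z ^ n = z ^ k * z ^ (n - k) := by
      rw [← pow_add, Nat.add_sub_cancel' hk']
    rw [this, mul_pow]; ring
  rw [e] at h3
  exact h3

end Pool.Agent.H978R3
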