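import Pool.Agent.H978R3.Expand

/-!
The entire profile function and its zero.
-/

open Metric Filter Topology Finset

namespace Pool.Agent.H978R3

/-- coefficients of the profile function -/
noncomputable def dco (α b : ℂ) (j : ℕ) : ℂ := bc α j / poch b j

theorem poch_ne_zero {b : ℂ} (hb : ∀ n : ℕ, b + n ≠ 0) (j : ℕ) : poch b j ≠ 0 :=
  Finset.prod_ne_zero_iff.2 (fun i _ => hb i)

theorem dco_zero (α b : ℂ) : dco α b 0 = 1 := by simp [dco, bc_zero, poch_zero]

theorem dco_succ (α : ℂ) {b : ℂ} (hb : ∀ n : ℕ, b + n ≠ 0) (j : ℕ) :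
    dco α b (j + 1) = dco α b j * ((α - j) / (b + j)) / ((j : ℂ) + 1) := by
  have h4 : (j : ℂ) + 1 ≠ 0 := by exact_mod_cast Nat.succ_ne_zero j
  have h1 := bc_succ α j
  have h2 := poch_ne_zero hb j
  have h3 := hb j
  unfold dco
  rw [poch_succ]
  field_simp
  linear_combination h1

theorem exists_ratio_bound (α : ℂ) {b : ℂ} (_hb : ∀ n : ℕ, b + n ≠ 0) :
    ∃ K : ℝ, 0 < K ∧ ∀ j : ℕ, ‖(α - j) / (b + j)‖ ≤ K := by
  have h : Tendsto (fun n : ℕ => ‖((n : ℂ) + (-α)) / ((n : ℂ) + b)‖) atTop (𝓝 1) :=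
    tendsto_ratio (-α) b
  obtain ⟨K, hK⟩ := h.bddAbove_range
  refine ⟨max K 1, by positivity, fun j => ?_⟩
  have h1 := hK ⟨j, rfl⟩
  have e : ‖(α - j) / (b + j)‖ = ‖((j : ℂ) + (-α)) / ((j : ℂ) + b)‖ := by
    rw [show (α - (j : ℂ)) = -((j : ℂ) + (-α)) by ring, show b + (j : ℂ) = (j : ℂ) + b by ring,
      neg_div, norm_neg]
  rw [e]
  exact h1.trans (le_max_left _ _)

theorem norm_dco_le (α : ℂ) {b : ℂ} (hb : ∀ n : ℕ, b + n ≠ 0) {K : ℝ} (hK0 : 0 < K)
    (hK : ∀ j : ℕ, ‖(α - j) / (b + j)‖ ≤ K) (j : ℕ) : ‖dco α b j‖ ≤ K ^ j / j.factorial := by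
  induction j with
  | zero => simp [dco_zero]
  | succ j ih =>
    rw [dco_succ α hb, norm_div, norm_mul]
    have e : ‖(j : ℂ) + 1‖ = (j : ℝ) + 1 := by
      have : (j : ℂ) + 1 = ((j + 1 : ℕ) : ℂ) := by push_cast; ring
      rw [this, Complex.norm_natCast]; push_cast; ring
    rw [e, Nat.factorial_succ]
    push_cast
    have hj : (0 : ℝ) < (j : ℝ) + 1 := by positivity
    have hf : (0 : ℝ) < (j.factorial : ℝ) := by exact_mod_cast j.factorial_pos
    calc ‖dco α b j‖ * ‖(α - j) / (b + j)‖ / ((j : ℝ) + 1)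
        ≤ (K ^ j / j.factorial) * K / ((j : ℝ) + 1) := by gcongr; exact hK j
      _ = _ := by field_simp; ring

/-- the profile function -/
noncomputable def prof (α b : ℂ) : ℂ → ℂ := S (dco α b)

theorem prof_hasSum (α : ℂ) {b : ℂ} (hb : ∀ n : ℕ, b + n ≠ 0) (t : ℂ) :
    HasSum (fun j => dco α b j * t ^ j) (prof α b t) := by
  obtain ⟨K, hK0, hK⟩ := exists_ratio_bound α hb
  have hs : Summable (fun j => dco α b j * t ^ j) := by
    refine Summable.of_norm_bounded (Real.summable_pow_div_factorial (K * ‖t‖)) (fun j => ?_)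
    rw [norm_mul, norm_pow, mul_pow]
    calc ‖dco α b j‖ * ‖t‖ ^ j ≤ (K ^ j / j.factorial) * ‖t‖ ^ j := by
          gcongr; exact norm_dco_le α hb hK0 hK j
      _ = _ := by ring
  exact hs.hasSum

theorem prof_norm_le (α : ℂ) {b : ℂ} (hb : ∀ n : ℕ, b + n ≠ 0) :
    ∃ K : ℝ, 0 < K ∧ ∀ t, ‖prof α b t‖ ≤ Real.exp (K * ‖t‖) := by
  obtain ⟨K, hK0, hK⟩ := exists_ratio_bound α hb
  refine ⟨K, hK0, fun t => ?_⟩
  have h1 : HasSum (fun j : ℕ => (K * ‖t‖) ^ j / j.factorial) (Real.exp (K * ‖t‖)) := by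
    have := NormedSpace.exp_series_hasSum_exp' (𝕂 := ℝ) (𝔸 := ℝ) (K * ‖t‖)
    rw [← Real.exp_eq_exp_ℝ] at this
    simpa [div_eq_inv_mul] using this
  refine (prof_hasSum α hb t).norm_le_of_bounded h1 (fun j => ?_)
  rw [norm_mul, norm_pow, mul_pow]
  calc ‖dco α b j‖ * ‖t‖ ^ j ≤ (K ^ j / j.factorial) * ‖t‖ ^ j := by
        gcongr; exact norm_dco_le α hb hK0 hK j
    _ = _ := by ring

theorem prof_differentiable (α : ℂ) {b : ℂ} (hb : ∀ n : ℕ, b + n ≠ 0) :
    Differentiable ℂ (prof α b) := by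
  obtain ⟨K, hK0, hK⟩ := exists_ratio_bound α hb
  intro t
  have : DifferentiableOn ℂ (fun w => ∑' j, dco α b j * w ^ j) (ball 0 (‖t‖ + 1)) := by
    apply Complex.differentiableOn_tsum_of_summable_norm
      (Real.summable_pow_div_factorial (K * (‖t‖ + 1)))
    · intro i; fun_prop
    · exact isOpen_ball
    · intro j w hw
      have hw' : ‖w‖ ≤ ‖t‖ + 1 := (mem_ball_zero_iff.1 hw).le
      rw [norm_mul, norm_pow, mul_pow]
      calc ‖dco α b j‖ * ‖w‖ ^ j ≤ (K ^ j / j.factorial) * (‖t‖ + 1) ^ j := by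
            gcongr; exact norm_dco_le α hb hK0 hK j
        _ = _ := by ring
  exact this.differentiableAt (isOpen_ball.mem_nhds (by simp))

/-- An entire zero-free function of exponential type with value one at zero satisfies `f' = c f`. -/
theorem zero_free_exp {f : ℂ → ℂ} (hf : Differentiable ℂ f) (h0 : f 0 = 1) {K : ℝ} (hK : 0 < K)
    (hle : ∀ t, ‖f t‖ ≤ Real.exp (K * ‖t‖)) (hne : ∀ t, f t ≠ 0) :
    ∃ c : ℂ, ∀ t, deriv f t = c * f t := by
  have hd : Differentiable ℂ (fun t => deriv f t / f t) := by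
    intro t
    exact ((hf.contDiff (n := 2)).differentiable_deriv_two t).div (hf t) (hne t)
  obtain ⟨ψ₀, hψ₀⟩ := hd.isExactOn_univ
  set ψ : ℂ → ℂ := fun t => ψ₀ t - ψ₀ 0 with hψdef
  have hψ : ∀ t, HasDerivAt ψ (deriv f t / f t) t := by
    intro t
    exact (hψ₀ t (Set.mem_univ t)).sub_const _
  have hψdiff : Differentiable ℂ ψ := fun t => (hψ t).differentiableAt
  have hψ0 : ψ 0 = 0 := by simp [hψdef]
  -- f = exp ψ
  have hconst : ∀ t, f t * Complex.exp (-ψ t) = 1 := by
    intro t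
    have hder : ∀ s, HasDerivAt (fun s => f s * Complex.exp (-ψ s)) 0 s := by
      intro s
      have h1 := (hf s).hasDerivAt
      have h2 : HasDerivAt (fun s => Complex.exp (-ψ s))
          (Complex.exp (-ψ s) * (-(deriv f s / f s))) s := ((hψ s).fun_neg).cexp
      have h3 := h1.mul h2
      have e : f s * (deriv f s / f s) = deriv f s := mul_div_cancel₀ _ (hne s)
      have e0 : deriv f s * Complex.exp (-ψ s) + f s * (Complex.exp (-ψ s) * (-(deriv f s / f s))) = 0 := by
        linear_combination (-Complex.exp (-ψ s)) * e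
      rw [← e0]
      exact h3
    have h4 := is_const_of_deriv_eq_zero (f := fun s => f s * Complex.exp (-ψ s))
      (fun s => (hder s).differentiableAt) (fun s => (hder s).deriv) t 0
    simpa [h0, hψ0] using h4
  have hfe : ∀ t, f t = Complex.exp (ψ t) := by
    intro t
    have := hconst t
    rw [Complex.exp_neg] at this
    field_simp at this
    exact this
  have hre : ∀ t, (ψ t).re ≤ K * ‖t‖ := by
    intro t
    have := hle t
    rw [hfe, Complex.norm_exp] at this
    exact Real.exp_le_exp.1 this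
  have hψb : ∀ R > 0, ∀ t, ‖t‖ ≤ R → ‖ψ t‖ ≤ 4 * K * R := by
    intro R hR t ht
    have h1 := Complex.borelCaratheodory_zero (f := ψ) (M := 2 * K * R) (R := 2 * R) (z := t)
      (by positivity) hψdiff.differentiableOn ?_ (by positivity)
      (by simp only [mem_ball_zero_iff]; linarith) hψ0
    · refine h1.trans ?_
      rw [div_le_iff₀ (by linarith)]
      have : 0 ≤ K * R := by positivity
      nlinarith [norm_nonneg t]
    · intro u hu
      have hu' : ‖u‖ < 2 * R := by simpa using hu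
      simp only [Set.mem_ofPred_eq]
      refine (hre u).trans ?_
      nlinarith
  have hder : ∀ t, ‖deriv ψ t‖ ≤ 8 * K := by
    intro t
    have hR : 0 < ‖t‖ + 1 := by positivity
    have h1 := Complex.norm_deriv_le_of_forall_mem_sphere_norm_le (c := t) (R := ‖t‖ + 1)
      (C := 8 * K * (‖t‖ + 1)) (f := ψ) hR hψdiff.diffContOnCl ?_
    · refine h1.trans (le_of_eq ?_)
      field_simp
    · intro z hz
      have hz' : ‖z - t‖ = ‖t‖ + 1 := by simpa [dist_eq_norm] using hz
      have : ‖z‖ ≤ 2 * (‖t‖ + 1) := by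
        have := norm_add_le (z - t) t
        rw [sub_add_cancel] at this
        linarith
      refine (hψb _ (by positivity) z this).trans (le_of_eq (by ring))
  have hdψ : Differentiable ℂ (deriv ψ) := by
    have : deriv ψ = fun t => deriv f t / f t := by funext t; exact (hψ t).deriv
    rw [this]; exact hd
  refine ⟨deriv ψ 0, fun t => ?_⟩
  have hb : Bornology.IsBounded (Set.range (deriv ψ)) := by
    rw [isBounded_iff_forall_norm_le]
    exact ⟨8 * K, by rintro _ ⟨t, rfl⟩; exact hder t⟩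
  have h5 := hdψ.apply_eq_apply_of_bounded hb t 0
  rw [(hψ t).deriv] at h5
  rw [← h5]
  have := hne t
  field_simp

theorem prof_has_zero {α b : ℂ} (hα : α ≠ 0) (hβ : α + b ≠ 0) (hb : ∀ n : ℕ, b + n ≠ 0) :
    ∃ t₀ : ℂ, t₀ ≠ 0 ∧ prof α b t₀ = 0 := by
  by_contra hcon
  push Not at hcon
  have h0 : prof α b 0 = 1 := by rw [prof, S_zero, dco_zero]
  have hne : ∀ t, prof α b t ≠ 0 := by
    intro t ht
    by_cases h : t = 0
    · rw [h, h0] at ht; exact one_ne_zero ht
    · exact hcon t h ht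
  obtain ⟨K, hK0, hK⟩ := prof_norm_le α hb
  obtain ⟨c, hc⟩ := zero_free_exp (prof_differentiable α hb) h0 hK0 hK hne
  have hGC : GC (dco α b) := by
    obtain ⟨K, hK0, hK⟩ := exists_ratio_bound α hb
    intro ρ h0 h1
    refine Summable.of_nonneg_of_le (fun n => by positivity) (fun j => ?_)
      (Real.summable_pow_div_factorial K)
    calc ‖dco α b j‖ * ρ ^ j ≤ (K ^ j / j.factorial) * 1 := by
          gcongr
          · exact norm_dco_le α hb hK0 hK j
          · exact pow_le_one₀ h0 h1.le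
      _ = _ := by ring
  have hcoef : ∀ n, iteratedDeriv n (prof α b) 0 / (n.factorial : ℂ) = dco α b n :=
    fun n => coeff_eq_of_eqOn hGC (fun z _ => rfl) n
  have hderiv : deriv (prof α b) = fun t => c * prof α b t := by funext t; exact hc t
  have h1 := hcoef 1
  rw [iteratedDeriv_one, hderiv] at h1
  have h2 := hcoef 2
  rw [iteratedDeriv_succ, iteratedDeriv_one, hderiv] at h2
  have h3 : deriv (fun t => c * prof α b t) 0 = c * (c * prof α b 0) := by
    rw [deriv_const_mul _ (prof_differentiable α hb 0), hc 0]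
  rw [h3] at h2
  rw [h0] at h2
  simp only [h0, Nat.factorial_one, Nat.cast_one, div_one, mul_one, Nat.factorial_two,
    Nat.cast_ofNat] at h1 h2
  have e1 := dco_succ α hb 0
  have e2 := dco_succ α hb 1
  have b0 := hb 0
  have b1 := hb 1
  rw [dco_zero] at e1
  rw [e1] at e2
  simp only [Nat.cast_zero, zero_add, sub_zero, add_zero, Nat.cast_one, div_one, one_mul] at e1 e2 b0 b1
  rw [e1] at h1
  rw [e2, h1] at h2
  have h5 : (α - 1) * b = α * (b + 1) := by
    field_simp at h2
    linear_combination (-1 / 2) * h2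
  apply hβ
  linear_combination -h5

end Pool.Agent.H978R3
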