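import Pool.Agent.H978R3.Hurwitz
import Pool.Agent.H978R3.ZeroF
import Pool.Agent.H978R3.GoodPoint

/-!
Local analysis at a good point, non-exceptional case.
-/

open Metric Filter Topology Finset

namespace Pool.Agent.H978R3

theorem norm_cexp_sub_one_le {x : ℂ} (hx : ‖x‖ ≤ 1) : ‖Complex.exp x - 1‖ ≤ 2 * ‖x‖ :=
  Complex.norm_exp_sub_one_le hx

/-- local comparison with an exponential -/
theorem local_exp {p : ℂ → ℂ} {z A : ℂ} {R ε : ℝ} (hR : 0 < R) (hA : A ≠ 0)
    (hp : ∀ w ∈ closedBall z (R / ‖A‖), DifferentiableAt ℂ p w)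
    (hd : ∀ w ∈ closedBall z (R / ‖A‖), ‖deriv p w - A‖ ≤ ε * ‖A‖) (hε : R * ε ≤ 1)
    (hε0 : 0 ≤ ε) :
    ∀ w ∈ closedBall z (R / ‖A‖),
      ‖Complex.exp (p w - p z) - Complex.exp (A * (w - z))‖ ≤ 2 * Real.exp R * (R * ε) := by
  intro w hw
  have hA0 : 0 < ‖A‖ := norm_pos_iff.2 hA
  have hzmem : z ∈ closedBall z (R / ‖A‖) := mem_closedBall_self (by positivity)
  have h1 : ‖(fun w => p w - A * w) w - (fun w => p w - A * w) z‖ ≤ (ε * ‖A‖) * ‖w - z‖ := by
    refine Convex.norm_image_sub_le_of_norm_deriv_le (𝕜 := ℂ) (f := fun w => p w - A * w)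
      (s := closedBall z (R / ‖A‖)) (C := ε * ‖A‖) ?_ ?_ (convex_closedBall _ _) hzmem hw
    · intro x hx
      exact (hp x hx).fun_sub (by fun_prop)
    · intro x hx
      have : deriv (fun w => p w - A * w) x = deriv p x - A := by
        rw [deriv_fun_sub (hp x hx) (by fun_prop)]
        simp
      rw [this]; exact hd x hx
  have hwz : ‖w - z‖ ≤ R / ‖A‖ := by simpa [dist_eq_norm] using hw
  set e := p w - p z - A * (w - z) with he
  have h2 : ‖e‖ ≤ R * ε := by
    have : e = (fun w => p w - A * w) w - (fun w => p w - A * w) z := by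
      simp only [he]; ring
    rw [this]
    refine h1.trans ?_
    calc ε * ‖A‖ * ‖w - z‖ ≤ ε * ‖A‖ * (R / ‖A‖) := by gcongr
      _ = R * ε := by field_simp
  have h3 : Complex.exp (p w - p z) - Complex.exp (A * (w - z))
      = Complex.exp (A * (w - z)) * (Complex.exp e - 1) := by
    have h7 : p w - p z = A * (w - z) + e := by simp only [he]; ring
    rw [h7, Complex.exp_add]; ring
  rw [h3, norm_mul]
  have h4 : ‖Complex.exp (A * (w - z))‖ ≤ Real.exp R := by
    rw [Complex.norm_exp]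
    apply Real.exp_le_exp.2
    refine (Complex.re_le_norm _).trans ?_
    rw [norm_mul]
    calc ‖A‖ * ‖w - z‖ ≤ ‖A‖ * (R / ‖A‖) := by gcongr
      _ = R := by field_simp
  have h5 := norm_cexp_sub_one_le (h2.trans hε)
  calc ‖Complex.exp (A * (w - z))‖ * ‖Complex.exp e - 1‖ ≤ Real.exp R * (2 * ‖e‖) := by gcongr
    _ ≤ Real.exp R * (2 * (R * ε)) := by gcongr
    _ = _ := by ring

/-- the constant `S₀` -/
theorem summable_S0 (α : ℂ) {b : ℂ} (hb : ∀ n : ℕ, b + n ≠ 0) :
    Summable (fun j : ℕ => ‖dco α b j‖ * j.factorial * (1 / 2 : ℝ) ^ j) := by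
  have h : GC (fun j => dco α b j * (j.factorial : ℂ)) := by
    apply GC_of_ratio (s := fun j => -(((j : ℂ) + (-α)) / ((j : ℂ) + b)))
    · intro j
      rw [dco_succ α hb, Nat.factorial_succ]
      have h4 : (j : ℂ) + 1 ≠ 0 := by exact_mod_cast Nat.succ_ne_zero j
      have h5 := hb j
      have h6 : (j : ℂ) + b ≠ 0 := by rw [add_comm]; exact h5
      push_cast
      field_simp
      ring
    · simp only [norm_neg]
      exact tendsto_ratio (-α) b
  refine (h (1 / 2) (by norm_num) (by norm_num)).congr (fun j => ?_)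
  rw [norm_mul, Complex.norm_natCast]

/-- value at `x = -1` -/
theorem F_neg_one {a : ℕ → ℂ} (ha : GC a) (α β : ℂ) {z : ℂ} (hz : ‖z‖ < 1) :
    F α β a (-1) z = S (K a (β - α) 0) z := by
  obtain ⟨y₁, hy₁, hex⟩ := expand α β (norm_nonneg z) hz
  have h := hex a ha z le_rfl 0 (by simpa using hy₁)
  have h2 : HasSum (fun j => bc α j * ((0 : ℂ) * z) ^ j * S (K a (β - α) j) z)
      (S (K a (β - α) 0) z) := by
    convert hasSum_single (f := fun j => bc α j * ((0 : ℂ) * z) ^ j * S (K a (β - α) j) z) 0 ?_ using 1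
    · simp [bc_zero]
    · intro j hj; simp [hj]
  have := h.unique h2
  rwa [zero_sub] at this

/-- comparison of `E` with the profile -/
theorem E_sub_prof {a : ℕ → ℂ} (ha : GC a) {α β : ℂ} (hb : ∀ n : ℕ, (β - α) + n ≠ 0)
    {r y₁ : ℝ}
    (hex : ∀ a : ℕ → ℂ, GC a → ∀ z : ℂ, ‖z‖ ≤ r → ∀ y : ℂ, ‖y‖ < y₁ →
      HasSum (fun j => bc α j * (y * z) ^ j * S (K a (β - α) j) z) (F α β a (y - 1) z))
    {z A : ℂ} (hz : ‖z‖ ≤ r) (hz1 : ‖z‖ < 1) (hz0 : z ≠ 0) (hA : A ≠ 0) {R G : ℝ} (hR : 0 < R)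
    (hball : ∀ w ∈ closedBall z (R / ‖A‖), ‖w‖ < 1)
    (hh : S (K a (β - α) 0) z ≠ 0)
    (hG : ∀ w ∈ closedBall z (R / ‖A‖),
      ‖S (K a (β - α) 0) w / S (K a (β - α) 0) z - Complex.exp (A * (w - z))‖ ≤ G)
    {t : ℂ} (ht : ‖t‖ ≤ R / 2) (hty : ‖t / (A * z)‖ < y₁) :
    ‖F α β a (t / (A * z) - 1) z / S (K a (β - α) 0) z - prof α (β - α) t‖
      ≤ G * ∑' j : ℕ, ‖dco α (β - α) j‖ * j.factorial * (1 / 2 : ℝ) ^ j := by
  set b := β - α with hbdef
  set h := S (K a b 0) with hhdef
  have hA0 : 0 < ‖A‖ := norm_pos_iff.2 hA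
  have hsum := hex a ha z hz (t / (A * z)) hty
  have hterm : ∀ j, bc α j * (t / (A * z) * z) ^ j * S (K a b j) z
      = dco α b j * t ^ j * (iteratedDeriv j h z / A ^ j) := by
    intro j
    have h1 := iteratedDeriv_K ha b 0 j hz1
    simp only [Nat.cast_zero, add_zero, zero_add] at h1
    have h2 := poch_ne_zero hb j
    have h3 : S (K a b j) z = iteratedDeriv j h z / poch b j := by
      rw [hhdef, h1]; field_simp
    have h4 : t / (A * z) * z = t / A := by field_simp
    rw [h3, h4, div_pow, dco]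
    field_simp
  simp only [hterm] at hsum
  have hsum2 := (hsum.div_const (h z)).sub (prof_hasSum α hb t)
  have hS0 := (summable_S0 α hb).hasSum.mul_left G
  refine hsum2.norm_le_of_bounded hS0 (fun j => ?_)
  -- Cauchy estimate
  have hcd : ‖iteratedDeriv j (fun w => h w / h z - Complex.exp (A * (w - z))) z‖
      ≤ j.factorial * G / (R / ‖A‖) ^ j := by
    apply Complex.norm_iteratedDeriv_le_of_forall_mem_sphere_norm_le j (by positivity)
    · apply DifferentiableOn.diffContOnCl
      rw [closure_ball _ (by positivity)]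
      have hd : DifferentiableOn ℂ h (closedBall z (R / ‖A‖)) := by
        refine (ha.K b 0).differentiableOn.mono (fun w hw => ?_)
        simpa using hball w hw
      exact (hd.div_const _).sub (by fun_prop)
    · intro w hw
      exact hG w (sphere_subset_closedBall hw)
  have hcd2 : iteratedDeriv j (fun w => h w / h z - Complex.exp (A * (w - z))) z
      = iteratedDeriv j h z / h z - A ^ j := by
    have hcont : ContDiffAt ℂ j (fun w => h w / h z) z := by
      have : DifferentiableOn ℂ (fun w => h w / h z) (ball 0 1) :=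
        (ha.K b 0).differentiableOn.div_const _
      exact (this.analyticAt (isOpen_ball.mem_nhds (by simpa using hz1))).contDiffAt
    have hcont2 : ContDiffAt ℂ j (fun w => Complex.exp (A * (w - z))) z := by fun_prop
    have e1 := iteratedDeriv_fun_sub hcont hcont2
    rw [e1]
    congr 1
    · have : (fun w => h w / h z) = fun w => (h z)⁻¹ * h w := by funext w; field_simp
      rw [this, iteratedDeriv_const_mul_field]
      field_simp
    · have : (fun w : ℂ => Complex.exp (A * (w - z))) =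
          fun w => Complex.exp (-(A * z)) * Complex.exp (A * w) := by
        funext w; rw [← Complex.exp_add]; congr 1; ring
      rw [this, iteratedDeriv_const_mul_field, iteratedDeriv_cexp_const_mul]
      have e5 : Complex.exp (-(A * z)) * Complex.exp (A * z) = 1 := by
        rw [← Complex.exp_add]; simp
      linear_combination (A ^ j) * e5
  rw [hcd2] at hcd
  have hA1 : A ^ j ≠ 0 := pow_ne_zero _ hA
  have e3 : dco α b j * t ^ j * (iteratedDeriv j h z / A ^ j) / h z - dco α b j * t ^ j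
      = dco α b j * t ^ j * ((iteratedDeriv j h z / h z - A ^ j) / A ^ j) := by
    field_simp
  rw [e3, norm_mul, norm_mul, norm_pow, norm_div, norm_pow]
  have hG0 : 0 ≤ G := (norm_nonneg _).trans (hG z (mem_closedBall_self (by positivity)))
  have hfac : (0 : ℝ) < j.factorial := by exact_mod_cast j.factorial_pos
  calc ‖dco α b j‖ * ‖t‖ ^ j * (‖iteratedDeriv j h z / h z - A ^ j‖ / ‖A‖ ^ j)
      ≤ ‖dco α b j‖ * (R / 2) ^ j * ((j.factorial * G / (R / ‖A‖) ^ j) / ‖A‖ ^ j) := by gcongr
    _ = G * (‖dco α b j‖ * j.factorial * (1 / 2 : ℝ) ^ j) := by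
        rw [div_pow, div_pow, one_div, inv_pow]
        field_simp

end Pool.Agent.H978R3
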