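import Pool.Agent.H978R3.NonExcA

/-!
No good points of large size, non-exceptional case.
-/

open Metric Filter Topology Finset ComplexConjugate

namespace Pool.Agent.H978R3

theorem geo {s Q : ℂ} (hQ : Q ≠ 0) (h : ‖s‖ ^ 2 ≤ 2 * (s * conj Q).re) : ‖s / Q - 1‖ ≤ 1 := by
  have h1 : s / Q - 1 = (s - Q) / Q := by field_simp
  rw [h1, norm_div, div_le_one (norm_pos_iff.2 hQ)]
  have h2 := Complex.normSq_sub s Q
  rw [Complex.normSq_eq_norm_sq, Complex.normSq_eq_norm_sq, Complex.normSq_eq_norm_sq] at h2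
  have h3 : ‖s - Q‖ ^ 2 ≤ ‖Q‖ ^ 2 := by rw [h2]; linarith
  exact (pow_le_pow_iff_left₀ (norm_nonneg _) (norm_nonneg _) two_ne_zero).1 h3

/-- logarithm of a zero-free function on the disc -/
theorem log_exists {h : ℂ → ℂ} (hd : DifferentiableOn ℂ h (ball 0 1))
    (hne : ∀ z, ‖z‖ < 1 → h z ≠ 0) :
    ∃ p : ℂ → ℂ, (∀ w, ‖w‖ < 1 → HasDerivAt p (deriv h w / h w) w) ∧
      ∀ w z, ‖w‖ < 1 → ‖z‖ < 1 → h w / h z = Complex.exp (p w - p z) := by
  have hd2 : DifferentiableOn ℂ (fun w => deriv h w / h w) (ball 0 1) := by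
    apply (hd.deriv isOpen_ball).div hd
    intro z hz; exact hne z (by simpa using hz)
  obtain ⟨p, hp⟩ := hd2.isExactOn_ball
  have hp' : ∀ w, ‖w‖ < 1 → HasDerivAt p (deriv h w / h w) w := fun w hw => hp w (by simpa using hw)
  refine ⟨p, hp', ?_⟩
  intro w z hw hz
  have hder : ∀ s ∈ ball (0 : ℂ) 1, HasDerivAt (fun s => h s * Complex.exp (-p s)) 0 s := by
    intro s hs
    have hs' : ‖s‖ < 1 := by simpa using hs
    have h1 := (hd.differentiableAt (isOpen_ball.mem_nhds hs)).hasDerivAt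
    have h2 : HasDerivAt (fun s => Complex.exp (-p s))
          (Complex.exp (-p s) * (-(deriv h s / h s))) s := ((hp' s hs').fun_neg).cexp
    have h3 := h1.mul h2
    have e : h s * (deriv h s / h s) = deriv h s := mul_div_cancel₀ _ (hne s hs')
    have e0 : deriv h s * Complex.exp (-p s) + h s * (Complex.exp (-p s) * (-(deriv h s / h s))) = 0 := by
      linear_combination (-Complex.exp (-p s)) * e
    rw [← e0]
    exact h3
  have hconst : h w * Complex.exp (-p w) = h z * Complex.exp (-p z) :=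
    isOpen_ball.is_const_of_deriv_eq_zero (f := fun s => h s * Complex.exp (-p s))
    (convex_ball (0 : ℂ) 1).isPreconnected
    (fun s hs => (hder s hs).differentiableAt.differentiableWithinAt)
    (fun s hs => (hder s hs).deriv) (x := w) (y := z) (by simpa using hw) (by simpa using hz)
  have h5 := hne z hz
  rw [Complex.exp_neg, Complex.exp_neg] at hconst
  rw [Complex.exp_sub]
  have h6 := Complex.exp_ne_zero (p w)
  have h7 := Complex.exp_ne_zero (p z)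
  field_simp at hconst ⊢
  linear_combination hconst

/-- lower bound near a zero of finite order -/
theorem order_bound {f : ℂ → ℂ} {t₀ : ℂ} (hf : AnalyticAt ℂ f t₀)
    (hne : ¬ ∀ᶠ t in 𝓝 t₀, f t = 0) :
    ∃ (μ : ℕ) (c₀ η₀ : ℝ), 0 < c₀ ∧ 0 < η₀ ∧ η₀ ≤ 1 ∧
      ∀ t, ‖t - t₀‖ ≤ η₀ → c₀ * ‖t - t₀‖ ^ μ ≤ ‖f t‖ := by
  obtain ⟨μ, g, hg, hg0, hev⟩ := hf.exists_eventuallyEq_pow_smul_nonzero_iff.2 hne
  have hgc : ∀ᶠ t in 𝓝 t₀, ‖g t₀‖ / 2 < ‖g t‖ := by
    have : ‖g t₀‖ / 2 < ‖g t₀‖ := by have := norm_pos_iff.2 hg0; linarith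
    exact hg.continuousAt.norm.eventually_const_lt this
  obtain ⟨ε, hε, hε2⟩ := Metric.eventually_nhds_iff.1 (hev.and hgc)
  refine ⟨μ, ‖g t₀‖ / 2, min (ε / 2) 1, by have := norm_pos_iff.2 hg0; linarith,
    lt_min (by linarith) one_pos, min_le_right _ _, ?_⟩
  intro t ht
  have h1 : dist t t₀ < ε := by
    rw [dist_eq_norm]
    have := min_le_left (ε / 2) 1
    linarith
  obtain ⟨h2, h3⟩ := hε2 h1
  rw [h2, smul_eq_mul, norm_mul, norm_pow, mul_comm]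
  gcongr

/-- the eventual numerical conditions -/
theorem eventually_cond {μ : ℕ} {c₀ η₀ y₁ r' T S₀ : ℝ} (hc₀ : 0 < c₀) (hη₀ : 0 < η₀)
    (hy₁ : 0 < y₁) (hr' : 0 < r') (hT : 0 < T) :
    ∃ M₀ : ℝ, 1 ≤ M₀ ∧ ∀ m : ℝ, M₀ ≤ m →
      (T + 1) / m < y₁ ∧
      (2 * (T + 1)) * m ^ (1 / ((μ : ℝ) + 2) - 1) ≤ 1 / 2 ∧
      (2 * (T + 1)) / m ≤ r' / 2 ∧
      (2 * (T + 1)) * (10 * (2 * (T + 1)) / r' * m ^ (1 / ((μ : ℝ) + 2) - 1)) ≤ 1 ∧
      T * m ^ (-(1 / ((μ : ℝ) + 2))) / 8 ≤ η₀ ∧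
      2 * Real.exp (2 * (T + 1)) * ((2 * (T + 1)) *
        (10 * (2 * (T + 1)) / r' * m ^ (1 / ((μ : ℝ) + 2) - 1))) * S₀ <
        c₀ * (T * m ^ (-(1 / ((μ : ℝ) + 2))) / 8) ^ μ / 2 ∧
      (T + 1) ^ 2 ≤ T * m := by
  set τ : ℝ := 1 / ((μ : ℝ) + 2) with hτ
  have hμ : (0 : ℝ) ≤ μ := Nat.cast_nonneg μ
  have hτ0 : 0 < τ := by positivity
  have hτ1 : τ < 1 := by rw [hτ, div_lt_one (by positivity)]; linarith
  have hτμ : τ - 1 + τ * μ < 0 := by
    have : τ * ((μ : ℝ) + 2) = 1 := by rw [hτ]; field_simp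
    nlinarith
  have t1 : Tendsto (fun m : ℝ => m ^ (τ - 1)) atTop (𝓝 0) := by
    have := tendsto_rpow_neg_atTop (y := 1 - τ) (by linarith)
    simpa using this
  have t2 : Tendsto (fun m : ℝ => m ^ (-τ)) atTop (𝓝 0) := tendsto_rpow_neg_atTop hτ0
  have t3 : Tendsto (fun m : ℝ => m ^ (τ - 1 + τ * μ)) atTop (𝓝 0) := by
    have := tendsto_rpow_neg_atTop (y := -(τ - 1 + τ * μ)) (by linarith)
    simpa using this
  have t4 : Tendsto (fun m : ℝ => m⁻¹) atTop (𝓝 0) := tendsto_inv_atTop_zero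
  have e1 : ∀ᶠ m : ℝ in atTop, (T + 1) / m < y₁ := by
    have : Tendsto (fun m : ℝ => (T + 1) / m) atTop (𝓝 ((T + 1) * 0)) := by
      simpa [div_eq_mul_inv] using t4.const_mul (T + 1)
    rw [mul_zero] at this
    exact this.eventually_lt_const hy₁
  have e2 : ∀ᶠ m : ℝ in atTop, (2 * (T + 1)) * m ^ (τ - 1) ≤ 1 / 2 := by
    have := t1.const_mul (2 * (T + 1))
    rw [mul_zero] at this
    exact this.eventually_le_const (by norm_num)
  have e3 : ∀ᶠ m : ℝ in atTop, (2 * (T + 1)) / m ≤ r' / 2 := by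
    have : Tendsto (fun m : ℝ => (2 * (T + 1)) / m) atTop (𝓝 ((2 * (T + 1)) * 0)) := by
      simpa [div_eq_mul_inv] using t4.const_mul (2 * (T + 1))
    rw [mul_zero] at this
    exact this.eventually_le_const (by positivity)
  have e4 : ∀ᶠ m : ℝ in atTop,
      (2 * (T + 1)) * (10 * (2 * (T + 1)) / r' * m ^ (τ - 1)) ≤ 1 := by
    have := (t1.const_mul (10 * (2 * (T + 1)) / r')).const_mul (2 * (T + 1))
    rw [mul_zero, mul_zero] at this
    exact this.eventually_le_const (by norm_num)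
  have e5 : ∀ᶠ m : ℝ in atTop, T * m ^ (-τ) / 8 ≤ η₀ := by
    have := (t2.const_mul T).div_const 8
    rw [mul_zero, zero_div] at this
    exact this.eventually_le_const hη₀
  have e6 : ∀ᶠ m : ℝ in atTop, 2 * Real.exp (2 * (T + 1)) * ((2 * (T + 1)) *
        (10 * (2 * (T + 1)) / r' * m ^ (τ - 1))) * S₀ <
        c₀ * (T * m ^ (-τ) / 8) ^ μ / 2 := by
    have h1 := t3.const_mul (2 * Real.exp (2 * (T + 1)) * ((2 * (T + 1)) *
        (10 * (2 * (T + 1)) / r')) * S₀)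
    rw [mul_zero] at h1
    have h2 := h1.eventually_lt_const (u := c₀ * (T / 8) ^ μ / 2) (by positivity)
    filter_upwards [h2, eventually_gt_atTop (0 : ℝ)] with m hm hm0
    have h3 : m ^ (τ - 1 + τ * μ) = m ^ (τ - 1) * m ^ (τ * μ) := Real.rpow_add hm0 _ _
    have h4 : (m ^ (-τ)) ^ μ * m ^ (τ * μ) = 1 := by
      rw [← Real.rpow_natCast, ← Real.rpow_mul hm0.le, ← Real.rpow_add hm0]
      rw [show -τ * μ + τ * μ = 0 by ring, Real.rpow_zero]
    have h5 : 0 < m ^ (τ * μ) := by positivity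
    have h6 : (T * m ^ (-τ) / 8) ^ μ * m ^ (τ * μ) = (T / 8) ^ μ := by
      rw [show T * m ^ (-τ) / 8 = (T / 8) * m ^ (-τ) by ring, mul_pow, mul_assoc, h4, mul_one]
    rw [h3] at hm
    refine lt_of_mul_lt_mul_right ?_ h5.le
    calc _ = 2 * Real.exp (2 * (T + 1)) * ((2 * (T + 1)) *
        (10 * (2 * (T + 1)) / r')) * S₀ * (m ^ (τ - 1) * m ^ (τ * μ)) := by ring
      _ < c₀ * (T / 8) ^ μ / 2 := hm
      _ = c₀ * (T * m ^ (-τ) / 8) ^ μ / 2 * m ^ (τ * μ) := by rw [← h6]; ring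
  have e7 : ∀ᶠ m : ℝ in atTop, (T + 1) ^ 2 ≤ T * m := by
    have : Tendsto (fun m : ℝ => T * m) atTop atTop := tendsto_id.const_mul_atTop hT
    exact this.eventually_ge_atTop _
  obtain ⟨M₀, hM₀⟩ := (eventually_atTop.1 (e1.and (e2.and (e3.and (e4.and (e5.and (e6.and e7)))))))
  refine ⟨max M₀ 1, le_max_right _ _, fun m hm => hM₀ m ((le_max_left _ _).trans hm)⟩

end Pool.Agent.H978R3
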