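import Pool.Agent.H978R3.NonExcB

/-!
Non-exceptional case: uniform coefficient bounds.
-/

open Metric Filter Topology Finset ComplexConjugate

namespace Pool.Agent.H978R3

/-- There are no good points of large size. -/
theorem no_good_point {α β : ℂ} (hα : α ≠ 0) (hβ : β ≠ 0) (hb : ∀ n : ℕ, (β - α) + n ≠ 0)
    {r' r'' : ℝ} (hr' : 0 < r') (hr'' : r'' < 1) (hr0 : 0 ≤ r'') :
    ∃ (τ M₀ : ℝ) (u : ℂ), 0 < τ ∧ ‖u‖ = 1 ∧ ∀ a : ℕ → ℂ, GC a →
      (∀ x : ℂ, ‖x‖ ≤ 1 → ∀ z : ℂ, ‖z‖ < 1 → F α β a x z ≠ 0) →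
      ¬ ∃ (z : ℂ) (m : ℝ), M₀ ≤ m ∧ 0 < m ∧ r' ≤ ‖z‖ ∧ ‖z‖ + m ^ (-τ) < r'' ∧
        (conj u * (z * (deriv (S (K a (β - α) 0)) z / S (K a (β - α) 0) z))).re = m ∧
        (∀ w ∈ ball z (m ^ (-τ)),
          ‖conj u * (w * (deriv (S (K a (β - α) 0)) w / S (K a (β - α) 0) w)) -
            conj u * (z * (deriv (S (K a (β - α) 0)) z / S (K a (β - α) 0) z))‖
            ≤ 2 * m * ‖w - z‖ / (m ^ (-τ) - ‖w - z‖)) ∧
        ‖conj u * (z * (deriv (S (K a (β - α) 0)) z / S (K a (β - α) 0) z))‖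
          ≤ 4 * m / m ^ (-τ) := by
  obtain ⟨t₀, ht₀, hzero⟩ := prof_has_zero hα (by simpa using hβ : α + (β - α) ≠ 0) hb
  have hprofd := prof_differentiable α hb
  have hne : ¬ ∀ᶠ t in 𝓝 t₀, prof α (β - α) t = 0 := by
    intro hev
    have han : AnalyticOnNhd ℂ (prof α (β - α)) Set.univ :=
      hprofd.differentiableOn.analyticOnNhd isOpen_univ
    have := han.eqOn_zero_of_preconnected_of_eventuallyEq_zero isPreconnected_univ
      (Set.mem_univ t₀) hev
    have h0 : prof α (β - α) 0 = 0 := this (Set.mem_univ 0)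
    rw [prof, S_zero, dco_zero] at h0
    exact one_ne_zero h0
  obtain ⟨μ, c₀, η₀, hc₀, hη₀, hη₀1, horder⟩ := order_bound (hprofd.analyticAt t₀) hne
  obtain ⟨y₁, hy₁, hex⟩ := expand α β hr0 hr''
  set T : ℝ := ‖t₀‖ with hT
  have hT0 : 0 < T := norm_pos_iff.2 ht₀
  set S₀ : ℝ := ∑' j : ℕ, ‖dco α (β - α) j‖ * j.factorial * (1 / 2 : ℝ) ^ j with hS₀
  obtain ⟨M₀, hM₀1, hM₀⟩ := eventually_cond (μ := μ) (S₀ := S₀) hc₀ hη₀ hy₁ hr' hT0
  set τ : ℝ := 1 / ((μ : ℝ) + 2) with hτ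
  have hτ0 : 0 < τ := by positivity
  set u : ℂ := t₀ / T with hu
  have hTc : (T : ℂ) ≠ 0 := by exact_mod_cast hT0.ne'
  have hun : ‖u‖ = 1 := by
    rw [hu, norm_div, Complex.norm_real, Real.norm_of_nonneg hT0.le, ← hT]
    field_simp
  have huu : conj u * u = 1 := by
    rw [mul_comm, Complex.mul_conj, Complex.normSq_eq_norm_sq, hun]; simp
  have ht₀u : conj u * t₀ = T := by
    have : t₀ = u * T := by rw [hu]; field_simp
    rw [this, ← mul_assoc, huu, one_mul]
  refine ⟨τ, M₀, u, hτ0, hun, ?_⟩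
  rintro a ha hNV ⟨z, m, hm, hm0, hzr', hzr'', hre, hloc, hglob⟩
  obtain ⟨c1, c2, c3, c4, c5, c6, c7⟩ := hM₀ m hm
  have hm1 : 1 ≤ m := hM₀1.trans hm
  set h := S (K a (β - α) 0) with hh
  set R : ℝ := 2 * (T + 1) with hR
  have hR0 : 0 < R := by positivity
  set δ : ℝ := m ^ (-τ) with hδ
  have hδ0 : 0 < δ := by positivity
  have hδ1 : δ ≤ 1 := Real.rpow_le_one_of_one_le_of_nonpos hm1 (by linarith)
  have hδm : m ^ (τ - 1) = 1 / (δ * m) := by
    rw [hδ, ← Real.rpow_add_one hm0.ne', one_div, ← Real.rpow_neg hm0.le]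
    congr 1; ring
  have hz1 : ‖z‖ < 1 := by linarith
  have hz0 : z ≠ 0 := norm_pos_iff.1 (hr'.trans_le hzr')
  have hhd : DifferentiableOn ℂ h (ball 0 1) := (ha.K _ 0).differentiableOn
  have hhne : ∀ w, ‖w‖ < 1 → h w ≠ 0 := by
    intro w hw
    have := hNV (-1) (by simp) w hw
    rwa [F_neg_one ha α β hw] at this
  set A : ℂ := deriv h z / h z with hA
  set Q : ℂ := conj u * (z * A) with hQ
  have huc : ‖conj u‖ = 1 := by rw [Complex.norm_conj, hun]
  have hQn : ‖Q‖ = ‖z‖ * ‖A‖ := by rw [hQ, norm_mul, norm_mul, huc, one_mul]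
  have hmQ : m ≤ ‖Q‖ := by rw [← hre]; exact Complex.re_le_norm _
  have hmA : m ≤ ‖A‖ := by
    refine hmQ.trans ?_
    rw [hQn]
    nlinarith [norm_nonneg A]
  have hA0 : 0 < ‖A‖ := hm0.trans_le hmA
  have hAne : A ≠ 0 := norm_pos_iff.1 hA0
  have hQ0 : Q ≠ 0 := norm_pos_iff.1 (hm0.trans_le hmQ)
  have hRA : R / ‖A‖ ≤ δ / 2 := by
    have h1 : R / ‖A‖ ≤ R / m := by gcongr
    refine h1.trans ?_
    have h2 : R * m ^ (τ - 1) ≤ 1 / 2 := c2
    rw [hδm] at h2
    rw [mul_one_div, div_le_iff₀ (by positivity)] at h2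
    rw [div_le_iff₀ hm0]
    linarith
  have hRA2 : R / ‖A‖ ≤ r' / 2 := by
    have h1 : R / ‖A‖ ≤ R / m := by gcongr
    exact h1.trans c3
  have hRA0 : 0 < R / ‖A‖ := by positivity
  have hball : ∀ w ∈ closedBall z (R / ‖A‖), ‖w‖ < 1 := by
    intro w hw
    have h1 : ‖w - z‖ ≤ R / ‖A‖ := by simpa [dist_eq_norm] using hw
    have h2 := norm_add_le (w - z) z
    rw [sub_add_cancel] at h2
    linarith
  obtain ⟨p, hp, hpe⟩ := log_exists hhd hhne
  set ε : ℝ := 10 * R / r' * m ^ (τ - 1) with hε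
  have hε0 : 0 ≤ ε := by positivity
  -- derivative estimate
  have hderiv : ∀ w ∈ closedBall z (R / ‖A‖), ‖deriv p w - A‖ ≤ ε * ‖A‖ := by
    intro w hw
    have h1 : ‖w - z‖ ≤ R / ‖A‖ := by simpa [dist_eq_norm] using hw
    have hw1 := hball w hw
    have hwn : r' / 2 ≤ ‖w‖ := by
      have h2 := norm_sub_norm_le z w
      rw [norm_sub_rev] at h2
      linarith
    have hw0 : w ≠ 0 := norm_pos_iff.1 (by linarith)
    have hlw := hloc w (by simp only [mem_ball, dist_eq_norm]; linarith)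
    have h3 : ‖w * (deriv h w / h w) - z * A‖ ≤ 4 * R / δ := by
      have h4 : ‖w * (deriv h w / h w) - z * A‖ =
          ‖conj u * (w * (deriv h w / h w)) - conj u * (z * A)‖ := by
        rw [← mul_sub, norm_mul, huc, one_mul]
      rw [h4]
      refine hlw.trans ?_
      have h5 : δ / 2 ≤ δ - ‖w - z‖ := by linarith
      have h6 : 2 * m * ‖w - z‖ ≤ 2 * R := by
        have : m * ‖w - z‖ ≤ ‖A‖ * (R / ‖A‖) := by gcongr
        rw [mul_div_cancel₀ _ hA0.ne'] at this
        linarith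
      calc 2 * m * ‖w - z‖ / (δ - ‖w - z‖) ≤ 2 * R / (δ / 2) := by gcongr
        _ = 4 * R / δ := by field_simp; ring
    have h7 : deriv p w - A = (w * (deriv h w / h w) - z * A) / w + A * (z - w) / w := by
      rw [(hp w hw1).deriv]
      field_simp
      ring
    rw [h7]
    have h8 : ‖A * (z - w)‖ ≤ R := by
      rw [norm_mul, norm_sub_rev]
      calc ‖A‖ * ‖w - z‖ ≤ ‖A‖ * (R / ‖A‖) := by gcongr
        _ = R := by field_simp
    have hr2 : 0 < r' / 2 := by positivity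
    calc ‖(w * (deriv h w / h w) - z * A) / w + A * (z - w) / w‖
        ≤ ‖w * (deriv h w / h w) - z * A‖ / ‖w‖ + ‖A * (z - w)‖ / ‖w‖ := by
          refine (norm_add_le _ _).trans ?_
          rw [norm_div, norm_div]
      _ ≤ (4 * R / δ) / (r' / 2) + R / (r' / 2) := by gcongr
      _ ≤ 10 * R / (r' * δ) := by
          have : R / (r' / 2) ≤ 2 * R / (r' * δ) := by
            rw [div_le_div_iff₀ (by positivity) (by positivity)]
            have h9 := mul_le_mul_of_nonneg_left hδ1 (mul_pos hR0 hr').le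
            linarith
          have e : (4 * R / δ) / (r' / 2) = 8 * R / (r' * δ) := by field_simp; ring
          rw [e]
          have e2 : 8 * R / (r' * δ) + 2 * R / (r' * δ) = 10 * R / (r' * δ) := by
            rw [← add_div]; congr 1; ring
          linarith
      _ ≤ ε * ‖A‖ := by
          rw [hε, hδm]
          calc 10 * R / (r' * δ) = 10 * R / r' * (1 / (δ * m)) * m := by field_simp
            _ ≤ _ := by gcongr
  have hexp := local_exp hR0 hAne (fun w hw => (hp w (hball w hw)).differentiableAt) hderiv c4 hε0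
  set G : ℝ := 2 * Real.exp R * (R * ε) with hG
  have hGb : ∀ w ∈ closedBall z (R / ‖A‖), ‖h w / h z - Complex.exp (A * (w - z))‖ ≤ G := by
    intro w hw
    rw [hpe w z (hball w hw) hz1]
    exact hexp w hw
  set η : ℝ := T * δ / 8 with hη
  have hη0 : 0 < η := by positivity
  have hηle : η ≤ η₀ := c5
  have hmain : ∀ t ∈ closedBall t₀ η, ‖F α β a (t / (A * z) - 1) z / h z - prof α (β - α) t‖ ≤ G * S₀ := by
    intro t ht
    have h1 : ‖t - t₀‖ ≤ η := by simpa [dist_eq_norm] using ht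
    have h2 : ‖t‖ ≤ T + 1 := by
      have := norm_add_le (t - t₀) t₀
      rw [sub_add_cancel] at this
      linarith
    apply E_sub_prof ha hb hex (by linarith) hz1 hz0 hAne hR0 hball (hhne z hz1) hGb
    · rw [hR]; linarith
    · have h3 : ‖A * z‖ = ‖Q‖ := by rw [hQn, norm_mul, mul_comm]
      rw [norm_div, h3]
      refine lt_of_le_of_lt ?_ c1
      gcongr
  have hgeo : ∀ t ∈ closedBall t₀ η, ‖t / (A * z) - 1‖ ≤ 1 := by
    intro t ht
    have h1 : ‖t - t₀‖ ≤ η := by simpa [dist_eq_norm] using ht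
    have h2 : ‖t‖ ≤ T + 1 := by
      have := norm_add_le (t - t₀) t₀
      rw [sub_add_cancel] at this
      linarith
    have huc0 : conj u ≠ 0 := norm_pos_iff.1 (by rw [huc]; exact one_pos)
    have e1 : t / (A * z) = (conj u * t) / Q := by
      rw [hQ]
      field_simp
    rw [e1]
    apply geo hQ0
    have e2 : conj u * t = T + conj u * (t - t₀) := by rw [mul_sub, ht₀u]; ring
    have e3 : (conj u * t * conj Q).re = T * m + (conj u * (t - t₀) * conj Q).re := by
      rw [e2, add_mul, Complex.add_re, Complex.re_ofReal_mul, Complex.conj_re, hre]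
    have e4 : -(η * ‖Q‖) ≤ (conj u * (t - t₀) * conj Q).re := by
      have h5 := Complex.abs_re_le_norm (conj u * (t - t₀) * conj Q)
      rw [norm_mul, norm_mul, huc, one_mul, Complex.norm_conj] at h5
      have h6 : ‖t - t₀‖ * ‖Q‖ ≤ η * ‖Q‖ := by gcongr
      have h7 := neg_abs_le (conj u * (t - t₀) * conj Q).re
      linarith
    have e5 : η * ‖Q‖ ≤ T * m / 2 := by
      calc η * ‖Q‖ ≤ η * (4 * m / δ) := by gcongr
        _ = T * m / 2 := by rw [hη]; field_simp; ring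
    have e6 : ‖conj u * t‖ ^ 2 ≤ T * m := by
      rw [norm_mul, huc, one_mul]
      calc ‖t‖ ^ 2 ≤ (T + 1) ^ 2 := by gcongr
        _ ≤ T * m := c7
    rw [e3]
    linarith
  have hs0 : 0 < c₀ * η ^ μ / 2 := by positivity
  have hGS : G * S₀ < c₀ * η ^ μ / 2 := c6
  obtain ⟨t, ht, htz⟩ : ∃ t ∈ closedBall t₀ η, F α β a (t / (A * z) - 1) z / h z = 0 := by
    apply exists_zero_of_lt (E := fun t => F α β a (t / (A * z) - 1) z / h z) hη0 _ hs0
    · intro t ht
      have h1 := hmain t (sphere_subset_closedBall ht)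
      have h2 : ‖t - t₀‖ = η := by simpa [dist_eq_norm] using ht
      have h3 := horder t (by rw [h2]; exact hηle)
      rw [h2] at h3
      have h4 := norm_sub_norm_le (prof α (β - α) t) (F α β a (t / (A * z) - 1) z / h z)
      rw [norm_sub_rev] at h4
      show c₀ * η ^ μ / 2 ≤ ‖F α β a (t / (A * z) - 1) z / h z‖
      linarith
    · have h1 := hmain t₀ (mem_closedBall_self hη0.le)
      rw [hzero, sub_zero] at h1
      exact h1.trans_lt hGS
    · obtain ⟨R₁, hR₁, hR₂⟩ : ∃ R₁ : ℝ, 1 < R₁ ∧ ‖z‖ * R₁ < 1 := by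
        have hzpos : 0 < ‖z‖ := norm_pos_iff.2 hz0
        refine ⟨(1 + 1 / ‖z‖) / 2, ?_, ?_⟩
        · have : 1 < 1 / ‖z‖ := by rw [lt_div_iff₀ hzpos]; linarith
          linarith
        · have : ‖z‖ * ((1 + 1 / ‖z‖) / 2) = (‖z‖ + 1) / 2 := by field_simp
          rw [this]; linarith
      have hd1 : DifferentiableOn ℂ (fun x => F α β a x z) (ball 0 R₁) :=
        F_diff_x ha α β hR₁.le hR₂
      have hd2 : DifferentiableOn ℂ (fun t => F α β a (t / (A * z) - 1) z) (closedBall t₀ η) := by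
        apply hd1.comp (t := ball 0 R₁) (f := fun t => t / (A * z) - 1) (by fun_prop)
        intro t ht
        simpa using (hgeo t ht).trans_lt hR₁
      exact hd2.div_const _
  have h1 := hNV _ (hgeo t ht) z hz1
  rw [div_eq_zero_iff] at htz
  rcases htz with h2 | h2
  · exact h1 h2
  · exact hhne z hz1 h2

end Pool.Agent.H978R3
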