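import Pool.Agent.H978R3.NonExcC

/-!
Non-exceptional case: uniform coefficient bounds.
-/

open Metric Filter Topology Finset ComplexConjugate

namespace Pool.Agent.H978R3

theorem gm_ne_zero {b : ℂ} (hb : ∀ n : ℕ, b + n ≠ 0) (n : ℕ) : gm b n ≠ 0 := by
  induction n with
  | zero => simp [gm_zero]
  | succ n ih =>
    intro h
    have h1 := gm_succ b n
    rw [h, zero_mul] at h1
    exact (mul_ne_zero ih (hb n)) h1.symm

theorem GC_gm_inv {b : ℂ} (hb : ∀ n : ℕ, b + n ≠ 0) : GC (fun n => (gm b n)⁻¹) := by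
  apply GC_of_ratio (s := fun n => (((n : ℂ) + 1) / ((n : ℂ) + b)))
  · intro n
    have h4 : (n : ℂ) + 1 ≠ 0 := by exact_mod_cast Nat.succ_ne_zero n
    have h5 := gm_ne_zero hb n
    have h6 := gm_ne_zero hb (n + 1)
    have h7 : (n : ℂ) + b ≠ 0 := by rw [add_comm]; exact hb n
    have := gm_succ b n
    field_simp
    linear_combination -this
  · exact tendsto_ratio 1 b

/-- from a bound of `Re (u z h'/h)` to a bound of `h` -/
theorem bound_of_re {h : ℂ → ℂ} (hd : DifferentiableOn ℂ h (ball 0 1))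
    (hne : ∀ z, ‖z‖ < 1 → h z ≠ 0) (h0 : h 0 = 1) {u : ℂ} (hu : ‖u‖ = 1) {A₀ r' ρ : ℝ}
    (hA₀ : 0 < A₀) (hρ0 : 0 < ρ) (hρ : ρ < r') (hr' : r' < 1)
    (hre : ∀ z, ‖z‖ ≤ r' → (conj u * (z * (deriv h z / h z))).re ≤ A₀) :
    ∀ z, ‖z‖ ≤ ρ → ‖h z‖ ≤ Real.exp (2 * A₀ / (r' - ρ)) := by
  have huc : ‖conj u‖ = 1 := by rw [Complex.norm_conj, hu]
  have hL : DifferentiableOn ℂ (fun w => deriv h w / h w) (ball 0 1) := by
    apply (hd.deriv isOpen_ball).div hd
    intro z hz; exact hne z (by simpa using hz)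
  have hQd : DifferentiableOn ℂ (fun z => conj u * (z * (deriv h z / h z))) (ball 0 1) := by
    apply DifferentiableOn.const_mul
    exact differentiableOn_id.mul hL
  have hr0 : 0 < r' := hρ0.trans hρ
  have hBC : ∀ z, ‖z‖ < r' → ‖conj u * (z * (deriv h z / h z))‖ ≤ 2 * A₀ * ‖z‖ / (r' - ‖z‖) := by
    intro z hz
    apply Complex.borelCaratheodory_zero (f := fun z => conj u * (z * (deriv h z / h z))) hA₀
      (hQd.mono (ball_subset_ball hr'.le)) _ hr0 (by simpa using hz) (by simp)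
    intro w hw
    exact hre w (by have : ‖w‖ < r' := by simpa using hw
                    exact this.le)
  have hC1 : 0 ≤ 2 * A₀ / (r' - ρ) := by
    have : 0 < r' - ρ := by linarith
    positivity
  have hderiv : ∀ w, ‖w‖ ≤ ρ → ‖deriv h w / h w‖ ≤ 2 * A₀ / (r' - ρ) := by
    intro w hw
    have hdc : DiffContOnCl ℂ (fun w => deriv h w / h w) (ball 0 ρ) := by
      apply DifferentiableOn.diffContOnCl
      rw [closure_ball _ hρ0.ne']
      exact hL.mono (closedBall_subset_ball (by linarith))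
    apply Complex.norm_le_of_forall_mem_frontier_norm_le (f := fun w => deriv h w / h w)
      (isBounded_ball (x := (0 : ℂ)) (r := ρ)) hdc
    · intro z hz
      rw [frontier_ball _ hρ0.ne'] at hz
      have hzn : ‖z‖ = ρ := by simpa using hz
      have h1 := hBC z (by linarith)
      rw [norm_mul, norm_mul, huc, one_mul, hzn] at h1
      have h2 : ρ * ‖deriv h z / h z‖ ≤ ρ * (2 * A₀ / (r' - ρ)) := by
        refine h1.trans (le_of_eq ?_); ring
      exact le_of_mul_le_mul_left h2 hρ0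
    · rw [closure_ball _ hρ0.ne']; simpa using hw
  obtain ⟨p, hp, hpe⟩ := log_exists hd hne
  intro z hz
  have hz1 : ‖z‖ < 1 := by linarith
  have e := hpe z 0 hz1 (by simp)
  rw [h0, div_one] at e
  rw [e, Complex.norm_exp]
  apply Real.exp_le_exp.2
  refine (Complex.re_le_norm _).trans ?_
  have h3 := Convex.norm_image_sub_le_of_norm_deriv_le (𝕜 := ℂ) (f := p) (s := closedBall 0 ρ)
    (C := 2 * A₀ / (r' - ρ)) (x := 0) (y := z) ?_ ?_ (convex_closedBall _ _)
    (mem_closedBall_self hρ0.le) (by simpa using hz)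
  · rw [sub_zero] at h3
    refine h3.trans ?_
    calc 2 * A₀ / (r' - ρ) * ‖z‖ ≤ 2 * A₀ / (r' - ρ) * 1 := by gcongr
      _ = _ := mul_one _
  · intro w hw
    have hw' : ‖w‖ ≤ ρ := by simpa using hw
    exact (hp w (by linarith)).differentiableAt
  · intro w hw
    have hw' : ‖w‖ ≤ ρ := by simpa using hw
    rw [(hp w (by linarith)).deriv]
    exact hderiv w hw'

/-- Cauchy bound for coefficients -/
theorem coeff_bound {a : ℕ → ℂ} (ha : GC a) {ρ M : ℝ} (hρ0 : 0 < ρ) (hρ1 : ρ < 1)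
    (hM : ∀ z, ‖z‖ ≤ ρ → ‖S a z‖ ≤ M) (n : ℕ) : ‖a n‖ * ρ ^ n ≤ M := by
  have h1 : ‖iteratedDeriv n (S a) 0‖ ≤ n.factorial * M / ρ ^ n := by
    apply Complex.norm_iteratedDeriv_le_of_forall_mem_sphere_norm_le n hρ0
    · apply DifferentiableOn.diffContOnCl
      rw [closure_ball _ hρ0.ne']
      exact ha.differentiableOn.mono (closedBall_subset_ball hρ1)
    · intro w hw
      have : ‖w‖ = ρ := by simpa using hw
      exact hM w this.le
  have h2 := coeff_eq_of_eqOn ha (f := S a) (fun z _ => rfl) n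
  have hf : (0 : ℝ) < n.factorial := by exact_mod_cast n.factorial_pos
  rw [← h2, norm_div, Complex.norm_natCast]
  rw [le_div_iff₀ (by positivity)] at h1
  rw [div_mul_eq_mul_div, div_le_iff₀ hf]
  linarith

/-- uniform bound in the non-exceptional case -/
theorem nonexc_bound {α β : ℂ} (hα : α ≠ 0) (hβ : β ≠ 0) (hb : ∀ n : ℕ, (β - α) + n ≠ 0)
    {r : ℝ} (hr0 : 0 < r) (hr1 : r < 1) :
    ∃ C : ℝ, ∀ a : ℕ → ℂ, GC a → a 0 = 1 →
      (∀ x : ℂ, ‖x‖ ≤ 1 → ∀ z : ℂ, ‖z‖ < 1 → F α β a x z ≠ 0) →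
      ∀ n, ‖a n‖ * r ^ n ≤ C := by
  obtain ⟨ρ, hρ, hρ1⟩ := exists_between hr1
  obtain ⟨r', hr', hr'1⟩ := exists_between hρ1
  obtain ⟨r'', hr'', hr''1⟩ := exists_between hr'1
  have hρ0 : 0 < ρ := hr0.trans hρ
  have hr'0 : 0 < r' := hρ0.trans hr'
  obtain ⟨τ, M₀, u, hτ, hu, hno⟩ := no_good_point hα hβ hb hr'0 hr''1 (by linarith)
  obtain ⟨A₀, hA₀, hgood⟩ := exists_good_point (M₀ := M₀) hτ hr'0 hr'' hr''1.le
  have hrρ : r / ρ < 1 := by rw [div_lt_one hρ0]; exact hρ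
  obtain ⟨C₂, hC₂0, hC₂⟩ := (GC_gm_inv hb).bound (by positivity : (0 : ℝ) ≤ r / ρ) hrρ
  refine ⟨Real.exp (2 * A₀ / (r' - ρ)) * C₂, ?_⟩
  intro a ha ha0 hNV n
  set h := S (K a (β - α) 0) with hh
  have hhd : DifferentiableOn ℂ h (ball 0 1) := (ha.K _ 0).differentiableOn
  have hhne : ∀ w, ‖w‖ < 1 → h w ≠ 0 := by
    intro w hw
    have := hNV (-1) (by simp) w hw
    rwa [F_neg_one ha α β hw] at this
  have hh0 : h 0 = 1 := by rw [hh, S_K_zero, ha0]
  have hQd : DifferentiableOn ℂ (fun z => conj u * (z * (deriv h z / h z))) (ball 0 1) := by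
    apply DifferentiableOn.const_mul
    apply differentiableOn_id.mul
    apply (hhd.deriv isOpen_ball).div hhd
    intro z hz; exact hhne z (by simpa using hz)
  have hre : ∀ z, ‖z‖ ≤ r' → (conj u * (z * (deriv h z / h z))).re ≤ A₀ := by
    intro z hz
    by_contra hcon
    push Not at hcon
    exact hno a ha hNV (hgood _ hQd (by simp) ⟨z, hz, hcon.le⟩)
  have hb1 := bound_of_re hhd hhne hh0 hu hA₀ hρ0 hr' hr'1 hre
  have hb2 := coeff_bound (ha.K (β - α) 0) hρ0 hρ1 hb1 n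
  have e : K a (β - α) 0 n = a n * gm (β - α) n := by simp [K]
  rw [e, norm_mul] at hb2
  have hg := norm_pos_iff.2 (gm_ne_zero hb n)
  have h3 := hC₂ n
  rw [norm_inv, div_pow] at h3
  calc ‖a n‖ * r ^ n = (‖a n‖ * ‖gm (β - α) n‖ * ρ ^ n) * (‖gm (β - α) n‖⁻¹ * (r ^ n / ρ ^ n)) := by
        field_simp
    _ ≤ Real.exp (2 * A₀ / (r' - ρ)) * C₂ := by gcongr

end Pool.Agent.H978R3
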