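import Mathlib

/-!
Power series in the open unit disc: coefficient sequences, products, derivatives.
-/

open Metric Filter Topology

namespace Pool.Agent.H978R3

/-- coefficient sequences whose power series converges in the open unit disc -/
def GC (a : ℕ → ℂ) : Prop := ∀ ρ : ℝ, 0 ≤ ρ → ρ < 1 → Summable (fun n => ‖a n‖ * ρ ^ n)

/-- the sum of the power series -/
noncomputable def S (a : ℕ → ℂ) (z : ℂ) : ℂ := ∑' n, a n * z ^ n

/-- coefficients of the derivative -/
noncomputable def D (a : ℕ → ℂ) : ℕ → ℂ := fun n => ((n : ℂ) + 1) * a (n + 1)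

theorem GC.bound {a : ℕ → ℂ} (ha : GC a) {ρ : ℝ} (h0 : 0 ≤ ρ) (h1 : ρ < 1) :
    ∃ C : ℝ, 0 < C ∧ ∀ n, ‖a n‖ * ρ ^ n ≤ C := by
  have hs := ha ρ h0 h1
  refine ⟨(∑' n, ‖a n‖ * ρ ^ n) + 1, ?_, fun n => ?_⟩
  · have : 0 ≤ ∑' n, ‖a n‖ * ρ ^ n := tsum_nonneg (fun n => by positivity)
    linarith
  · have := hs.le_tsum n (fun j _ => by positivity)
    linarith

theorem GC.mul {a b : ℕ → ℂ} (ha : GC a) (hb : GC b) : GC (fun n => a n * b n) := by
  intro ρ h0 h1
  have hs0 : 0 ≤ Real.sqrt ρ := Real.sqrt_nonneg ρ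
  have hs1 : Real.sqrt ρ < 1 := by
    rw [Real.sqrt_lt' one_pos]; simpa using h1
  obtain ⟨C, hC, hCb⟩ := ha.bound hs0 hs1
  have hs := (hb _ hs0 hs1).mul_left C
  refine Summable.of_nonneg_of_le (fun n => by positivity) (fun n => ?_) hs
  have e : ρ ^ n = Real.sqrt ρ ^ n * Real.sqrt ρ ^ n := by
    rw [← mul_pow, Real.mul_self_sqrt h0]
  rw [norm_mul, e]
  calc ‖a n‖ * ‖b n‖ * (Real.sqrt ρ ^ n * Real.sqrt ρ ^ n)
      = (‖a n‖ * Real.sqrt ρ ^ n) * (‖b n‖ * Real.sqrt ρ ^ n) := by ring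
    _ ≤ C * (‖b n‖ * Real.sqrt ρ ^ n) := by
        apply mul_le_mul_of_nonneg_right (hCb n) (by positivity)

theorem GC_of_ratio {c s : ℕ → ℂ} (h : ∀ n, c (n + 1) = c n * s n)
    (hs : Tendsto (fun n => ‖s n‖) atTop (𝓝 1)) : GC c := by
  intro ρ h0 h1
  have ht : Tendsto (fun n => ‖s n‖ * ρ) atTop (𝓝 (1 * ρ)) := hs.mul_const ρ
  rw [one_mul] at ht
  have hr : ρ < (1 + ρ) / 2 := by linarith
  have hr1 : (1 + ρ) / 2 < 1 := by linarith
  have hev : ∀ᶠ n in atTop, ‖s n‖ * ρ < (1 + ρ) / 2 := ht.eventually_lt_const hr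
  refine summable_of_ratio_norm_eventually_le (r := (1 + ρ) / 2) hr1 ?_
  filter_upwards [hev] with n hn
  have e : ‖c (n + 1)‖ * ρ ^ (n + 1) = (‖s n‖ * ρ) * (‖c n‖ * ρ ^ n) := by
    rw [h, norm_mul, pow_succ]; ring
  rw [Real.norm_of_nonneg (by positivity), Real.norm_of_nonneg (by positivity), e]
  exact mul_le_mul_of_nonneg_right hn.le (by positivity)

theorem GC.shift {a : ℕ → ℂ} (ha : GC a) (k : ℕ) : GC (fun n => a (n + k)) := by
  intro ρ h0 h1
  rcases h0.eq_or_lt with rfl | hpos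
  · refine summable_of_ne_finset_zero (s := {0}) (fun n hn => ?_)
    have : n ≠ 0 := by simpa using hn
    simp [this]
  have hs := ((summable_nat_add_iff k).2 (ha ρ h0 h1)).mul_right ((ρ ^ k)⁻¹)
  refine hs.congr (fun n => ?_)
  rw [pow_add]; field_simp

theorem GC_natCast_add_one : GC (fun n => (n : ℂ) + 1) := by
  apply GC_of_ratio (s := fun n => ((n : ℂ) + 2) / ((n : ℂ) + 1))
  · intro n
    have : (n : ℂ) + 1 ≠ 0 := by exact_mod_cast Nat.succ_ne_zero n
    field_simp; push_cast; ring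
  · have e : (fun n : ℕ => ‖((n : ℂ) + 2) / ((n : ℂ) + 1)‖) = fun n : ℕ => 1 + 1 / ((n : ℝ) + 1) := by
      funext n
      have h1 : (n : ℂ) + 2 = (((n : ℝ) + 2 : ℝ) : ℂ) := by push_cast; ring
      have h2 : (n : ℂ) + 1 = (((n : ℝ) + 1 : ℝ) : ℂ) := by push_cast; ring
      rw [h1, h2, ← Complex.ofReal_div, Complex.norm_real, Real.norm_of_nonneg (by positivity)]
      have : (n : ℝ) + 1 ≠ 0 := by positivity
      field_simp; ring
    rw [e]
    simpa using (tendsto_const_nhds (x := (1 : ℝ))).add tendsto_one_div_add_atTop_nhds_zero_nat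

theorem GC.D {a : ℕ → ℂ} (ha : GC a) : GC (D a) := GC_natCast_add_one.mul (ha.shift 1)

theorem GC.summable {a : ℕ → ℂ} (ha : GC a) {z : ℂ} (hz : ‖z‖ < 1) :
    Summable (fun n => ‖a n * z ^ n‖) := by
  refine (ha ‖z‖ (norm_nonneg z) hz).congr (fun n => ?_)
  rw [norm_mul, norm_pow]

theorem GC.hasSum {a : ℕ → ℂ} (ha : GC a) {z : ℂ} (hz : ‖z‖ < 1) :
    HasSum (fun n => a n * z ^ n) (S a z) := (ha.summable hz).of_norm.hasSum

theorem GC.differentiableOn {a : ℕ → ℂ} (ha : GC a) : DifferentiableOn ℂ (S a) (ball 0 1) := by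
  intro z hz
  have hz1 : ‖z‖ < 1 := by simpa using hz
  obtain ⟨ρ, hρ1, hρ2⟩ := exists_between hz1
  have h0 : 0 ≤ ρ := (norm_nonneg z).trans hρ1.le
  have : DifferentiableOn ℂ (fun w => ∑' n, a n * w ^ n) (ball 0 ρ) := by
    apply Complex.differentiableOn_tsum_of_summable_norm (ha ρ h0 hρ2)
    · intro i; fun_prop
    · exact isOpen_ball
    · intro i w hw
      rw [norm_mul, norm_pow]
      have : ‖w‖ ≤ ρ := by simpa using (mem_ball_zero_iff.1 hw).le
      gcongr
  exact (this.differentiableAt (isOpen_ball.mem_nhds (by simpa using hρ1))).differentiableWithinAt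

theorem GC.hasDerivAt {a : ℕ → ℂ} (ha : GC a) {z : ℂ} (hz : ‖z‖ < 1) :
    HasDerivAt (S a) (S (Pool.Agent.H978R3.D a) z) z := by
  obtain ⟨ρ, hρ1, hρ2⟩ := exists_between hz
  have h0 : 0 ≤ ρ := (norm_nonneg z).trans hρ1.le
  have hdiff : DifferentiableAt ℂ (S a) z :=
    ha.differentiableOn.differentiableAt (isOpen_ball.mem_nhds (by simpa using hz))
  have hs : HasSum (fun n => deriv (fun w : ℂ => a n * w ^ n) z) (deriv (S a) z) := by
    apply Complex.hasSum_deriv_of_summable_norm (U := ball 0 ρ) (ha ρ h0 hρ2)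
    · intro i; fun_prop
    · exact isOpen_ball
    · intro i w hw
      rw [norm_mul, norm_pow]
      have : ‖w‖ ≤ ρ := by simpa using (mem_ball_zero_iff.1 hw).le
      gcongr
    · simpa using hρ1
  have e : ∀ n : ℕ, deriv (fun w : ℂ => a n * w ^ n) z = a n * (n * z ^ (n - 1)) := by
    intro n; rw [deriv_const_mul _ (by fun_prop)]; simp
  simp only [e] at hs
  have hs2 := (hasSum_nat_add_iff' (f := fun n => a n * (n * z ^ (n - 1))) 1).2 hs
  simp only [Finset.range_one, Finset.sum_singleton, Nat.cast_zero, zero_mul, mul_zero, sub_zero,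
    Nat.add_sub_cancel] at hs2
  have hs3 : HasSum (fun n => Pool.Agent.H978R3.D a n * z ^ n) (deriv (S a) z) := by
    have e2 : (fun n => Pool.Agent.H978R3.D a n * z ^ n)
        = fun n => a (n + 1) * (((n + 1 : ℕ) : ℂ) * z ^ n) := by
      funext n
      simp only [Pool.Agent.H978R3.D]
      push_cast
      ring
    rw [e2]; exact hs2
  have := hs3.unique (ha.D.hasSum hz)
  rw [← this]
  exact hdiff.hasDerivAt

/-- iterated derivative sequence -/
theorem GC.iterD {a : ℕ → ℂ} (ha : GC a) (j : ℕ) : GC (Pool.Agent.H978R3.D^[j] a) := by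
  induction j with
  | zero => exact ha
  | succ j ih => rw [Function.iterate_succ_apply']; exact ih.D

theorem GC.iteratedDeriv {a : ℕ → ℂ} (ha : GC a) (j : ℕ) :
    ∀ z : ℂ, ‖z‖ < 1 → _root_.iteratedDeriv j (S a) z = S (Pool.Agent.H978R3.D^[j] a) z := by
  induction j with
  | zero => intro z _; simp
  | succ j ih =>
    intro z hz
    rw [iteratedDeriv_succ, Function.iterate_succ_apply']
    have hev : _root_.iteratedDeriv j (S a) =ᶠ[𝓝 z] S (Pool.Agent.H978R3.D^[j] a) := by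
      have : ball (0 : ℂ) 1 ∈ 𝓝 z := isOpen_ball.mem_nhds (by simpa using hz)
      filter_upwards [this] with w hw
      exact ih w (by simpa using hw)
    rw [hev.deriv_eq]
    exact ((ha.iterD j).hasDerivAt hz).deriv

theorem S_zero (a : ℕ → ℂ) : S a 0 = a 0 := by
  unfold S
  rw [tsum_eq_single 0]
  · simp
  · intro n hn; simp [hn]

theorem iterD_zero (a : ℕ → ℂ) (j : ℕ) : ∀ m, (Pool.Agent.H978R3.D^[j] a) m
    = ((m + j).factorial : ℂ) / (m.factorial : ℂ) * a (m + j) := by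
  induction j with
  | zero => intro m; have : (m.factorial : ℂ) ≠ 0 := by exact_mod_cast m.factorial_ne_zero
            simp [this]
  | succ j ih =>
    intro m
    rw [Function.iterate_succ_apply']
    simp only [D, ih]
    have h1 : ((m + 1).factorial : ℂ) = (m + 1) * (m.factorial : ℂ) := by
      rw [Nat.factorial_succ]; push_cast; ring
    have h2 : (m : ℂ) + 1 ≠ 0 := by exact_mod_cast Nat.succ_ne_zero m
    have h3 : (m.factorial : ℂ) ≠ 0 := by exact_mod_cast m.factorial_ne_zero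
    rw [h1, show m + 1 + j = m + (j + 1) by ring]
    field_simp

theorem coeff_eq_of_eqOn {a : ℕ → ℂ} (ha : GC a) {f : ℂ → ℂ}
    (h : ∀ z, ‖z‖ < 1 → f z = S a z) (n : ℕ) :
    _root_.iteratedDeriv n f 0 / (n.factorial : ℂ) = a n := by
  have hev : f =ᶠ[𝓝 0] S a := by
    have : ball (0 : ℂ) 1 ∈ 𝓝 (0 : ℂ) := isOpen_ball.mem_nhds (by simp)
    filter_upwards [this] with w hw
    exact h w (by simpa using hw)
  rw [hev.iteratedDeriv_eq, ha.iteratedDeriv n 0 (by simp), S_zero, iterD_zero]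
  have h3 : (n.factorial : ℂ) ≠ 0 := by exact_mod_cast n.factorial_ne_zero
  simp
  field_simp

/-- Taylor coefficients of a function differentiable on the unit disc. -/
theorem GC_taylor {f : ℂ → ℂ} (hf : DifferentiableOn ℂ f (ball 0 1)) :
    GC (fun n => _root_.iteratedDeriv n f 0 / (n.factorial : ℂ)) := by
  intro ρ h0 h1
  have hz : ((ρ : ℂ)) ∈ ball (0 : ℂ) 1 := by simpa [abs_of_nonneg h0] using h1
  have hs := (Complex.hasSum_taylorSeries_on_ball hf hz).summable.norm
  refine hs.congr (fun n => ?_)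
  simp only [sub_zero, smul_eq_mul, norm_mul, norm_inv, norm_pow, Complex.norm_real,
    Real.norm_of_nonneg h0, norm_div]
  rw [div_eq_inv_mul]; ring

theorem eq_S_taylor {f : ℂ → ℂ} (hf : DifferentiableOn ℂ f (ball 0 1)) {z : ℂ} (hz : ‖z‖ < 1) :
    f z = S (fun n => _root_.iteratedDeriv n f 0 / (n.factorial : ℂ)) z := by
  have hs := Complex.hasSum_taylorSeries_on_ball hf (z := z) (by simpa using hz)
  have h2 := (GC_taylor hf).hasSum hz
  refine hs.unique ?_
  have e2 : (fun n : ℕ => (n.factorial : ℂ)⁻¹ • (z - 0) ^ n • _root_.iteratedDeriv n f 0)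
      = fun n => _root_.iteratedDeriv n f 0 / (n.factorial : ℂ) * z ^ n := by
    funext n
    simp only [sub_zero, smul_eq_mul]
    rw [div_eq_inv_mul]; ring
  rw [e2]; exact h2

end Pool.Agent.H978R3
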